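import Pool.Agent.Work.MP_8d2cba_co_h18.Cov

/-! MP_8d2cba_co: P2 from INIT, LET, ASG, EXEC. -/

set_option autoImplicit false
set_option linter.unusedSectionVars false

namespace Pool.OM

open Finset

section mk
variable {G : Type} [Group G]

def mkBurns : List (Cp G) → List (Bt G)
  | c1 :: c2 :: c4 :: c5 :: l => Bt.burn c1 c2 c4 c5 :: mkBurns l
  | _ => []

def mkPlan : List ((G × G) × Cp G × Cp G × Cp G) → List (Cp G) → List (Bt G)
  | [], l => mkBurns l
  | a :: as, c1 :: c5 :: l =>
    Bt.feed c1 a.2.1 a.2.2.1 a.2.2.2 c5 a.1.1 a.1.2 :: mkPlan as l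
  | _ :: _, _ => []

theorem mkBurns_spec (B : ℕ) : ∀ l : List (Cp G), l.length = 4 * B →
    (((mkBurns l).flatMap Bt.cps : List (Cp G)) : Multiset (Cp G)) = l ∧
    planD (mkBurns l) = 1 ∧ planFed (mkBurns l) = 0 := by
  induction B with
  | zero =>
    intro l hl
    have : l = [] := List.eq_nil_of_length_eq_zero (by simpa using hl)
    subst this
    simp [mkBurns, planD, planFed]
  | succ B ih =>
    intro l hl
    match l, hl with
    | c1 :: c2 :: c4 :: c5 :: l, hl =>
      have hl' : l.length = 4 * B := by simp at hl; omega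
      obtain ⟨h1, h2, h3⟩ := ih l hl'
      refine ⟨?_, ?_, ?_⟩
      · simp only [mkBurns, List.flatMap_cons, Bt.cps]
        rw [← Multiset.coe_add, h1]
        rfl
      · simp only [mkBurns, planD, List.map_cons, List.prod_cons, Bt.D]
        simpa [planD] using h2
      · simp only [mkBurns, planFed, List.map_cons, List.sum_cons, Bt.fed]
        simpa [planFed] using h3
    | [], hl => simp at hl
    | [_], hl => simp at hl; omega
    | [_, _], hl => simp at hl; omega
    | [_, _, _], hl => simp at hl; omega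

theorem mkPlan_spec (B : ℕ) : ∀ (as : List ((G × G) × Cp G × Cp G × Cp G)) (l : List (Cp G)),
    l.length = 2 * as.length + 4 * B →
    (((mkPlan as l).flatMap Bt.cps : List (Cp G)) : Multiset (Cp G)) =
      ((as.flatMap fun a => [a.2.1, a.2.2.1, a.2.2.2] : List (Cp G)) : Multiset (Cp G)) + l ∧
    planD (mkPlan as l) = ((as.map Prod.fst).map fun q => q.1 * q.2).prod ∧
    planFed (mkPlan as l) = ((as.map Prod.fst).map fun q => ({q.1, q.2} : Multiset G)).sum := by
  intro as
  induction as with
  | nil =>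
    intro l hl
    obtain ⟨h1, h2, h3⟩ := mkBurns_spec B l (by simpa using hl)
    simp [mkPlan, h1, h2, h3]
  | cons a as ih =>
    intro l hl
    match l, hl with
    | c1 :: c5 :: l, hl =>
      obtain ⟨h1, h2, h3⟩ := ih l (by simp at hl; omega)
      refine ⟨?_, ?_, ?_⟩
      · simp only [mkPlan, List.flatMap_cons, Bt.cps]
        rw [← Multiset.coe_add, h1]
        rw [← Multiset.coe_add]
        have : ((c1 :: c5 :: l : List (Cp G)) : Multiset (Cp G)) = {c1, c5} + (l : Multiset _) := by
          rfl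
        rw [this]
        have : (([c1, a.2.1, a.2.2.1, a.2.2.2, c5] : List (Cp G)) : Multiset (Cp G)) =
            (([a.2.1, a.2.2.1, a.2.2.2] : List (Cp G)) : Multiset (Cp G)) + {c1, c5} := by
          have e1 : (([c1, a.2.1, a.2.2.1, a.2.2.2, c5] : List (Cp G)) : Multiset (Cp G)) =
            {c1} + {a.2.1} + {a.2.2.1} + {a.2.2.2} + {c5} := rfl
          have e2 : (([a.2.1, a.2.2.1, a.2.2.2] : List (Cp G)) : Multiset (Cp G)) =
            {a.2.1} + {a.2.2.1} + {a.2.2.2} := rfl
          have e3 : ({c1, c5} : Multiset (Cp G)) = {c1} + {c5} := rfl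
          rw [e1, e2, e3]; abel
        rw [this]; abel
      · simp only [mkPlan, planD, List.map_cons, List.prod_cons, Bt.D]
        rw [← h2]; rfl
      · simp only [mkPlan, planFed, List.map_cons, List.sum_cons, Bt.fed]
        rw [← h3]; rfl
    | [], hl => simp at hl; omega
    | [_], hl => simp at hl; omega

theorem mkPlan_head (f : Fn G) (a : (G × G) × Cp G × Cp G × Cp G)
    (as : List ((G × G) × Cp G × Cp G × Cp G)) (c1 c5 : Cp G) (l : List (Cp G)) :
    planHd f (mkPlan (a :: as) (c1 :: c5 :: l)) = c1 := rfl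

theorem mkBurns_Ad [Fintype G] [DecidableEq G] (K : ℕ) (γ : G) :
    ∀ (n : ℕ) (l : List (Cp G)), l.length ≤ n → ∀ b ∈ mkBurns l, b.Ad K γ := by
  intro n
  induction n with
  | zero =>
    intro l hl b hb
    have : l = [] := List.eq_nil_of_length_eq_zero (by omega)
    subst this; simp [mkBurns] at hb
  | succ n ih =>
    intro l hl b hb
    match l, hl, hb with
    | c1 :: c2 :: c4 :: c5 :: l, hl, hb =>
      simp only [mkBurns, List.mem_cons] at hb
      rcases hb with rfl | hb
      · trivial
      · exact ih l (by simp at hl; omega) b hb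
    | [], _, hb => simp [mkBurns] at hb
    | [_], _, hb => simp [mkBurns] at hb
    | [_, _], _, hb => simp [mkBurns] at hb
    | [_, _, _], _, hb => simp [mkBurns] at hb

theorem mkPlan_Ad [Fintype G] [DecidableEq G] (K : ℕ) (γ : G) :
    ∀ (as : List ((G × G) × Cp G × Cp G × Cp G)) (l : List (Cp G)),
    (∀ a ∈ as, FeedAd K γ a.2.1 a.2.2.1 a.2.2.2 a.1.1 a.1.2) →
    ∀ b ∈ mkPlan as l, b.Ad K γ := by
  intro as
  induction as with
  | nil => intro l _ b hb; exact mkBurns_Ad K γ _ l le_rfl b hb
  | cons a as ih =>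
    intro l h b hb
    match l, hb with
    | c1 :: c5 :: l, hb =>
      simp only [mkPlan, List.mem_cons] at hb
      rcases hb with rfl | hb
      · exact h a (by simp)
      · exact ih l (fun a' ha' => h a' (by simp [ha'])) b hb
    | [], hb => simp [mkPlan] at hb
    | [_], hb => simp [mkPlan] at hb

end mk

theorem nine {α : Type} {l : List α} (h : 9 ≤ l.length) : ∃ a b c d e f g i j rest,
    l = a :: b :: c :: d :: e :: f :: g :: i :: j :: rest := by
  rcases l with _ | ⟨a, _ | ⟨b, _ | ⟨c, _ | ⟨d, _ | ⟨e, _ | ⟨f, _ | ⟨g, _ | ⟨i, _ | ⟨j, l⟩⟩⟩⟩⟩⟩⟩⟩⟩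
  all_goals first
    | exact ⟨a, b, c, d, e, f, g, i, j, l, rfl⟩
    | (exfalso; simp only [List.length_cons, List.length_nil] at h; omega)

theorem stmt_P2 (hI : Stmt_INIT) (hL : Stmt_LET) (hA : Stmt_ASG) (hE : Stmt_EXEC) : Stmt_P2 := by
  intro K₁
  obtain ⟨KE, hE⟩ := hE K₁
  obtain ⟨KA, hA⟩ := hA KE
  obtain ⟨KI, hI⟩ := hI K₁ KE
  obtain ⟨KL, hL⟩ := hL K₁ KA
  set K := 4 * KE + KA + KI + KL + 4 with hK
  refine ⟨K, fun K₂ => ?_⟩
  set M := 100 * (KA + 1) * (K₂ + 1) * (KE + 1) with hM
  obtain ⟨KM, NL, hL⟩ := hL M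
  refine ⟨4 * KE + 4 * KI + 2 * KM + 4, 1000 * (KE + KA + KI + KM + KL + 1) * (K₂ + 1) + NL + K, ?_⟩
  intro G _ _ _ k γ R P Q hγ hN hrt hprs hP hav hgp hnb hQ hKQ Db U U' hDb hsm hev hcls
  set n := Fintype.card G with hn
  have hnpos : 0 < n := Fintype.card_pos
  have hbig : 1000 * (KE + KA + KI + KM + KL + 1) * (K₂ + 1) ≤ n := by omega
  -- Q is large
  have hQl : 1000 * (KE + KA + KI + KM + KL + 1) ≤ Q.card := by
    by_contra hc
    push Not at hc
    have h1 : K₂ * Q.card < (K₂ + 1) * (1000 * (KE + KA + KI + KM + KL + 1)) := by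
      calc K₂ * Q.card ≤ (K₂ + 1) * Q.card := Nat.mul_le_mul_right _ (by omega)
        _ < _ := Nat.mul_lt_mul_of_pos_left hc (by omega)
    have h2 : (K₂ + 1) * (1000 * (KE + KA + KI + KM + KL + 1)) =
      1000 * (KE + KA + KI + KM + KL + 1) * (K₂ + 1) := by ring
    omega
  -- extract nine couples
  obtain ⟨e, b1, b2, b4, b5, nx, cL, f1, f2, rest, hlist⟩ : ∃ e b1 b2 b4 b5 nx cL f1 f2 rest,
      Q.toList = e :: b1 :: b2 :: b4 :: b5 :: nx :: cL :: f1 :: f2 :: rest := by
    have hlen : 9 ≤ Q.toList.length := by rw [Finset.length_toList]; omega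
    exact nine hlen
  have hnd : (e :: b1 :: b2 :: b4 :: b5 :: nx :: cL :: f1 :: f2 :: rest).Nodup := by
    rw [← hlist]; exact Finset.nodup_toList Q
  have hmemQ : ∀ c, c ∈ (e :: b1 :: b2 :: b4 :: b5 :: nx :: cL :: f1 :: f2 :: rest) → c ∈ Q := by
    intro c hc; rw [← hlist] at hc; exact Finset.mem_toList.1 hc
  have hcard : Q.card = rest.length + 9 := by
    rw [← Finset.length_toList, hlist]; simp
  -- INIT
  obtain ⟨x, X, z1, z2, V, C, W, W', hx, hX, hW, hW', hWv, hMSi, hCi, hgood, hfin⟩ :=
    hI G k γ R P Q hγ (by omega) (le_trans (Nat.mul_le_mul_right _ (by omega)) hrt) hprs hav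
      (hgp.mono (by omega)) e b1 b2 b4 b5 nx cL (hmemQ _ (by simp)) (hmemQ _ (by simp))
      (hmemQ _ (by simp)) (hmemQ _ (by simp)) (hmemQ _ (by simp)) (hmemQ _ (by simp))
      (hmemQ _ (by simp)) (by
        refine hnd.sublist ?_
        exact List.Sublist.cons_cons _ (List.Sublist.cons_cons _ (List.Sublist.cons_cons _
          (List.Sublist.cons_cons _ (List.Sublist.cons_cons _ (List.Sublist.cons_cons _
            (List.nil_sublist _)))))))
      U U' (le_trans (Nat.mul_le_mul (by omega) (by omega)) hsm)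
  -- cardinalities of W, W'
  have hCc : Multiset.card C = 6 := by
    have := hMSi.card_C
    simpa [Cp.idx] using this
  have hVc : Multiset.card V = 4 := by
    have := hMSi.card_V
    simpa [Cp.idx] using this
  have hWc : W.card = 6 := by
    have : Multiset.card W.val = 6 := by rw [hWv]; simp [hVc]
    exact this
  have hW'c : W'.card = 6 := by
    have h := congrArg Multiset.card hCi
    rw [card_prs] at h
    simp [hCc] at h
    have : Multiset.card W'.val = W'.card := rfl
    omega
  -- LET
  have hKMsm : KM * (U' ∪ W').card ≤ n := by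
    have h1 : (U' ∪ W').card ≤ U'.card + 6 := (card_union_le _ _).trans (by omega)
    have h2 : KM * 12 ≤ n := by
      have : 1000 * KM ≤ 1000 * (KE + KA + KI + KM + KL + 1) * (K₂ + 1) := by
        calc 1000 * KM ≤ 1000 * (KE + KA + KI + KM + KL + 1) := by omega
          _ ≤ _ := Nat.le_mul_of_pos_right _ (by omega)
      omega
    have h3 : 2 * KM * U'.card ≤ n := le_trans (Nat.mul_le_mul (by omega) (by omega)) hsm
    have h4 : KM * (U' ∪ W').card ≤ KM * U'.card + KM * 6 := by
      calc KM * (U' ∪ W').card ≤ KM * (U'.card + 6) := Nat.mul_le_mul_left _ h1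
        _ = _ := by ring
    have h5 : 2 * KM * U'.card = 2 * (KM * U'.card) := by ring
    omega
  obtain ⟨fs, Lt, hLt, hpre, hfed, hprod, hmod, hMfs⟩ := hL G γ R P (U' ∪ W') (by omega) hγ
    (le_trans (Nat.mul_le_mul_right _ (by omega)) hrt) hprs hP
    (hav _ (by simp [covFams])) (fun c hc => ⟨(hnb c hc).1.mono (by omega),
      (hnb c hc).2.mono (by omega)⟩) hKMsm Db x X Q.card
    (fun d hd => (hDb d hd).mono (by omega))
    (le_trans (Nat.mul_le_mul (by omega) (by omega)) hsm) hev hx hX hcls
  -- number of feeds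
  have hfs1 : 100 * (KA + 1) * (KE + 1) * fs.length ≤ Q.card := by
    by_contra hc
    push Not at hc
    have h1 : K₂ * Q.card < M * fs.length := by
      calc K₂ * Q.card ≤ (K₂ + 1) * Q.card := Nat.mul_le_mul_right _ (by omega)
        _ < (K₂ + 1) * (100 * (KA + 1) * (KE + 1) * fs.length) :=
            Nat.mul_lt_mul_of_pos_left hc (by omega)
        _ = M * fs.length := by rw [hM]; ring
    omega
  have hfs2 : 100 * fs.length ≤ Q.card := by
    refine le_trans (Nat.mul_le_mul_right _ ?_) hfs1
    calc 100 = 100 * 1 * 1 := by norm_num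
      _ ≤ 100 * (KA + 1) * (KE + 1) := Nat.mul_le_mul (Nat.mul_le_mul_left _ (by omega)) (by omega)
  have hfs3 : 100 * (KA * fs.length) ≤ Q.card := by
    refine le_trans ?_ hfs1
    calc 100 * (KA * fs.length) = 100 * KA * 1 * fs.length := by ring
      _ ≤ 100 * (KA + 1) * (KE + 1) * fs.length :=
        Nat.mul_le_mul_right _ (Nat.mul_le_mul (by omega) (by omega))
  have hLc : 2 * Lt.card + Multiset.card Db + 2 = 2 * fs.length := by
    have h := congrArg Multiset.card hfed
    rw [Multiset.card_add, Multiset.card_add, card_prs] at h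
    have h' : ∀ l : List (G × G), Multiset.card (l.map fun q => ({q.1, q.2} : Multiset G)).sum =
        2 * l.length := by
      intro l
      induction l with
      | nil => simp
      | cons a l ih =>
        rw [List.map_cons, List.sum_cons, Multiset.card_add, ih, List.length_cons]
        simp only [Multiset.insert_eq_cons, Multiset.card_cons, Multiset.card_singleton]
        ring
    rw [h'] at h
    have e1 : Multiset.card Lt.val = Lt.card := rfl
    have e2 : Multiset.card ({x⁻¹ * γ, X⁻¹ * γ} : Multiset G) = 2 := by simp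
    omega
  -- ASG
  have hrest_nd : rest.Nodup := by
    refine hnd.sublist ?_
    iterate 9 refine List.Sublist.cons _ ?_
    exact List.Sublist.refl _
  have hsubQ : rest.toFinset ⊆ Q := by
    intro c hc
    exact hmemQ c (by simp [List.mem_toFinset.1 hc])
  obtain ⟨as, has, htn, has'⟩ := hA G k γ rest.toFinset hγ ((hgp.mono (by omega)).sub hsubQ) fs hpre
    (by
      rw [List.toFinset_card_of_nodup hrest_nd]
      have : KA * (fs.length + 1) = KA * fs.length + KA := by ring
      omega)
  have haslen : as.length = fs.length := by rw [← has]; simp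
  set T : List (Cp G) := as.flatMap fun a => [a.2.1, a.2.2.1, a.2.2.2] with hT
  have hTlen : T.length = 3 * fs.length := by
    rw [← haslen, hT]
    have : ∀ l : List ((G × G) × Cp G × Cp G × Cp G),
        (l.flatMap fun a => [a.2.1, a.2.2.1, a.2.2.2]).length = 3 * l.length := by
      intro l
      induction l with
      | nil => simp
      | cons a l ih => simp [ih]; ring
    exact this as
  have hTsub : (T : Multiset (Cp G)) ≤ (rest : Multiset (Cp G)) := by
    rw [Multiset.le_iff_subset (Multiset.coe_nodup.2 htn)]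
    intro c hc
    rw [Multiset.mem_coe] at hc ⊢
    rw [hT, List.mem_flatMap] at hc
    obtain ⟨a, ha, hc⟩ := hc
    obtain ⟨h1, h2, h3, _⟩ := has' a ha
    simp only [List.mem_toFinset] at h1 h2 h3
    simp only [List.mem_cons, List.not_mem_nil, or_false] at hc
    rcases hc with rfl | rfl | rfl <;> assumption
  obtain ⟨l₁, hl₁⟩ : ∃ l₁ : List (Cp G), (rest : Multiset (Cp G)) = T + l₁ := by
    refine ⟨((rest : Multiset (Cp G)) - T).toList, ?_⟩
    rw [Multiset.coe_toList, add_comm, tsub_add_cancel_of_le hTsub]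
  have hl₁len : rest.length = 3 * fs.length + l₁.length := by
    have := congrArg Multiset.card hl₁
    simpa [hTlen] using this
  obtain ⟨B, hB⟩ : ∃ B, (nx :: l₁).length = 2 * as.length + 4 * B := by
    refine ⟨(Q.card - 8 - 5 * fs.length) / 4, ?_⟩
    simp only [List.length_cons, haslen]
    have : fs.length % 4 = Q.card % 4 := hmod
    omega
  have hfspos : 0 < fs.length := by omega
  obtain ⟨hp1, hp2, hp3⟩ := mkPlan_spec B as (nx :: l₁) hB
  set f : Fn G := ⟨f1, f2, cL⟩ with hf
  set bs : List (Bt G) := Bt.burn b1 b2 b4 b5 :: mkPlan as (nx :: l₁) with hbs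
  have hhd : planHd f (mkPlan as (nx :: l₁)) = nx := by
    have : ∃ a as', as = a :: as' := by
      cases has0 : as with
      | nil => rw [has0] at haslen; simp at haslen; omega
      | cons a as' => exact ⟨a, as', rfl⟩
    obtain ⟨a, as', rfl⟩ := this
    match l₁, hB with
    | [], hB => simp at hB; omega
    | c5 :: l, _ => rfl
  -- all couples
  have hcps : ((planCps f bs : List (Cp G)) : Multiset (Cp G)) + {e} = Q.val := by
    have hQv : Q.val = ((e :: b1 :: b2 :: b4 :: b5 :: nx :: cL :: f1 :: f2 :: rest :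
        List (Cp G)) : Multiset (Cp G)) := by
      rw [← hlist, Finset.coe_toList]
    rw [hQv]
    have e1 : ((planCps f bs : List (Cp G)) : Multiset (Cp G)) =
        {b1} + {b2} + {b4} + {b5} +
        (((mkPlan as (nx :: l₁)).flatMap Bt.cps : List (Cp G)) : Multiset (Cp G)) +
        ({f1} + {f2} + {cL}) := by
      simp only [planCps, hbs, List.flatMap_cons, Bt.cps, hf, Fn.cps]
      rw [← Multiset.coe_add, ← Multiset.coe_add]
      rfl
    have e2 : ((e :: b1 :: b2 :: b4 :: b5 :: nx :: cL :: f1 :: f2 :: rest :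
        List (Cp G)) : Multiset (Cp G)) = {e} + {b1} + {b2} + {b4} + {b5} + {nx} + {cL} +
        {f1} + {f2} + (rest : Multiset (Cp G)) := by
      simp only [Multiset.singleton_add, ← Multiset.cons_coe]
      simp only [add_assoc, Multiset.singleton_add, Multiset.cons_add]
    have e3 : ((nx :: l₁ : List (Cp G)) : Multiset (Cp G)) = {nx} + (l₁ : Multiset (Cp G)) := rfl
    rw [e1, e2, hp1, hl₁, e3]
    abel
  have hplen : (planCps f bs).length + 1 = Q.card := by
    have := congrArg Multiset.card hcps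
    simpa using this
  have hpnd : (planCps f bs).Nodup := by
    rw [← Multiset.coe_nodup]
    have : (planCps f bs : Multiset (Cp G)) ≤ Q.val := by rw [← hcps]; exact Multiset.le_add_right _ _
    exact Multiset.nodup_of_le this Q.nodup
  have hpmem : ∀ c ∈ planCps f bs, c ∈ Q := by
    intro c hc
    have : (planCps f bs : Multiset (Cp G)) ≤ Q.val := by rw [← hcps]; exact Multiset.le_add_right _ _
    exact Multiset.mem_of_le this (Multiset.mem_coe.2 hc)
  have hpD : x * planD bs = X⁻¹ * γ := by
    rw [← hprod]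
    simp only [hbs, planD, List.map_cons, List.prod_cons, Bt.D, one_mul]
    have : (List.map Bt.D (mkPlan as (nx :: l₁))).prod = planD (mkPlan as (nx :: l₁)) := rfl
    rw [this, hp2, has]
  have hpF : planFed bs = Db + {x⁻¹ * γ, X⁻¹ * γ} + prs γ Lt.val := by
    rw [← hfed]
    simp only [hbs, planFed, List.map_cons, List.sum_cons, Bt.fed, zero_add]
    have : (List.map Bt.fed (mkPlan as (nx :: l₁))).sum = planFed (mkPlan as (nx :: l₁)) := rfl
    rw [this, hp3, has]
  have hKEn : KE * (2 * Q.card) + KE * (2 * Q.card) ≤ n := by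
    calc KE * (2 * Q.card) + KE * (2 * Q.card) = 4 * KE * Q.card := by ring
      _ ≤ K * Q.card := Nat.mul_le_mul_right _ (by omega)
      _ ≤ n := hKQ
  obtain ⟨W2, W2', hW2, hW2', hMSe⟩ := hE G k γ R P Q hγ (by omega)
    (le_trans (Nat.mul_le_mul_right _ (by omega)) hrt) hprs hav (hgp.mono (by omega)) f bs x z1 z2
    (U ∪ W) (U' ∪ W' ∪ Lt) hpnd hpmem (by
      intro b hb
      rw [hbs, List.mem_cons] at hb
      rcases hb with rfl | hb
      · trivial
      · exact mkPlan_Ad KE γ as _ (fun a ha => (has' a ha).2.2.2) b hb)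
    (by rw [hpD]; exact hfin)
    (by
      have h1 : (U ∪ W).card ≤ U.card + 6 := (card_union_le _ _).trans (by omega)
      have h2 : (U' ∪ W' ∪ Lt).card ≤ U'.card + 6 + Lt.card :=
        (card_union_le _ _).trans (Nat.add_le_add_right ((card_union_le _ _).trans (by omega)) _)
      have h3 : 4 * KE * (U.card + U'.card) ≤ n :=
        le_trans (Nat.mul_le_mul (by omega) (by omega)) hsm
      have h4 : KE * ((U ∪ W).card + (U' ∪ W' ∪ Lt).card + (planCps f bs).length) ≤
          KE * (U.card + U'.card) + KE * (2 * Q.card) := by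
        rw [← Nat.mul_add]
        exact Nat.mul_le_mul_left _ (by omega)
      have h5 : 4 * KE * (U.card + U'.card) = 4 * (KE * (U.card + U'.card)) := by ring
      omega)
    (by
      show (Bt.burn b1 b2 b4 b5).Good γ (planHd f (mkPlan as (nx :: l₁))) x z1 z2
      rw [hhd]; exact hgood)
  have hdV : Disjoint W W2 := by
    rw [Finset.disjoint_left]
    intro a ha ha'
    exact (Finset.mem_sdiff.1 (hW2 ha')).2 (by simp [ha])
  have hdC1 : Disjoint W' Lt := by
    rw [Finset.disjoint_left]
    intro a ha ha'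
    exact (Finset.mem_sdiff.1 (hLt ha')).2 (by simp [ha])
  have hdC2 : Disjoint (W'.disjUnion Lt hdC1) W2' := by
    rw [Finset.disjoint_left]
    intro a ha ha'
    refine (Finset.mem_sdiff.1 (hW2' ha')).2 ?_
    rcases Finset.mem_disjUnion.1 ha with h | h <;> simp [h]
  refine ⟨W.disjUnion W2 hdV, (W'.disjUnion Lt hdC1).disjUnion W2' hdC2, ?_, ?_, ?_⟩
  · intro a ha
    rcases Finset.mem_disjUnion.1 ha with h | h
    · exact hW h
    · have := Finset.mem_sdiff.1 (hW2 h)
      exact Finset.mem_sdiff.2 ⟨this.1, fun h' => this.2 (by simp [h'])⟩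
  · intro a ha
    rcases Finset.mem_disjUnion.1 ha with h | h
    · rcases Finset.mem_disjUnion.1 h with h | h
      · exact hW' h
      · have := Finset.mem_sdiff.1 (hLt h)
        exact Finset.mem_sdiff.2 ⟨this.1, fun h' => this.2 (by simp [h'])⟩
    · have := Finset.mem_sdiff.1 (hW2' h)
      exact Finset.mem_sdiff.2 ⟨this.1, fun h' => this.2 (by simp [h'])⟩
  · have hsum := hMSi.add hMSe
    have hXe : γ * (x * planD bs)⁻¹ = X := by
      rw [hpD, mul_inv_rev, inv_inv, ← mul_assoc]
      have : γ⁻¹ = γ := inv_eq_of_mul_eq_one_left hγ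
      rw [this, hγ, one_mul]
    have hhd2 : planHd f bs = b1 := rfl
    rw [hXe, hhd2, hpF] at hsum
    have e1 : e.idx γ + ((planCps f bs).map (Cp.idx γ)).sum = Q.val.bind (Cp.idx γ) := by
      rw [← hcps, Multiset.add_bind, Multiset.singleton_bind, add_comm]
      congr 1
    have e2 : (W.disjUnion W2 hdV).val = V + {b1.t * (x * z1 * z2)⁻¹, cL.r * X} + W2.val := by
      show W.val + W2.val = _
      rw [hWv]
    have e3 : ((W'.disjUnion Lt hdC1).disjUnion W2' hdC2).val = W'.val + Lt.val + W2'.val := rfl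
    rw [← e1, e2, e3]
    have e4 : V + {b1.t * (x * z1 * z2)⁻¹, cL.r * X} + W2.val =
        V + (b1.t * (x * z1 * z2)⁻¹ ::ₘ f.c5.r * X ::ₘ W2.val) := by
      rw [add_assoc]
      simp only [Multiset.insert_eq_cons, Multiset.cons_add, Multiset.singleton_add, hf]
    have e5 : Db + prs γ (W'.val + Lt.val + W2'.val) =
        C + ({x * z1 * z2, z2⁻¹ * γ, γ * z1⁻¹} + {X} +
          (Db + {x⁻¹ * γ, X⁻¹ * γ} + prs γ Lt.val) + prs γ W2'.val) := by
      rw [prs_add, prs_add, ← hCi]; abel
    rw [e4, e5]
    exact hsum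

end Pool.OM
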