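import Pool.Agent.Work.MP_8d2cba_co_h18.Interface

/-! MP_8d2cba_co: basic API for `MS`, `Gad`, `Fresh`. -/

set_option autoImplicit false
set_option linter.unusedSectionVars false

namespace Pool.OM

open Finset

section ms
variable {G : Type} [Group G]

theorem MS.add {J J' : Multiset (Idx G)} {V V' C C' : Multiset G} (h : MS J V C)
    (h' : MS J' V' C') : MS (J + J') (V + V') (C + C') := by
  induction h with
  | zero => simpa using h'
  | cons s t p _ ih =>
    rw [Multiset.cons_add, add_assoc, add_assoc]
    exact MS.cons s t p ih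

theorem MS.single (s t : G) (p : List G) :
    MS {(s, t, p.length + 1)} (p : Multiset G) (pcols s p t) := by
  have := MS.cons s t p MS.zero
  simpa using this

theorem MS.one (s t : G) : MS {(s, t, 1)} 0 {s⁻¹ * t} := by
  have := MS.single s t []
  simpa [pcols] using this

theorem MS.three (s t x y : G) :
    MS {(s, t, 3)} {x, y} {s⁻¹ * x, x⁻¹ * y, y⁻¹ * t} := by
  have := MS.single s t [x, y]
  exact this

theorem card_pcols (s t : G) (p : List G) : Multiset.card (pcols s p t) = p.length + 1 := by
  induction p generalizing s with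
  | nil => simp [pcols]
  | cons x p ih => simp [pcols, ih]

theorem MS.card_C {J : Multiset (Idx G)} {V C : Multiset G} (h : MS J V C) :
    Multiset.card C = (J.map fun i => i.2.2).sum := by
  induction h with
  | zero => simp
  | cons s t p _ ih => simp [ih, card_pcols]

theorem MS.card_V {J : Multiset (Idx G)} {V C : Multiset G} (h : MS J V C) :
    Multiset.card V = (J.map fun i => i.2.2 - 1).sum := by
  induction h with
  | zero => simp
  | cons s t p _ ih => simp [ih]

theorem MS.card_add {J : Multiset (Idx G)} {V C : Multiset G} (h : MS J V C) :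
    Multiset.card V + Multiset.card J = Multiset.card C := by
  induction h with
  | zero => simp
  | cons s t p _ ih => simp [card_pcols, ← ih]; ring

theorem MS.pos {J : Multiset (Idx G)} {V C : Multiset G} (h : MS J V C) :
    ∀ i ∈ J, 1 ≤ i.2.2 := by
  induction h with
  | zero => simp
  | cons s t p _ ih =>
    intro i hi
    rcases Multiset.mem_cons.1 hi with rfl | hi
    · simp
    · exact ih i hi

theorem prod_pcols_of (s t : G) (p : List G) :
    ((pcols s p t).map (fun c => Abelianization.of c)).prod = Abelianization.of (s⁻¹ * t) := by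
  induction p generalizing s with
  | nil => simp [pcols]
  | cons x p ih =>
    simp only [pcols, Multiset.map_cons, Multiset.prod_cons, ih]
    rw [← map_mul]; congr 1; group

theorem MS.cls {J : Multiset (Idx G)} {V C : Multiset G} (h : MS J V C) :
    (C.map (fun c => Abelianization.of c)).prod =
      (J.map fun i => Abelianization.of (i.1⁻¹ * i.2.1)).prod := by
  induction h with
  | zero => simp
  | cons s t p _ ih => simp [ih, prod_pcols_of]

/-- inversion -/
theorem MS.cons_inv {i : Idx G} {J : Multiset (Idx G)} {V C : Multiset G}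
    (h : MS (i ::ₘ J) V C) : ∃ (p : List G) (V' C' : Multiset G), i.2.2 = p.length + 1 ∧
      MS J V' C' ∧ V = (p : Multiset G) + V' ∧ C = pcols i.1 p i.2.1 + C' := by
  classical
  generalize hJ : i ::ₘ J = J₀ at h
  induction h generalizing J with
  | zero => exact absurd hJ (Multiset.cons_ne_zero)
  | @cons s t p J₁ V₁ C₁ h₁ ih =>
    by_cases hi : i = (s, t, p.length + 1)
    · subst hi
      have : J = J₁ := (Multiset.cons_inj_right _).1 hJ
      subst this
      exact ⟨p, V₁, C₁, rfl, h₁, rfl, rfl⟩
    · rcases (Multiset.cons_eq_cons.1 hJ) with ⟨h1, _⟩ | ⟨_, cs, h1, h2⟩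
      · exact absurd h1 hi
      · obtain ⟨q, V', C', e, hm, hV, hC⟩ := ih h2.symm
        refine ⟨q, (p : Multiset G) + V', pcols s p t + C', e, ?_, ?_, ?_⟩
        · rw [h1]; exact MS.cons s t p hm
        · rw [hV]; abel
        · rw [hC]; abel

theorem MS.split {J₁ J₂ : Multiset (Idx G)} {V C : Multiset G} (h : MS (J₁ + J₂) V C) :
    ∃ V₁ V₂ C₁ C₂ : Multiset G, MS J₁ V₁ C₁ ∧ MS J₂ V₂ C₂ ∧ V = V₁ + V₂ ∧ C = C₁ + C₂ := by
  induction J₁ using Multiset.induction_on generalizing V C with
  | empty => exact ⟨0, V, 0, C, MS.zero, by simpa using h, by simp, by simp⟩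
  | cons i J₁ ih =>
    rw [Multiset.cons_add] at h
    obtain ⟨p, V', C', e, hm, rfl, rfl⟩ := h.cons_inv
    obtain ⟨V₁, V₂, C₁, C₂, h1, h2, rfl, rfl⟩ := ih hm
    refine ⟨(p : Multiset G) + V₁, V₂, pcols i.1 p i.2.1 + C₁, C₂, ?_, h2, by abel, by abel⟩
    have := MS.cons i.1 i.2.1 p h1
    obtain ⟨s, t, l⟩ := i
    simp only at e this ⊢
    rw [e]; exact this

theorem MS.sum {ι : Type} (s : Multiset ι) (J : ι → Multiset (Idx G)) (V C : ι → Multiset G)
    (h : ∀ i ∈ s, MS (J i) (V i) (C i)) :
    MS (s.map J).sum (s.map V).sum (s.map C).sum := by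
  classical
  induction s using Multiset.induction_on with
  | empty => simpa using MS.zero
  | cons a s ih =>
    simp only [Multiset.map_cons, Multiset.sum_cons]
    exact (h a (Multiset.mem_cons_self _ _)).add
      (ih fun i hi => h i (Multiset.mem_cons_of_mem hi))

end ms

section prs
variable {G : Type} [Group G]

@[simp] theorem prs_zero (γ : G) : prs γ 0 = 0 := by simp [prs]
@[simp] theorem prs_add (γ : G) (P Q : Multiset G) : prs γ (P + Q) = prs γ P + prs γ Q := by
  simp [prs, Multiset.add_bind]
@[simp] theorem prs_cons (γ a : G) (P : Multiset G) : prs γ (a ::ₘ P) = pr γ a + prs γ P := by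
  simp [prs]
@[simp] theorem card_pr (γ a : G) : Multiset.card (pr γ a) = 2 := by simp [pr]
theorem card_prs (γ : G) (P : Multiset G) : Multiset.card (prs γ P) = 2 * Multiset.card P := by
  induction P using Multiset.induction_on with
  | empty => simp
  | cons a P ih => simp [ih]; ring

end prs

section gad
variable {G : Type} [Group G]

@[simp] theorem Gad.add_idx (D E : Gad G) : (D.add E).idx = D.idx + E.idx := by
  simp [Gad.add, Gad.idx]
@[simp] theorem Gad.add_V (D E : Gad G) : (D.add E).V = D.V + E.V := rfl
@[simp] theorem Gad.add_C (D E : Gad G) : (D.add E).C = D.C + E.C := rfl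
@[simp] theorem Gad.add_I (D E : Gad G) : (D.add E).I = D.I + E.I := rfl
theorem Gad.add_verts (k : ℕ) (D E : Gad G) : (D.add E).verts k = D.verts k + E.verts k := by
  simp [Gad.add, Gad.verts, Multiset.add_bind]; abel
theorem Gad.add_cols (k : ℕ) (D E : Gad G) : (D.add E).cols k = D.cols k + E.cols k := by
  simp [Gad.add, Gad.cols, Multiset.add_bind]; abel
theorem Gad.add_size (D E : Gad G) : (D.add E).size = D.size + E.size := by
  simp [Gad.add, Gad.size]; ring

theorem card_jl_le (k : ℕ) (i : SI G) : Multiset.card (jl k i) ≤ 3 := by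
  unfold jl; split_ifs <;> simp
theorem card_tl_le (k : ℕ) (i : SI G) : Multiset.card (tl k i) ≤ 2 := by
  unfold tl; split_ifs <;> simp
theorem mem_jl_self (k : ℕ) (i : SI G) : i.1 ∈ jl k i := by
  unfold jl; split_ifs <;> simp

theorem Gad.card_verts_le (k : ℕ) (D : Gad G) : Multiset.card (D.verts k) ≤ 3 * D.size := by
  have : Multiset.card (D.I.bind (jl k)) ≤ 3 * Multiset.card D.I := by
    rw [Multiset.card_bind]
    calc ((D.I.map (Multiset.card ∘ jl k)).sum) ≤ (D.I.map (fun _ => 3)).sum :=
          Multiset.sum_map_le_sum_map _ _ (fun i _ => card_jl_le k i)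
      _ = 3 * Multiset.card D.I := by simp [mul_comm]
  simp only [Gad.verts, Gad.size, Multiset.card_add]; omega

theorem Gad.card_cols_le (k : ℕ) (D : Gad G) : Multiset.card (D.cols k) ≤ 2 * D.size := by
  have : Multiset.card (D.I.bind (tl k)) ≤ 2 * Multiset.card D.I := by
    rw [Multiset.card_bind]
    calc ((D.I.map (Multiset.card ∘ tl k)).sum) ≤ (D.I.map (fun _ => 2)).sum :=
          Multiset.sum_map_le_sum_map _ _ (fun i _ => card_tl_le k i)
      _ = 2 * Multiset.card D.I := by simp [mul_comm]
  simp only [Gad.cols, Gad.size, Multiset.card_add]; omega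

variable [DecidableEq G]

/-- set of vertices / colours of a gadget as finsets -/
def Gad.vf (k : ℕ) (D : Gad G) : Finset G := (D.verts k).toFinset
def Gad.cf (k : ℕ) (D : Gad G) : Finset G := (D.cols k).toFinset

theorem Gad.card_vf_le (k : ℕ) (D : Gad G) : (D.vf k).card ≤ 3 * D.size :=
  (Multiset.toFinset_card_le _).trans (D.card_verts_le k)
theorem Gad.card_cf_le (k : ℕ) (D : Gad G) : (D.cf k).card ≤ 2 * D.size :=
  (Multiset.toFinset_card_le _).trans (D.card_cols_le k)

theorem Fresh.mono {k : ℕ} {FV FC FV' FC' : Finset G} {D : Gad G} (h : Fresh k FV FC D)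
    (hV : FV' ⊆ FV) (hC : FC' ⊆ FC) : Fresh k FV' FC' D :=
  ⟨h.three, h.vnd, fun x hx h' => h.vfr x hx (hV h'), h.cnd,
    fun c hc h' => h.cfr c hc (hC h'), h.cne⟩

theorem Fresh.zero (k : ℕ) (FV FC : Finset G) : Fresh k FV FC (Gad.zero : Gad G) := by
  constructor <;> simp [Gad.zero, Gad.verts, Gad.cols]

/-- gluing two gadgets, the second chosen after the first -/
theorem Fresh.add {k : ℕ} {FV FC : Finset G} {D E : Gad G} (hD : Fresh k FV FC D)
    (hE : Fresh k (FV ∪ D.vf k) (FC ∪ D.cf k) E) : Fresh k FV FC (D.add E) where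
  three hk i hi := by
    rcases Multiset.mem_add.1 hi with h | h
    · exact hD.three hk i h
    · exact hE.three hk i h
  vnd := by
    rw [Gad.add_verts, Multiset.nodup_add]
    refine ⟨hD.vnd, hE.vnd, ?_⟩
    rw [Multiset.disjoint_left]
    intro x hx hx'
    exact hE.vfr x hx' (by simp [Gad.vf, hx])
  vfr x hx := by
    rw [Gad.add_verts] at hx
    rcases Multiset.mem_add.1 hx with h | h
    · exact hD.vfr x h
    · intro hf; exact hE.vfr x h (by simp [hf])
  cnd := by
    rw [Gad.add_cols, Multiset.nodup_add]
    refine ⟨hD.cnd, hE.cnd, ?_⟩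
    rw [Multiset.disjoint_left]
    intro x hx hx'
    exact hE.cfr x hx' (by simp [Gad.cf, hx])
  cfr x hx := by
    rw [Gad.add_cols] at hx
    rcases Multiset.mem_add.1 hx with h | h
    · exact hD.cfr x h
    · intro hf; exact hE.cfr x h (by simp [hf])
  cne x hx := by
    rw [Gad.add_cols] at hx
    rcases Multiset.mem_add.1 hx with h | h
    · exact hD.cne x h
    · exact hE.cne x h

end gad

section roots
variable {G : Type} [Group G] [Fintype G] [DecidableEq G]

theorem sum_rt : ∑ c : G, rt c = Fintype.card G := by
  have := Finset.card_eq_sum_card_fiberwise (s := (univ : Finset G)) (t := univ)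
    (f := fun x : G => x * x) (fun _ _ => mem_univ _)
  simpa [rt] using this.symm

/-- the elements with many square roots are few -/
theorem card_badrt (K : ℕ) :
    (univ.filter fun c : G => Fintype.card G < K * rt c).card ≤ K := by
  by_contra hlt
  push Not at hlt
  have hn : 0 < Fintype.card G := Fintype.card_pos
  have h1 : (univ.filter fun c : G => Fintype.card G < K * rt c).card * Fintype.card G ≤
      K * Fintype.card G := by
    calc (univ.filter fun c : G => Fintype.card G < K * rt c).card * Fintype.card G
        = ∑ c ∈ univ.filter (fun c : G => Fintype.card G < K * rt c), Fintype.card G := by simp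
      _ ≤ ∑ c ∈ univ.filter (fun c : G => Fintype.card G < K * rt c), K * rt c :=
          Finset.sum_le_sum fun c hc => (Finset.mem_filter.1 hc).2.le
      _ ≤ ∑ c : G, K * rt c := Finset.sum_le_sum_of_subset (Finset.filter_subset _ _)
      _ = K * Fintype.card G := by rw [← Finset.mul_sum, sum_rt]
  have := Nat.le_of_mul_le_mul_right h1 hn
  omega

theorem rt_conj (x c : G) : rt (x * c * x⁻¹) = rt c := by
  unfold rt
  apply Finset.card_bij (fun y _ => x⁻¹ * y * x)
  · intro y hy
    simp only [Finset.mem_filter, Finset.mem_univ, true_and] at hy ⊢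
    calc x⁻¹ * y * x * (x⁻¹ * y * x) = x⁻¹ * (y * y) * x := by group
      _ = c := by rw [hy]; group
  · intro a _ b _ h
    simpa using h
  · intro b hb
    simp only [Finset.mem_filter, Finset.mem_univ, true_and] at hb
    refine ⟨x * b * x⁻¹, ?_, by group⟩
    simp only [Finset.mem_filter, Finset.mem_univ, true_and]
    calc x * b * x⁻¹ * (x * b * x⁻¹) = x * (b * b) * x⁻¹ := by group
      _ = _ := by rw [hb]

theorem rt_inv (c : G) : rt c⁻¹ = rt c := by
  unfold rt
  apply Finset.card_bij (fun y _ => y⁻¹)
  · intro y hy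
    simp only [Finset.mem_filter, Finset.mem_univ, true_and] at hy ⊢
    rw [← mul_inv_rev, hy, inv_inv]
  · intro a _ b _ h
    simpa using h
  · intro b hb
    simp only [Finset.mem_filter, Finset.mem_univ, true_and] at hb
    refine ⟨b⁻¹, ?_, by simp⟩
    simp only [Finset.mem_filter, Finset.mem_univ, true_and]
    rw [← mul_inv_rev, hb]

theorem sum_cj (b : G) : ∑ a : G, cj a b = Fintype.card G := by
  have := Finset.card_eq_sum_card_fiberwise (s := (univ : Finset G)) (t := univ)
    (f := fun x : G => x⁻¹ * b * x) (fun _ _ => mem_univ _)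
  rw [Finset.card_univ] at this
  rw [this]
  refine Finset.sum_congr rfl fun a _ => ?_
  unfold cj
  congr 1
  ext x
  simp only [Finset.mem_filter, Finset.mem_univ, true_and]
  constructor
  · intro h; rw [← h]; group
  · intro h; rw [← h]; group

theorem sum_cj' (a : G) : ∑ b : G, cj a b = Fintype.card G := by
  have := Finset.card_eq_sum_card_fiberwise (s := (univ : Finset G)) (t := univ)
    (f := fun x : G => x * a * x⁻¹) (fun _ _ => mem_univ _)
  simpa [cj] using this.symm

theorem card_badcj (K : ℕ) (b : G) :
    (univ.filter fun a : G => Fintype.card G < K * cj a b).card ≤ K := by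
  by_contra hlt
  push Not at hlt
  have hn : 0 < Fintype.card G := Fintype.card_pos
  have h1 : (univ.filter fun a : G => Fintype.card G < K * cj a b).card * Fintype.card G ≤
      K * Fintype.card G := by
    calc (univ.filter fun a : G => Fintype.card G < K * cj a b).card * Fintype.card G
        = ∑ a ∈ univ.filter (fun a : G => Fintype.card G < K * cj a b), Fintype.card G := by simp
      _ ≤ ∑ a ∈ univ.filter (fun a : G => Fintype.card G < K * cj a b), K * cj a b :=
          Finset.sum_le_sum fun c hc => (Finset.mem_filter.1 hc).2.le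
      _ ≤ ∑ a : G, K * cj a b := Finset.sum_le_sum_of_subset (Finset.filter_subset _ _)
      _ = K * Fintype.card G := by rw [← Finset.mul_sum, sum_cj]
  have := Nat.le_of_mul_le_mul_right h1 hn
  omega

theorem card_badcj' (K : ℕ) (a : G) :
    (univ.filter fun b : G => Fintype.card G < K * cj a b).card ≤ K := by
  by_contra hlt
  push Not at hlt
  have hn : 0 < Fintype.card G := Fintype.card_pos
  have h1 : (univ.filter fun b : G => Fintype.card G < K * cj a b).card * Fintype.card G ≤
      K * Fintype.card G := by
    calc (univ.filter fun b : G => Fintype.card G < K * cj a b).card * Fintype.card G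
        = ∑ b ∈ univ.filter (fun b : G => Fintype.card G < K * cj a b), Fintype.card G := by simp
      _ ≤ ∑ b ∈ univ.filter (fun b : G => Fintype.card G < K * cj a b), K * cj a b :=
          Finset.sum_le_sum fun c hc => (Finset.mem_filter.1 hc).2.le
      _ ≤ ∑ b : G, K * cj a b := Finset.sum_le_sum_of_subset (Finset.filter_subset _ _)
      _ = K * Fintype.card G := by rw [← Finset.mul_sum, sum_cj']
  have := Nat.le_of_mul_le_mul_right h1 hn
  omega

end roots

end Pool.OM
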