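import Pool.Agent.Work.MP_8d2cba_co_h18.Walk

/-! MP_8d2cba_co: exact statements of the blocks of stage 2 (couples, walker, covering of the
leftovers). See BLUEPRINT2.md. -/

set_option autoImplicit false

namespace Pool.OM

open Finset

/-- FAM: the families of `covFams` satisfy the hypotheses of `Stmt_RES`. -/
def Stmt_FAM : Prop := ∀ (G : Type) [Group G] [Fintype G] [DecidableEq G] (γ : G), γ * γ = 1 →
  ∀ F ∈ covFams γ, letI := F.fΩ; letI := F.fP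
    Fintype.card F.P ≤ Fintype.card G ^ 23 ∧
    (∀ π ω, (F.pw π ω).length ≤ 20 ∧ (F.vw π ω).length ≤ 20) ∧
    (∀ π c, Fintype.card G * (univ.filter fun ω => c ∈ F.pw π ω).card ≤
      F.Lp * Fintype.card F.Ω) ∧
    (∀ π v, Fintype.card G * (univ.filter fun ω => v ∈ F.vw π ω).card ≤
      F.Lv * Fintype.card F.Ω) ∧ F.Lp ≤ 20 ∧ F.Lv ≤ 20

/-- CPL: choice of the couples with given sources. -/
def Stmt_CPL : Prop := ∀ K : ℕ, ∃ K' : ℕ, ∀ (G : Type) [Group G] [Fintype G] [DecidableEq G]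
  (k : ℕ) (γ : G) (FV FC SQ : Finset G), 3 ≤ k → k ∣ Fintype.card G - 1 → γ * γ = 1 →
  K' * rt γ ≤ Fintype.card G → Disjoint SQ FV →
  100 * (FV.card + FC.card) ≤ Fintype.card G → K' * (SQ.card + 1) ≤ Fintype.card G →
  ∃ Q : Finset (Cp G), Q.image Cp.s = SQ ∧ GenPos K k γ Q ∧ Fresh k FV FC (cgad γ Q)

/-- MSF: what a feed or burn batch does. -/
def Stmt_MSB : Prop := ∀ (G : Type) [Group G] (γ : G), γ * γ = 1 →
  ∀ (b : Bt G) (nx : Cp G) (α z1 z2 : G) (ω : Fin 4 → G), ∃ V C : Multiset G,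
    ((b.vws γ nx α z1 z2 ω : List G) : Multiset G) = V + {nx.t * (α * b.D * ω 2 * ω 3)⁻¹} ∧
    MS ((b.cps.map (Cp.idx γ)).sum) ((b.hd.t * (α * z1 * z2)⁻¹) ::ₘ V) C ∧
    C + {α * b.D * ω 2 * ω 3, (ω 3)⁻¹ * γ, γ * (ω 2)⁻¹} =
      {α * z1 * z2, z2⁻¹ * γ, γ * z1⁻¹} + b.fed +
        prs γ ((b.pws γ nx α z1 z2 ω : List G) : Multiset G)

/-- MSN: what the final batch does. -/
def Stmt_MSN : Prop := ∀ (G : Type) [Group G] (γ : G), γ * γ = 1 →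
  ∀ (f : Fn G) (α z1 z2 : G) (ω : Fin 2 → G),
    MS ((f.cps.map (Cp.idx γ)).sum) ((f.c1.t * (α * z1 * z2)⁻¹) ::ₘ (f.c5.r * (γ * α⁻¹)) ::ₘ
      ((f.vws γ α z1 z2 ω : List G) : Multiset G))
      ({α * z1 * z2, z2⁻¹ * γ, γ * z1⁻¹} + {γ * α⁻¹} +
        prs γ ((f.pws γ α z1 z2 ω : List G) : Multiset G))

/-- STB: for a feed or burn batch with good static data, few `(z1, z2)` are not good. -/
def Stmt_STB : Prop := ∀ K : ℕ, ∃ K' : ℕ, ∀ (G : Type) [Group G] [Fintype G] [DecidableEq G]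
  (k : ℕ) (γ : G) (Q : Finset (Cp G)), γ * γ = 1 → K' ≤ Fintype.card G →
  K' * rt γ ≤ Fintype.card G → GenPos K' k γ Q →
  ∀ (b : Bt G) (nx : Cp G), b.Ad K' γ → (b.cps ++ [nx]).Nodup → (∀ c ∈ b.cps ++ [nx], c ∈ Q) →
  ∀ α : G, ∀ S : Finset (G × G), (∀ z ∈ S, ¬ b.Good γ nx α z.1 z.2) →
    K * S.card ≤ Fintype.card G ^ 2

/-- STN: the same for the final batch. -/
def Stmt_STN : Prop := ∀ K : ℕ, ∃ K' : ℕ, ∀ (G : Type) [Group G] [Fintype G] [DecidableEq G]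
  (k : ℕ) (γ : G) (Q : Finset (Cp G)), γ * γ = 1 → K' ≤ Fintype.card G →
  K' * rt γ ≤ Fintype.card G → GenPos K' k γ Q →
  ∀ (f : Fn G) (α : G), FinAd K' γ f.c5 α → f.cps.Nodup → (∀ c ∈ f.cps, c ∈ Q) →
  ∀ S : Finset (G × G), (∀ z ∈ S, ¬ f.Good γ α z.1 z.2) → K * S.card ≤ Fintype.card G ^ 2

/-- EXEC: execution of a plan. -/
def Stmt_EXEC : Prop := ∀ K₁ : ℕ, ∃ K : ℕ, ∀ (G : Type) [Group G] [Fintype G] [DecidableEq G]
  (k : ℕ) (γ : G) (R P : Finset G) (Q : Finset (Cp G)), γ * γ = 1 → K ≤ Fintype.card G →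
  K * rt γ ≤ Fintype.card G → (prs γ P.val).Nodup → (∀ F ∈ covFams γ, Avail γ K₁ R P F) →
  GenPos K k γ Q →
  ∀ (f : Fn G) (bs : List (Bt G)) (α z1 z2 : G) (U U' : Finset G),
  (planCps f bs).Nodup → (∀ c ∈ planCps f bs, c ∈ Q) → (∀ b ∈ bs, b.Ad K γ) →
  FinAd K γ f.c5 (α * planD bs) →
  K * (U.card + U'.card + (planCps f bs).length) ≤ Fintype.card G →
  planGood γ f α z1 z2 bs →
  ∃ W W' : Finset G, W ⊆ R \ U ∧ W' ⊆ P \ U' ∧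
    MS (((planCps f bs).map (Cp.idx γ)).sum)
      (((planHd f bs).t * (α * z1 * z2)⁻¹) ::ₘ (f.c5.r * (γ * (α * planD bs)⁻¹)) ::ₘ W.val)
      ({α * z1 * z2, z2⁻¹ * γ, γ * z1⁻¹} + {γ * (α * planD bs)⁻¹} + planFed bs +
        prs γ W'.val)

/-- INIT: start of the walk. `b` is the first batch (a burn), `nx` the head of the second batch,
`cL` the last couple of the plan. -/
def Stmt_INIT : Prop := ∀ K₁ K : ℕ, ∃ K' : ℕ, ∀ (G : Type) [Group G] [Fintype G]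
  [DecidableEq G] (k : ℕ) (γ : G) (R P : Finset G) (Q : Finset (Cp G)), γ * γ = 1 →
  K' ≤ Fintype.card G → K' * rt γ ≤ Fintype.card G → (prs γ P.val).Nodup →
  (∀ F ∈ covFams γ, Avail γ K₁ R P F) → GenPos K' k γ Q →
  ∀ (e c1 c2 c4 c5 nx cL : Cp G), e ∈ Q → c1 ∈ Q → c2 ∈ Q → c4 ∈ Q → c5 ∈ Q → nx ∈ Q →
  cL ∈ Q → [e, c1, c2, c4, c5, nx].Nodup →
  ∀ U U' : Finset G, K' * (U.card + U'.card) ≤ Fintype.card G →
  ∃ (x X z1 z2 : G) (V C : Multiset G) (W W' : Finset G), x ∈ P ∧ X ∈ P ∧ W ⊆ R \ U ∧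
    W' ⊆ P \ U' ∧ W.val = V + {c1.t * (x * z1 * z2)⁻¹, cL.r * X} ∧ MS (e.idx γ) V C ∧
    C + {x * z1 * z2, z2⁻¹ * γ, γ * z1⁻¹} + {x⁻¹ * γ, X⁻¹ * γ} + {X} = prs γ W'.val ∧
    (Bt.burn c1 c2 c4 c5).Good γ nx x z1 z2 ∧ FinAd K γ cL (X⁻¹ * γ)

/-- LET: choice of the letters. -/
def Stmt_LET : Prop := ∀ K₁ K : ℕ, ∃ K' : ℕ, ∀ M : ℕ, ∃ K'' N : ℕ, ∀ (G : Type) [Group G] [Fintype G]
  [DecidableEq G] (γ : G) (R P U : Finset G), N ≤ Fintype.card G → γ * γ = 1 →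
  K' * rt γ ≤ Fintype.card G → (prs γ P.val).Nodup → Fintype.card G ≤ K₁ * P.card →
  Avail γ K₁ R P (Walk.letSys.fam γ 3 1) →
  (∀ c ∈ P, NBad K' γ c ∧ NBad K' γ (c⁻¹ * γ)) → K'' * U.card ≤ Fintype.card G →
  ∀ (Db : Multiset G) (x X : G) (r : ℕ), (∀ d ∈ Db, NBad K' γ d) →
  K'' * Multiset.card Db ≤ Fintype.card G → Even (Multiset.card Db) → x ∈ P → X ∈ P →
  (Db.map fun d => Abelianization.of d).prod *
    Abelianization.of γ ^ (Multiset.card Db / 2 + r) = 1 →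
  ∃ (fs : List (G × G)) (L : Finset G), L ⊆ P \ U ∧ (∀ q ∈ fs, FeedPre K γ q.1 q.2) ∧
    (fs.map fun q => ({q.1, q.2} : Multiset G)).sum =
      Db + {x⁻¹ * γ, X⁻¹ * γ} + prs γ L.val ∧
    x * (fs.map fun q => q.1 * q.2).prod = X⁻¹ * γ ∧ fs.length % 4 = r % 4 ∧
    M * fs.length ≤ Fintype.card G

/-- ASG: assignment of the couples 2, 3, 4 to the feeds. -/
def Stmt_ASG : Prop := ∀ K : ℕ, ∃ K' : ℕ, ∀ (G : Type) [Group G] [Fintype G] [DecidableEq G]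
  (k : ℕ) (γ : G) (Q : Finset (Cp G)), γ * γ = 1 → GenPos K' k γ Q →
  ∀ fs : List (G × G), (∀ q ∈ fs, FeedPre K' γ q.1 q.2) → K' * (fs.length + 1) ≤ Q.card →
  ∃ as : List ((G × G) × Cp G × Cp G × Cp G), as.map Prod.fst = fs ∧
    (as.flatMap fun a => [a.2.1, a.2.2.1, a.2.2.2]).Nodup ∧
    (∀ a ∈ as, a.2.1 ∈ Q ∧ a.2.2.1 ∈ Q ∧ a.2.2.2 ∈ Q ∧
      FeedAd K γ a.2.1 a.2.2.1 a.2.2.2 a.1.1 a.1.2)

/-- P1: leftover indices and vertices. -/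
def Stmt_P1 : Prop := ∀ K₁ : ℕ, ∃ K : ℕ, ∀ K₂ : ℕ, ∃ K₃ : ℕ, ∀ (G : Type) [Group G]
  [Fintype G] [DecidableEq G] (k : ℕ) (γ : G) (R P : Finset G) (Q : Finset (Cp G)),
  γ * γ = 1 → K₃ ≤ Fintype.card G → K * rt γ ≤ Fintype.card G → (prs γ P.val).Nodup →
  (∀ F ∈ covFams γ, Avail γ K₁ R P F) → GenPos K k γ Q →
  (∀ v : G, Q.card ≤ K₁ * (Q.filter fun c => c.s⁻¹ * v ∈ P).card) →
  Fintype.card G ≤ K₂ * Q.card → K * Q.card ≤ Fintype.card G →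
  ∀ (LI : Multiset (Idx G)) (LV : Finset G),
  (∀ i ∈ LI, i.2.2 = 3 ∨ i.2.2 = 4 ∨ i.2.2 = 5) → K₃ * Multiset.card LI ≤ Fintype.card G →
  LV.card = (LI.map fun i => i.2.2 - 1).sum →
  ∃ (Q₁ : Finset (Cp G)) (U U' : Finset G) (C : Multiset G), Q₁ ⊆ Q ∧ Q₁.card = LV.card ∧
    U ⊆ R ∧ U' ⊆ P ∧ MS (LI + Q₁.val.bind (Cp.idx γ)) (LV.val + U.val) C ∧
    C ≤ prs γ U'.val ∧ U'.card = (LI.map fun i => i.2.2).sum + 6 * LV.card

/-- P2: the walk; covers the debts `Db` with the couples `Q`. -/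
def Stmt_P2 : Prop := ∀ K₁ : ℕ, ∃ K : ℕ, ∀ K₂ : ℕ, ∃ K₃ N : ℕ, ∀ (G : Type) [Group G]
  [Fintype G] [DecidableEq G] (k : ℕ) (γ : G) (R P : Finset G) (Q : Finset (Cp G)),
  γ * γ = 1 → N ≤ Fintype.card G → K * rt γ ≤ Fintype.card G → (prs γ P.val).Nodup →
  Fintype.card G ≤ K₁ * P.card → (∀ F ∈ covFams γ, Avail γ K₁ R P F) → GenPos K k γ Q →
  (∀ c ∈ P, NBad K γ c ∧ NBad K γ (c⁻¹ * γ)) →
  Fintype.card G ≤ K₂ * Q.card → K * Q.card ≤ Fintype.card G →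
  ∀ (Db : Multiset G) (U U' : Finset G), (∀ d ∈ Db, NBad K γ d) →
  K₃ * (Multiset.card Db + U.card + U'.card) ≤ Fintype.card G → Even (Multiset.card Db) →
  (Db.map fun d => Abelianization.of d).prod *
    Abelianization.of γ ^ (Multiset.card Db / 2 + Q.card) = 1 →
  ∃ W W' : Finset G, W ⊆ R \ U ∧ W' ⊆ P \ U' ∧
    MS (Q.val.bind (Cp.idx γ)) W.val (Db + prs γ W'.val)

/-- COV: covering of the leftovers. -/
def Stmt_COV : Prop := ∀ K₁ : ℕ, ∃ K : ℕ, ∀ K₂ : ℕ, ∃ K₃ N : ℕ, ∀ (G : Type) [Group G]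
  [Fintype G] [DecidableEq G] (k : ℕ) (γ : G) (R P : Finset G) (Q : Finset (Cp G)),
  γ * γ = 1 → N ≤ Fintype.card G → K * rt γ ≤ Fintype.card G → (prs γ P.val).Nodup →
  Fintype.card G ≤ K₁ * P.card → (∀ F ∈ covFams γ, Avail γ K₁ R P F) → GenPos K k γ Q →
  (∀ c ∈ P, NBad K γ c ∧ NBad K γ (c⁻¹ * γ)) →
  (∀ v : G, Q.card ≤ K₁ * (Q.filter fun c => c.s⁻¹ * v ∈ P).card) →
  Fintype.card G ≤ K₂ * Q.card → K * Q.card ≤ Fintype.card G →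
  ∀ (LI : Multiset (Idx G)) (LV LC : Finset G),
  (∀ i ∈ LI, i.2.2 = 3 ∨ i.2.2 = 4 ∨ i.2.2 = 5) → K₃ * Multiset.card LI ≤ Fintype.card G →
  LV.card = (LI.map fun i => i.2.2 - 1).sum → LC.card = (LI.map fun i => i.2.2).sum →
  (∀ d ∈ LC, NBad K γ d) →
  (LC.val.map fun d => Abelianization.of d).prod * Abelianization.of γ ^ Q.card =
    (LI.map fun i => Abelianization.of (i.1⁻¹ * i.2.1)).prod →
  ∃ U U' : Finset G, U ⊆ R ∧ U' ⊆ P ∧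
    MS (LI + Q.val.bind (Cp.idx γ)) (LV.val + U.val) (LC.val + prs γ U'.val)

end Pool.OM
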