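import Pool.Agent.Work.MP_8d2cba_co_h18.Main
import Pool.Agent.Work.MP_8d2cba_co_h18.P2
import Pool.Agent.Work.MP_8d2cba_co_h64.INIT
import Pool.Agent.Work.MP_8d2cba_co_h64.P1b
import Pool.Agent.Work.MP_8d2cba_co_h64.LET
import Pool.Agent.Work.MP_8d2cba_co_helper76.EXEC
import Pool.Agent.Work.MP_8d2cba_co_helper39.OrV
import Pool.Agent.Work.MP_8d2cba_co_helper39.OrP
import Pool.Agent.Work.MP_8d2cba_co_helper43.ABS
import Pool.Agent.Work.MP_8d2cba_co_helper43.COMM
import Pool.Agent.Work.MP_8d2cba_co_helper43.FIN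
import Pool.Agent.Work.MP_8d2cba_co_helper43.HP
import Pool.Agent.Work.MP_8d2cba_co_helper43.PRE
import Pool.Agent.Work.MP_8d2cba_co_helper48.PX
import Pool.Agent.Work.MP_8d2cba_co_helper48.Place2
import Pool.Agent.Work.MP_8d2cba_co_helper52.CPL
import Pool.Agent.Work.MP_8d2cba_co_helper57.ASG
import Pool.Agent.Work.MP_8d2cba_co_helper57.RES
import Pool.Agent.Work.MP_8d2cba_co_helper59.NIB
import Pool.Agent.Work.MP_8d2cba_co_helper59.PREP
import Pool.Agent.Work.MP_8d2cba_co_helper70.COD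
import Pool.Agent.Work.MP_8d2cba_co_helper70.INEQ
import Pool.Agent.Work.MP_8d2cba_co_helper76.FAM
import Pool.Agent.Work.MP_8d2cba_co_helper76.ST
import Pool.Agent.Work.MP_8d2cba_co_helper76.T
import Pool.Agent.Work.MP_8d2cba_co_helper76.W
import Pool.Agent.Work.MP_8d2cba_co_helper81.LP
import Pool.Agent.Work.MP_8d2cba_co_helper81.NB
import Pool.Agent.Work.MP_8d2cba_co_helper81.QC
import Pool.Agent.Work.MP_8d2cba_co_helper98.DEG

set_option autoImplicit false

namespace Pool.OM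

theorem all : Concl := by
  have hLET := h64.stmt_LET H43.stmt_COMM
  have hEXEC := h76.stmt_EXEC
  have hP1 := h64.stmt_P1 h76.stmt_R2 h76.stmt_R3
  have hW := h76.stmt_W
  have hNB := helper81.stmt_NB helper57.stmt_MCD2
  have hCL := h76.stmt_CLOSE
  have hPX := helper48.stmt_PX hW
  have hOrV := helper39.stmt_OrV hPX hW hCL
  have hOrP := helper39.stmt_OrP hPX hW hCL
  have hABS := H43.stmt_ABS hOrV hOrP h76.stmt_T
  have hNIB := H59N.stmt_NIB helper98.stmt_DEG H70.stmt_COD (H70.stmt_INEQ helper81.stmt_QC)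
    helper81.stmt_LP hNB
  have hINIT := h64.stmt_INIT h76.stmt_R2 h76.stmt_R3 h76.stmt_STB
  have hP2 := stmt_P2 hINIT hLET helper57.stmt_ASG hEXEC
  exact main H43.stmt_GA H43.stmt_HP (H43.stmt_PRE hCL) helper57.stmt_RES hABS
    helper52.stmt_CPL helper48.stmt_PLACE helper57.stmt_S H59P.stmt_PREP hNIB
    (stmt_COV hP1 hP2) H43.stmt_FIN h76.stmt_FAM

end Pool.OM
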