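import Pool.Agent.Work.MP_8d2cba_co_h18.Cov

/-! MP_8d2cba_co: the final assembly, structural part. -/

set_option autoImplicit false
set_option linter.unusedSectionVars false

namespace Pool.OM

open Finset

section tails
variable {G : Type} [Group G]

theorem ms_tail (k : ℕ) (i : SI G) : MS (tidx k i) 0 (tl k i) := by
  unfold tidx tl
  split_ifs
  · exact MS.one _ _
  · have := (MS.one i.2.1 i.2.2).add (MS.one i.2.2 i.1)
    simpa using this
  · exact MS.zero

theorem ms_tails (k : ℕ) (T : Multiset (SI G)) : MS (T.bind (tidx k)) 0 (T.bind (tl k)) := by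
  induction T using Multiset.induction_on with
  | empty => simpa using MS.zero
  | cons i T ih =>
    rw [Multiset.cons_bind, Multiset.cons_bind]
    have := (ms_tail k i).add ih
    simpa using this

end tails

section cyc
variable {G : Type}

theorem cidxAux_card (s₀ : G) : ∀ L : List (G × ℕ), Multiset.card (cidxAux s₀ L) = L.length
  | [] => by simp [cidxAux]
  | [(s, ℓ)] => by simp [cidxAux]
  | (s, ℓ) :: (s', ℓ') :: L => by
    rw [cidxAux, Multiset.card_cons, cidxAux_card s₀ ((s', ℓ') :: L)]; simp

theorem cidx_card (c : List (G × ℕ)) : Multiset.card (cidx c) = c.length := by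
  cases c with
  | nil => simp [cidx]
  | cons a L => rw [cidx]; exact cidxAux_card _ _

theorem cidxAux_sum (s₀ : G) : ∀ L : List (G × ℕ),
    ((cidxAux s₀ L).map fun i => i.2.2).sum = (L.map Prod.snd).sum
  | [] => by simp [cidxAux]
  | [(s, ℓ)] => by simp [cidxAux]
  | (s, ℓ) :: (s', ℓ') :: L => by
    rw [cidxAux, Multiset.map_cons, Multiset.sum_cons, cidxAux_sum s₀ ((s', ℓ') :: L)]; simp

theorem cidx_sum (c : List (G × ℕ)) :
    ((cidx c).map fun i => i.2.2).sum = (c.map Prod.snd).sum := by
  cases c with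
  | nil => simp [cidx]
  | cons a L => rw [cidx]; exact cidxAux_sum _ _

theorem cidxAux_cls [Group G] (s₀ : G) : ∀ (L : List (G × ℕ)) (a : G × ℕ),
    ((cidxAux s₀ (a :: L)).map fun i => Abelianization.of (i.1⁻¹ * i.2.1)).prod =
      Abelianization.of (a.1⁻¹ * s₀)
  | [], (s, ℓ) => by simp [cidxAux]
  | (s', ℓ') :: L, (s, ℓ) => by
    rw [cidxAux, Multiset.map_cons, Multiset.prod_cons, cidxAux_cls s₀ L (s', ℓ'), ← map_mul]
    congr 1; group

theorem cidx_cls [Group G] (c : List (G × ℕ)) :
    ((cidx c).map fun i => Abelianization.of (i.1⁻¹ * i.2.1)).prod = 1 := by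
  cases c with
  | nil => simp [cidx]
  | cons a L => rw [cidx, cidxAux_cls]; simp

theorem sum_cidx_card (L : List (List (G × ℕ))) :
    Multiset.card (L.map cidx).sum = (L.map List.length).sum := by
  induction L with
  | nil => simp
  | cons c L ih => simp only [List.map_cons, List.sum_cons, Multiset.card_add, ih, cidx_card]

theorem sum_cidx_sum (k : ℕ) (L : List (List (G × ℕ)))
    (h : ∀ c ∈ L, (c.map Prod.snd).sum = k) :
    (((L.map cidx).sum).map fun i => i.2.2).sum = L.length * k := by
  induction L with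
  | nil => simp
  | cons c L ih =>
    rw [List.map_cons, List.sum_cons, Multiset.map_add, Multiset.sum_add,
      ih (fun c' hc' => h c' (List.mem_cons_of_mem _ hc')), cidx_sum, h c (List.mem_cons_self ..),
      List.length_cons]
    ring

theorem sum_cidx_cls [Group G] (L : List (List (G × ℕ))) :
    (((L.map cidx).sum).map fun i => Abelianization.of (i.1⁻¹ * i.2.1)).prod = 1 := by
  induction L with
  | nil => simp
  | cons c L ih =>
    rw [List.map_cons, List.sum_cons, Multiset.map_add, Multiset.prod_add, ih, cidx_cls, mul_one]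

theorem sum_src_card (L : List (List (G × ℕ))) :
    Multiset.card (L.map fun c => ((c.map Prod.fst : List G) : Multiset G)).sum =
      (L.map List.length).sum := by
  induction L with
  | nil => simp
  | cons c L ih =>
    rw [List.map_cons, List.sum_cons, Multiset.card_add, ih, List.map_cons, List.sum_cons,
      Multiset.coe_card, List.length_map]

end cyc

/-- the data of the final assembly -/
structure Setup {G : Type} [Group G] [Fintype G] [DecidableEq G] (k : ℕ) (γ : G)
    (Dp Da : Gad G) (Q : Finset (Cp G)) (R P : Finset G) (v₀ : G) (S : Finset G)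
    (L : List (List (G × ℕ))) (I : Finset (Idx G)) (V C : Finset G) : Prop where
  hγ : γ * γ = 1
  hp : ∏ g : G, Abelianization.of g = 1
  msp : MS Dp.idx Dp.V Dp.C
  msa : ∀ R' P' : Finset G, R' ⊆ R → P' ⊆ P → R'.card + 4 * Q.card = R.card →
    P'.card + 3 * Q.card = P.card → MS Da.idx (Da.V + R'.val) (Da.C + prs γ P'.val)
  uV : 4 * Q.card ≤ R.card
  uP : 3 * Q.card ≤ P.card
  vnd : S.val + (Dp.verts k + Da.verts k + (cgad γ Q).verts k + R.val) + V.val + {v₀} =
    (univ : Finset G).val
  cnd : Dp.cols k + Da.cols k + (cgad γ Q).cols k + prs γ P.val + C.val + {1} =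
    (univ : Finset G).val
  cyc : ∀ c ∈ L, (c.map Prod.snd).sum = k ∧ ∀ x ∈ c, 1 ≤ x.2
  len : L.length * k + 1 = Fintype.card G
  idx : (L.map cidx).sum = I.val + (Dp.I + Da.I + (cgad γ Q).I).map sidx +
    (Dp.I + Da.I + (cgad γ Q).I).bind (tidx k)
  src : (L.map fun c => ((c.map Prod.fst : List G) : Multiset G)).sum =
    S.val + (Dp.I + Da.I + (cgad γ Q).I).bind (jl k)
  one : ∀ i ∈ I, 1 ≤ i.2.2

section core
variable {G : Type} [Group G] [Fintype G] [DecidableEq G] {k : ℕ} {γ : G}
  {Dp Da : Gad G} {Q : Finset (Cp G)} {R P : Finset G} {v₀ : G} {S : Finset G}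
  {L : List (List (G × ℕ))} {I : Finset (Idx G)} {V C : Finset G}

theorem sum_sidx (T : Multiset (SI G)) :
    ((T.map sidx).map fun i => i.2.2).sum = 3 * Multiset.card T := by
  induction T using Multiset.induction_on with
  | empty => simp
  | cons a T ih =>
    rw [Multiset.map_cons, Multiset.map_cons, Multiset.sum_cons, ih, Multiset.card_cons]
    simp [sidx]; ring

theorem sum_sidx' (T : Multiset (SI G)) :
    ((T.map sidx).map fun i => i.2.2 - 1).sum = 2 * Multiset.card T := by
  induction T using Multiset.induction_on with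
  | empty => simp
  | cons a T ih =>
    rw [Multiset.map_cons, Multiset.map_cons, Multiset.sum_cons, ih, Multiset.card_cons]
    simp [sidx]; ring

theorem cgad_card (γ : G) (Q : Finset (Cp G)) :
    Multiset.card (cgad γ Q).I = 2 * Q.card := by
  have : ∀ M : Multiset (Cp G), Multiset.card (M.bind (Cp.I γ)) = 2 * Multiset.card M := by
    intro M
    induction M using Multiset.induction_on with
    | empty => simp
    | cons a M ih => rw [Multiset.cons_bind, Multiset.card_add, ih, Multiset.card_cons]
                     simp [Cp.I]; ring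
  exact this Q.val

theorem cgad_idx (γ : G) (Q : Finset (Cp G)) :
    (cgad γ Q).I.map sidx = Q.val.bind (Cp.idx γ) := by
  have : ∀ M : Multiset (Cp G), (M.bind (Cp.I γ)).map sidx = M.bind (Cp.idx γ) := by
    intro M
    rw [Multiset.map_bind]
    rfl
  exact this Q.val

theorem Setup.counts (h : Setup k γ Dp Da Q R P v₀ S L I V C) :
    ∑ i ∈ I, (i.2.2 - 1) = V.card ∧ ∑ i ∈ I, i.2.2 = C.card := by
  obtain ⟨R', hR', hR'c⟩ := Finset.exists_subset_card_eq
    (show R.card - 4 * Q.card ≤ R.card from Nat.sub_le _ _)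
  obtain ⟨P', hP', hP'c⟩ := Finset.exists_subset_card_eq
    (show P.card - 3 * Q.card ≤ P.card from Nat.sub_le _ _)
  have uV := h.uV
  have uP := h.uP
  have hms := h.msa R' P' hR' hP' (by omega) (by omega)
  have a1 := hms.card_C
  have a2 := hms.card_V
  have p1 := h.msp.card_C
  have p2 := h.msp.card_V
  rw [show Da.idx = Da.I.map sidx from rfl] at a1 a2
  rw [show Dp.idx = Dp.I.map sidx from rfl] at p1 p2
  rw [sum_sidx] at a1 p1
  rw [sum_sidx'] at a2 p2
  have t1 := (ms_tails k (Dp.I + Da.I + (cgad γ Q).I)).card_C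
  have t2 := (ms_tails k (Dp.I + Da.I + (cgad γ Q).I)).card_add
  have i1 := congrArg Multiset.card h.idx
  have i2 : (((L.map cidx).sum).map fun i : Idx G => i.2.2).sum =
      ((I.val + (Dp.I + Da.I + (cgad γ Q).I).map sidx +
        (Dp.I + Da.I + (cgad γ Q).I).bind (tidx k)).map fun i : Idx G => i.2.2).sum := by
    rw [h.idx]
  have s1 := congrArg Multiset.card h.src
  have v1 := congrArg Multiset.card h.vnd
  have c1 := congrArg Multiset.card h.cnd
  rw [sum_cidx_sum k L (fun c hc => (h.cyc c hc).1)] at i2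
  rw [sum_cidx_card] at i1
  rw [sum_src_card] at s1
  simp only [Multiset.map_add, Multiset.sum_add, Multiset.card_add, Multiset.card_map,
    Gad.verts, Gad.cols, Multiset.card_singleton, Multiset.add_bind, card_prs,
    Finset.card_val, Finset.card_univ, cgad_card, Multiset.card_zero,
    show (cgad γ Q).V = 0 from rfl, show (cgad γ Q).C = 0 from rfl, zero_add,
    sum_sidx] at a1 a2 p1 p2 t1 t2 i1 i2 s1 v1 c1
  have hlen := h.len
  have e1 : (I.val.map fun i : Idx G => i.2.2).sum = ∑ i ∈ I, i.2.2 := rfl
  have e2 : ∑ i ∈ I, (i.2.2 - 1) + I.card = ∑ i ∈ I, i.2.2 := by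
    rw [Finset.card_eq_sum_ones, ← Finset.sum_add_distrib]
    refine Finset.sum_congr rfl fun i hi => ?_
    have := h.one i hi
    omega
  rw [e1] at i2
  constructor <;> omega

theorem Setup.cls (h : Setup k γ Dp Da Q R P v₀ S L I V C) :
    (C.val.map fun d => Abelianization.of d).prod * Abelianization.of γ ^ Q.card =
      (I.val.map fun i => Abelianization.of (i.1⁻¹ * i.2.1)).prod := by
  obtain ⟨R', hR', hR'c⟩ := Finset.exists_subset_card_eq
    (show R.card - 4 * Q.card ≤ R.card from Nat.sub_le _ _)
  obtain ⟨P', hP', hP'c⟩ := Finset.exists_subset_card_eq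
    (show P.card - 3 * Q.card ≤ P.card from Nat.sub_le _ _)
  have uV := h.uV
  have uP := h.uP
  have hms := h.msa R' P' hR' hP' (by omega) (by omega)
  have a1 := hms.cls
  have p1 := h.msp.cls
  have t1 := (ms_tails k (Dp.I + Da.I + (cgad γ Q).I)).cls
  have q1 := cls_Q γ h.hγ Q.val
  have L1 := sum_cidx_cls L
  rw [h.idx] at L1
  have u1 : ((univ : Finset G).val.map fun d => Abelianization.of d).prod = 1 := h.hp
  rw [← h.cnd] at u1
  rw [Multiset.map_add, Multiset.prod_add, cls_prs] at a1
  rw [show Da.idx = Da.I.map sidx from rfl] at a1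
  rw [show Dp.idx = Dp.I.map sidx from rfl] at p1
  rw [← cgad_idx] at q1
  simp only [Multiset.map_add, Multiset.prod_add, Multiset.add_bind, Gad.cols, cls_prs,
    Multiset.map_singleton, Multiset.prod_singleton, map_one, mul_one,
    show (cgad γ Q).C = 0 from rfl, Multiset.map_zero, Multiset.prod_zero, one_mul]
    at a1 p1 t1 q1 L1 u1
  have hg2 : Abelianization.of γ * Abelianization.of γ = 1 := by
    rw [← map_mul, h.hγ, map_one]
  have hPc : P'.card + 3 * Q.card = P.card := by omega
  have e1 : Multiset.card P.val = P'.card + 3 * Q.card := hPc.symm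
  have e2 : Multiset.card P'.val = P'.card := rfl
  rw [e1] at u1
  rw [e2] at a1
  -- abstract
  generalize ((Dp.C).map fun d => Abelianization.of d).prod = pC at *
  generalize ((Da.C).map fun d => Abelianization.of d).prod = aC at *
  generalize (Multiset.map (fun d => Abelianization.of d) (Dp.I.bind (tl k))).prod = pt at *
  generalize (Multiset.map (fun d => Abelianization.of d) (Da.I.bind (tl k))).prod = at' at *
  generalize (Multiset.map (fun d => Abelianization.of d) ((cgad γ Q).I.bind (tl k))).prod = qt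
    at *
  generalize (Multiset.map (fun i : Idx G => Abelianization.of (i.1⁻¹ * i.2.1))
    (Dp.I.map sidx)).prod = pI at *
  generalize (Multiset.map (fun i : Idx G => Abelianization.of (i.1⁻¹ * i.2.1))
    (Da.I.map sidx)).prod = aI at *
  generalize (Multiset.map (fun i : Idx G => Abelianization.of (i.1⁻¹ * i.2.1))
    ((cgad γ Q).I.map sidx)).prod = qI at *
  generalize (Multiset.map (fun i : Idx G => Abelianization.of (i.1⁻¹ * i.2.1))
    (Dp.I.bind (tidx k))).prod = pt2 at *
  generalize (Multiset.map (fun i : Idx G => Abelianization.of (i.1⁻¹ * i.2.1))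
    (Da.I.bind (tidx k))).prod = at2 at *
  generalize (Multiset.map (fun i : Idx G => Abelianization.of (i.1⁻¹ * i.2.1))
    ((cgad γ Q).I.bind (tidx k))).prod = qt2 at *
  generalize (C.val.map fun d => Abelianization.of d).prod = cC at *
  generalize (I.val.map fun i : Idx G => Abelianization.of (i.1⁻¹ * i.2.1)).prod = cI at *
  generalize Abelianization.of γ = g at *
  have hq3 : g ^ (3 * Q.card) = g ^ Q.card := by
    have : g ^ (2 * Q.card) = 1 := by rw [pow_mul, pow_two, hg2, one_pow]
    calc g ^ (3 * Q.card) = g ^ (2 * Q.card) * g ^ Q.card := by rw [← pow_add]; congr 1; ring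
      _ = g ^ Q.card := by rw [this, one_mul]
  -- L1 : cI * (pI * aI * qI) * (pt2 * at2 * qt2) = 1; u1 : ... = 1
  subst q1
  have key : cC * g ^ Q.card * (pI * aI * (pt2 * at2 * qt2)) = 1 := by
    rw [← t1, ← p1, ← a1]
    calc cC * g ^ Q.card * (pC * (aC * g ^ P'.card) * (pt * at' * qt))
        = pC * pt * (aC * at') * qt * (g ^ (P'.card) * g ^ Q.card) * cC := by
          simp only [mul_comm, mul_left_comm, mul_assoc]
      _ = pC * pt * (aC * at') * qt * g ^ (P'.card + 3 * Q.card) * cC := by
          rw [pow_add, hq3]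
      _ = 1 := u1
  have key2 : cI * (pI * aI * (pt2 * at2 * qt2)) = 1 := by
    rw [← L1]
    simp only [mul_comm, mul_left_comm, mul_assoc, mul_one]
  exact mul_right_cancel (key.trans key2.symm)

theorem Setup.final (hF : Stmt_FIN) (hk : 1 ≤ k) (h : Setup k γ Dp Da Q R P v₀ S L I V C)
    {I' : Finset (Idx G)} {V' C' : Finset G} (hI : I' ⊆ I) (hV : V' ⊆ V) (hC : C' ⊆ C)
    (hms : MS I'.val V'.val C'.val)
    (hcov : ∃ U U' : Finset G, U ⊆ R ∧ U' ⊆ P ∧
      MS ((I \ I').val + Q.val.bind (Cp.idx γ)) ((V \ V').val + U.val)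
        ((C \ C').val + prs γ U'.val)) :
    ∃ θ : Equiv.Perm G, Function.Bijective (fun x : G => x⁻¹ * θ x) ∧ θ 1 = 1 ∧
      ∀ x : G, x ≠ 1 → Function.minimalPeriod θ x = k := by
  obtain ⟨U, U', hU, hU', hms2⟩ := hcov
  obtain ⟨hc1, hc2⟩ := h.counts
  -- counts
  have m1 := hms.card_V
  have m2 := hms.card_C
  have n1 := hms2.card_V
  have n2 := hms2.card_C
  rw [Multiset.map_add, Multiset.sum_add, sum_idx_Q'] at n1
  rw [Multiset.map_add, Multiset.sum_add, sum_idx_Q] at n2
  rw [Multiset.card_add, card_prs] at n2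
  rw [Multiset.card_add] at n1
  have e1 : ((I \ I').val.map fun i : Idx G => i.2.2 - 1).sum +
      (I'.val.map fun i : Idx G => i.2.2 - 1).sum = V.card := by
    rw [← hc1]; exact Finset.sum_sdiff hI
  have e2 : ((I \ I').val.map fun i : Idx G => i.2.2).sum +
      (I'.val.map fun i : Idx G => i.2.2).sum = C.card := by
    rw [← hc2]; exact Finset.sum_sdiff hI
  have e3 : (V \ V').card + V'.card = V.card := Finset.card_sdiff_add_card_eq_card hV
  have e4 : (C \ C').card + C'.card = C.card := Finset.card_sdiff_add_card_eq_card hC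
  have f1 : Multiset.card V'.val = V'.card := rfl
  have f2 : Multiset.card C'.val = C'.card := rfl
  have f3 : Multiset.card (V \ V').val = (V \ V').card := rfl
  have f4 : Multiset.card (C \ C').val = (C \ C').card := rfl
  have f5 : Multiset.card U.val = U.card := rfl
  have f6 : Multiset.card U'.val = U'.card := rfl
  have f7 : Multiset.card Q.val = Q.card := rfl
  have hUc : U.card = 4 * Q.card := by omega
  have hU'c : U'.card = 3 * Q.card := by omega
  have g1 : (R \ U).card + U.card = R.card := Finset.card_sdiff_add_card_eq_card hU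
  have g2 : (P \ U').card + U'.card = P.card := Finset.card_sdiff_add_card_eq_card hU'
  have hms3 := h.msa (R \ U) (P \ U') Finset.sdiff_subset Finset.sdiff_subset (by omega)
    (by omega)
  have hms4 := ms_tails k (Dp.I + Da.I + (cgad γ Q).I)
  have htot := (((hms.add hms2).add hms3).add h.msp).add hms4
  have s1 : I'.val + (I \ I').val = I.val := by
    rw [Finset.sdiff_val, add_comm]; exact tsub_add_cancel_of_le (Finset.val_le_iff.2 hI)
  have s2 : V'.val + (V \ V').val = V.val := by
    rw [Finset.sdiff_val, add_comm]; exact tsub_add_cancel_of_le (Finset.val_le_iff.2 hV)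
  have s3 : C'.val + (C \ C').val = C.val := by
    rw [Finset.sdiff_val, add_comm]; exact tsub_add_cancel_of_le (Finset.val_le_iff.2 hC)
  have s4 : U.val + (R \ U).val = R.val := by
    rw [Finset.sdiff_val, add_comm]; exact tsub_add_cancel_of_le (Finset.val_le_iff.2 hU)
  have s5 : U'.val + (P \ U').val = P.val := by
    rw [Finset.sdiff_val, add_comm]; exact tsub_add_cancel_of_le (Finset.val_le_iff.2 hU')
  have A1 : I'.val + ((I \ I').val + Q.val.bind (Cp.idx γ)) + Da.idx + Dp.idx +
      (Dp.I + Da.I + (cgad γ Q).I).bind (tidx k) = (L.map cidx).sum := by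
    rw [h.idx, ← s1, Multiset.map_add, Multiset.map_add, cgad_idx]
    have : Da.idx = Da.I.map sidx := rfl
    have : Dp.idx = Dp.I.map sidx := rfl
    rw [show Da.idx = Da.I.map sidx from rfl, show Dp.idx = Dp.I.map sidx from rfl]
    abel
  have A2 : V'.val + ((V \ V').val + U.val) + (Da.V + (R \ U).val) + Dp.V + 0 =
      V.val + R.val + Da.V + Dp.V := by
    rw [← s2, ← s4]; abel
  have A3 : C'.val + ((C \ C').val + prs γ U'.val) + (Da.C + prs γ (P \ U').val) + Dp.C +
      (Dp.I + Da.I + (cgad γ Q).I).bind (tl k) =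
      Dp.cols k + Da.cols k + (cgad γ Q).cols k + prs γ P.val + C.val := by
    rw [← s3, ← s5, prs_add]
    simp only [Gad.cols, Multiset.add_bind, show (cgad γ Q).C = 0 from rfl, zero_add]
    abel
  rw [A1, A2, A3] at htot
  refine hF G k hk L h.cyc _ _ v₀ htot ?_ ?_
  · rw [h.src]
    have hv := h.vnd
    rw [Finset.erase_val, ← hv]
    have : S.val + (Dp.verts k + Da.verts k + (cgad γ Q).verts k + R.val) + V.val + {v₀} =
        v₀ ::ₘ (S.val + (Dp.verts k + Da.verts k + (cgad γ Q).verts k + R.val) + V.val) := by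
      rw [add_comm, Multiset.singleton_add]
    rw [this, Multiset.erase_cons_head]
    simp only [Gad.verts, Multiset.add_bind, show (cgad γ Q).V = 0 from rfl, zero_add]
    abel
  · have hv := h.cnd
    rw [Finset.erase_val, ← hv]
    have : Dp.cols k + Da.cols k + (cgad γ Q).cols k + prs γ P.val + C.val + {1} =
        1 ::ₘ (Dp.cols k + Da.cols k + (cgad γ Q).cols k + prs γ P.val + C.val) := by
      rw [add_comm, Multiset.singleton_add]
    rw [this, Multiset.erase_cons_head]

end core

end Pool.OM
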