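import Pool.Agent.Work.MP_8d2cba_co_h18.Basic
import Pool.Agent.Work.MP_8d2cba_co_h18.Interface2

/-! MP_8d2cba_co: COV from P1 and P2. -/

set_option autoImplicit false
set_option linter.unusedSectionVars false

namespace Pool.OM

open Finset

section api
variable {G : Type} [Group G] [Fintype G] [DecidableEq G]

theorem GenPos.sub {K k : ℕ} {γ : G} {Q Q' : Finset (Cp G)} (h : GenPos K k γ Q)
    (hs : Q' ⊆ Q) : GenPos K k γ Q' where
  k3 hk c hc := h.k3 hk c (hs hc)
  w1 c hc := h.w1 c (hs hc)
  w2 c hc c' hc' := h.w2 c (hs hc) c' (hs hc')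
  w3 c hc c' hc' := h.w3 c (hs hc) c' (hs hc')
  r1 c hc c' hc' := h.r1 c (hs hc) c' (hs hc')
  r2 c hc c' hc' := h.r2 c (hs hc) c' (hs hc')
  i1 := h.i1.mono (by exact_mod_cast hs)
  i2 := h.i2.mono (by exact_mod_cast hs)
  i3 := h.i3.mono (by exact_mod_cast hs)
  i4 := h.i4.mono (by exact_mod_cast hs)
  i5 hk := (h.i5 hk).mono (by exact_mod_cast hs)

theorem GenPos.mono {K K' k : ℕ} {γ : G} {Q : Finset (Cp G)} (h : GenPos K k γ Q)
    (hK : K' ≤ K) : GenPos K' k γ Q where
  k3 := h.k3
  w1 := h.w1
  w2 := h.w2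
  w3 := h.w3
  r1 c hc c' hc' hn := (Nat.mul_le_mul_right _ hK).trans (h.r1 c hc c' hc' hn)
  r2 c hc c' hc' hn := (Nat.mul_le_mul_right _ hK).trans (h.r2 c hc c' hc' hn)
  i1 := h.i1
  i2 := h.i2
  i3 := h.i3
  i4 := h.i4
  i5 := h.i5

theorem NBad.mono {K K' : ℕ} {γ d : G} (h : NBad K γ d) (hK : K' ≤ K) : NBad K' γ d :=
  ⟨h.ne, (Nat.mul_le_mul_right _ hK).trans h.rt, (Nat.mul_le_mul_right _ hK).trans h.cj⟩

theorem cls_pr (γ a : G) :
    ((pr γ a).map fun d => Abelianization.of d).prod = Abelianization.of γ := by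
  simp [pr]

theorem cls_prs (γ : G) (P : Multiset G) :
    ((prs γ P).map fun d => Abelianization.of d).prod =
      Abelianization.of γ ^ (Multiset.card P) := by
  induction P using Multiset.induction_on with
  | empty => simp
  | cons a P ih => simp [ih, cls_pr, pow_succ, mul_comm]

theorem cls_idx (γ : G) (hγ : γ * γ = 1) (c : Cp G) :
    ((c.idx γ).map fun i => Abelianization.of (i.1⁻¹ * i.2.1)).prod = 1 := by
  have h : Abelianization.of γ * Abelianization.of γ = 1 := by rw [← map_mul, hγ, map_one]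
  simp only [Cp.idx, Cp.t, Cp.t', Cp.g', Multiset.insert_eq_cons, Multiset.map_cons,
    Multiset.map_singleton, Multiset.prod_cons, Multiset.prod_singleton]
  simp only [map_mul, map_inv]
  calc _ = (Abelianization.of γ * Abelianization.of γ) *
      ((Abelianization.of c.s)⁻¹ * Abelianization.of c.s) *
      ((Abelianization.of c.r)⁻¹ * Abelianization.of c.r) *
      ((Abelianization.of c.g)⁻¹ * Abelianization.of c.g) := by
        simp only [mul_comm, mul_left_comm, mul_assoc]
    _ = 1 := by rw [h]; simp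

theorem cls_Q (γ : G) (hγ : γ * γ = 1) (Q : Multiset (Cp G)) :
    ((Q.bind (Cp.idx γ)).map fun i => Abelianization.of (i.1⁻¹ * i.2.1)).prod = 1 := by
  induction Q using Multiset.induction_on with
  | empty => simp
  | cons a P ih =>
    rw [Multiset.cons_bind, Multiset.map_add, Multiset.prod_add, ih, cls_idx γ hγ, mul_one]

theorem sum_idx_Q (γ : G) (Q : Multiset (Cp G)) :
    ((Q.bind (Cp.idx γ)).map fun i => i.2.2).sum = 6 * Multiset.card Q := by
  induction Q using Multiset.induction_on with
  | empty => simp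
  | cons a P ih => simp [ih, Cp.idx]; ring

theorem sum_idx_Q' (γ : G) (Q : Multiset (Cp G)) :
    ((Q.bind (Cp.idx γ)).map fun i => i.2.2 - 1).sum = 4 * Multiset.card Q := by
  induction Q using Multiset.induction_on with
  | empty => simp
  | cons a P ih => simp [ih, Cp.idx]; ring

theorem mem_prs {γ d : G} {P : Multiset G} : d ∈ prs γ P ↔ ∃ a ∈ P, d = a ∨ d = a⁻¹ * γ := by
  simp only [prs, pr, Multiset.mem_bind, Multiset.insert_eq_cons, Multiset.mem_cons,
    Multiset.mem_singleton]

end api

theorem stmt_COV (h1 : Stmt_P1) (h2 : Stmt_P2) : Stmt_COV := by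
  intro K₁
  obtain ⟨KA, h1⟩ := h1 K₁
  obtain ⟨KB, h2⟩ := h2 K₁
  refine ⟨max KA KB, fun K₂ => ?_⟩
  obtain ⟨K3A, h1⟩ := h1 K₂
  obtain ⟨K3B, NB, h2⟩ := h2 (2 * K₂)
  refine ⟨K3A + 108 * K3B + 8 * K₂ + 1, max K3A NB, ?_⟩
  intro G _ _ _ k γ R P Q hγ hN hrt hprs hP hav hgp hnb hcov hQ hKQ LI LV LC hlen hLI hLV hLC
    hLCn hcls
  have hA : KA ≤ max KA KB := le_max_left _ _
  have hB : KB ≤ max KA KB := le_max_right _ _
  have hQ0 : 0 < Q.card ∨ Fintype.card G = 0 := by
    rcases Nat.eq_zero_or_pos Q.card with h | h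
    · right; rw [h] at hQ; omega
    · left; exact h
  have hn : 0 < Fintype.card G := Fintype.card_pos
  have hQ0 : 0 < Q.card := by rcases hQ0 with h | h <;> omega
  obtain ⟨Q₁, U, U', C, hQ₁, hQc, hU, hU', hMS, hC, hU'c⟩ := h1 G k γ R P Q hγ
    ((le_max_left _ _).trans hN) ((Nat.mul_le_mul_right _ hA).trans hrt) hprs hav (hgp.mono hA)
    hcov hQ ((Nat.mul_le_mul_right _ hA).trans hKQ) LI LV hlen
    (le_trans (Nat.mul_le_mul_right _ (by omega)) hLI) hLV
  -- counts
  have hl5 : (LI.map fun i => i.2.2).sum ≤ 5 * Multiset.card LI := by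
    calc (LI.map fun i => i.2.2).sum ≤ (LI.map fun _ => 5).sum :=
          Multiset.sum_map_le_sum_map _ _ (fun i hi => by rcases hlen i hi with h | h | h <;> omega)
      _ = 5 * Multiset.card LI := by simp [mul_comm]
  have hl4 : (LI.map fun i => i.2.2 - 1).sum ≤ 4 * Multiset.card LI := by
    calc (LI.map fun i => i.2.2 - 1).sum ≤ (LI.map fun _ => 4).sum :=
          Multiset.sum_map_le_sum_map _ _ (fun i hi => by rcases hlen i hi with h | h | h <;> omega)
      _ = 4 * Multiset.card LI := by simp [mul_comm]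
  set sl := (LI.map fun i => i.2.2).sum with hsl
  set sl' := (LI.map fun i => i.2.2 - 1).sum with hsl'
  set m := Multiset.card LI with hm
  have hCc : Multiset.card C = sl + 6 * LV.card := by
    have := hMS.card_C
    rw [Multiset.map_add, Multiset.sum_add, sum_idx_Q] at this
    simpa [hQc] using this
  have hVc : LV.card + U.card = sl' + 4 * LV.card := by
    have := hMS.card_V
    rw [Multiset.map_add, Multiset.sum_add, sum_idx_Q'] at this
    simpa [hQc] using this
  obtain ⟨E, hE⟩ : ∃ E, prs γ U'.val = C + E := ⟨prs γ U'.val - C, by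
    rw [add_comm, tsub_add_cancel_of_le hC]⟩
  have hEc : Multiset.card C + Multiset.card E = 2 * U'.card := by
    rw [← Multiset.card_add, ← hE, card_prs]; rfl
  set Db := LC.val + E with hDb
  have hDbc : Multiset.card Db = 2 * sl + 6 * LV.card := by
    rw [hDb, Multiset.card_add]
    have : Multiset.card LC.val = LC.card := rfl
    omega
  have hdiff : (Q \ Q₁).card = Q.card - LV.card := by
    rw [card_sdiff_of_subset hQ₁, hQc]
  have hsmall : 8 * K₂ * m ≤ Fintype.card G :=
    le_trans (Nat.mul_le_mul_right _ (by omega)) hLI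
  have hLVs : 2 * LV.card ≤ Q.card := by
    by_contra hc
    push Not at hc
    have h8 : K₂ * Q.card < K₂ * (2 * LV.card) ∨ K₂ = 0 := by
      rcases Nat.eq_zero_or_pos K₂ with h | h
      · right; exact h
      · left; exact Nat.mul_lt_mul_of_pos_left hc h
    rcases h8 with h8 | h8
    · have : K₂ * (2 * LV.card) ≤ 8 * K₂ * m := by
        calc K₂ * (2 * LV.card) ≤ K₂ * (2 * (4 * m)) := by gcongr; omega
          _ = 8 * K₂ * m := by ring
      omega
    · rw [h8] at hQ; omega
  obtain ⟨W, W', hW, hW', hMS2⟩ := h2 G k γ R P (Q \ Q₁) hγ ((le_max_right _ _).trans hN)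
    ((Nat.mul_le_mul_right _ hB).trans hrt) hprs hP hav
    ((hgp.mono hB).sub sdiff_subset) (fun c hc => ⟨(hnb c hc).1.mono hB, (hnb c hc).2.mono hB⟩)
    (by
      rw [hdiff]
      calc Fintype.card G ≤ K₂ * Q.card := hQ
        _ ≤ K₂ * (2 * (Q.card - LV.card)) := by gcongr; omega
        _ = 2 * K₂ * (Q.card - LV.card) := by ring)
    (by
      refine le_trans ?_ hKQ
      exact Nat.mul_le_mul hB (card_le_card sdiff_subset))
    Db U U' (by
      intro d hd
      rw [hDb] at hd
      rcases Multiset.mem_add.1 hd with h | h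
      · exact (hLCn d h).mono hB
      · have : d ∈ prs γ U'.val := by rw [hE]; exact Multiset.mem_add.2 (Or.inr h)
        obtain ⟨a, ha, h | h⟩ := mem_prs.1 this
        · rw [h]; exact ((hnb a (hU' ha)).1).mono hB
        · rw [h]; exact ((hnb a (hU' ha)).2).mono hB)
    (by
      have : Multiset.card Db + U.card + U'.card ≤ 108 * m := by omega
      calc K3B * (Multiset.card Db + U.card + U'.card) ≤ K3B * (108 * m) := by gcongr
        _ = (108 * K3B) * m := by ring
        _ ≤ (K3A + 108 * K3B + 8 * K₂ + 1) * m := Nat.mul_le_mul_right _ (by omega)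
        _ ≤ _ := hLI)
    (by rw [hDbc]; exact ⟨sl + 3 * LV.card, by ring⟩)
    (by
      have hg2 : Abelianization.of γ * Abelianization.of γ = 1 := by
        rw [← map_mul, hγ, map_one]
      have hc1 := hMS.cls
      rw [Multiset.map_add, Multiset.prod_add, cls_Q γ hγ, mul_one] at hc1
      have hc2 : (C.map fun d => Abelianization.of d).prod *
          (E.map fun d => Abelianization.of d).prod = Abelianization.of γ ^ U'.card := by
        rw [← Multiset.prod_add, ← Multiset.map_add, ← hE, cls_prs]; rfl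
      rw [hDb, Multiset.map_add, Multiset.prod_add]
      have hexp : Multiset.card Db / 2 + (Q \ Q₁).card = sl + 2 * LV.card + Q.card := by
        rw [hdiff, hDbc]; omega
      rw [← hDb, hexp]
      set g := Abelianization.of γ
      set a := (LC.val.map fun d => Abelianization.of d).prod
      set b := (E.map fun d => Abelianization.of d).prod
      set c := (C.map fun d => Abelianization.of d).prod
      have h3 : a * g ^ Q.card = c := by rw [hcls, hc1]
      have h4 : c * b = g ^ (sl + 6 * LV.card) := by rw [hc2, hU'c]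
      have hev : ∀ j : ℕ, g ^ (2 * j) = 1 := by
        intro j; rw [pow_mul, pow_two, hg2, one_pow]
      calc a * b * g ^ (sl + 2 * LV.card + Q.card)
          = (a * g ^ Q.card) * b * g ^ (sl + 2 * LV.card) := by
            rw [pow_add]; simp only [mul_comm, mul_left_comm, mul_assoc]
        _ = g ^ (sl + 6 * LV.card) * g ^ (sl + 2 * LV.card) := by rw [h3, h4]
        _ = g ^ (2 * (sl + 4 * LV.card)) := by rw [← pow_add]; congr 1; ring
        _ = 1 := hev _)
  have hdV : Disjoint U W := by
    rw [Finset.disjoint_left]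
    intro x hx hx'
    exact (Finset.mem_sdiff.1 (hW hx')).2 hx
  have hdC : Disjoint U' W' := by
    rw [Finset.disjoint_left]
    intro x hx hx'
    exact (Finset.mem_sdiff.1 (hW' hx')).2 hx
  refine ⟨U.disjUnion W hdV, U'.disjUnion W' hdC, ?_, ?_, ?_⟩
  · intro x hx
    rcases Finset.mem_disjUnion.1 hx with h | h
    · exact hU h
    · exact (Finset.mem_sdiff.1 (hW h)).1
  · intro x hx
    rcases Finset.mem_disjUnion.1 hx with h | h
    · exact hU' h
    · exact (Finset.mem_sdiff.1 (hW' h)).1
  · have hsum := hMS.add hMS2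
    have e1 : LI + Q₁.val.bind (Cp.idx γ) + (Q \ Q₁).val.bind (Cp.idx γ) =
        LI + Q.val.bind (Cp.idx γ) := by
      rw [add_assoc, ← Multiset.add_bind]
      congr 2
      rw [sdiff_val]
      rw [add_comm]; exact tsub_add_cancel_of_le (Finset.val_le_iff.2 hQ₁)
    have e2 : (U.disjUnion W hdV).val = U.val + W.val := rfl
    have e3 : (U'.disjUnion W' hdC).val = U'.val + W'.val := rfl
    rw [e1] at hsum
    rw [e2, e3, prs_add, hE]
    rw [hDb] at hsum
    convert hsum using 1
    · abel
    · abel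

end Pool.OM
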