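import Mathlib

/-! MP_8d2cba_co (frozen S10053): orthomorphisms of type (1,k). Definitions shared by all blocks. -/

set_option autoImplicit false

namespace Pool.OM

open Finset

section basic
variable {G : Type} [Group G]

/-- Colours (differences) of the directed path `s → p₁ → ... → p_j → t`. -/
def pcols (s : G) : List G → G → Multiset G
  | [], t => {s⁻¹ * t}
  | x :: p, t => (s⁻¹ * x) ::ₘ pcols x p t

/-- An index `(s, t, ℓ)`: to be filled by a path from `s` to `t` with `ℓ` arcs. -/
abbrev Idx (G : Type) := G × G × ℕ

/-- `MS J V C`: the indices `J` can be filled by paths whose inner vertices are (as a multiset,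
all together) `V` and whose colours are (all together) `C`. No distinctness inside. -/
inductive MS : Multiset (Idx G) → Multiset G → Multiset G → Prop
  | zero : MS 0 0 0
  | cons (s t : G) (p : List G) {J : Multiset (Idx G)} {V C : Multiset G} :
      MS J V C → MS ((s, t, p.length + 1) ::ₘ J) ((p : Multiset G) + V) (pcols s p t + C)

/-- The pair of `a`: `{a, a⁻¹ γ}` (in our use `γ * γ = 1`). -/
def pr (γ a : G) : Multiset G := {a, a⁻¹ * γ}

def prs (γ : G) (P : Multiset G) : Multiset G := P.bind (pr γ)

/-- A special index `(s, t, τ)`: it stands for the index `(s, t, 3)`; for `k = 3` we have `t = s`;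
for `k = 4` the cycle is closed by the arc `t → s`, for `k = 5` by the arcs `t → τ → s`. -/
abbrev SI (G : Type) := G × G × G

/-- junction vertices of a special index -/
def jl (k : ℕ) (i : SI G) : Multiset G :=
  if k = 3 then {i.1} else if k = 5 then {i.1, i.2.1, i.2.2} else {i.1, i.2.1}

/-- colours of the closing arcs -/
def tl (k : ℕ) (i : SI G) : Multiset G :=
  if k = 4 then {i.2.1⁻¹ * i.1} else
    if k = 5 then {i.2.1⁻¹ * i.2.2, i.2.2⁻¹ * i.1} else 0

/-- closing arcs as indices of length 1 -/
def tidx (k : ℕ) (i : SI G) : Multiset (Idx G) :=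
  if k = 4 then {(i.2.1, i.1, 1)} else
    if k = 5 then {(i.2.1, i.2.2, 1), (i.2.2, i.1, 1)} else 0

def sidx (i : SI G) : Idx G := (i.1, i.2.1, 3)

/-- A gadget: special indices, private (inner) vertices, private colours. -/
structure Gad (G : Type) where
  I : Multiset (SI G)
  V : Multiset G
  C : Multiset G

namespace Gad
def idx (D : Gad G) : Multiset (Idx G) := D.I.map sidx
/-- all vertices used (private and junctions) -/
def verts (k : ℕ) (D : Gad G) : Multiset G := D.V + D.I.bind (jl k)
/-- all colours used (private and closing arcs) -/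
def cols (k : ℕ) (D : Gad G) : Multiset G := D.C + D.I.bind (tl k)
def size (D : Gad G) : ℕ := Multiset.card D.I + Multiset.card D.V + Multiset.card D.C
def add (D E : Gad G) : Gad G := ⟨D.I + E.I, D.V + E.V, D.C + E.C⟩
def zero : Gad G := ⟨0, 0, 0⟩
end Gad

/-- The gadget is valid and its vertices/colours are distinct and avoid `FV`/`FC`. -/
structure Fresh (k : ℕ) (FV FC : Finset G) (D : Gad G) : Prop where
  three : k = 3 → ∀ i ∈ D.I, i.2.1 = i.1
  vnd : (D.verts k).Nodup
  vfr : ∀ x ∈ D.verts k, x ∉ FV
  cnd : (D.cols k).Nodup
  cfr : ∀ c ∈ D.cols k, c ∉ FC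
  cne : ∀ c ∈ D.cols k, c ≠ 1

end basic

section counts
variable {G : Type} [Group G] [Fintype G] [DecidableEq G]

/-- number of square roots -/
def rt (c : G) : ℕ := (univ.filter fun x : G => x * x = c).card
/-- number of `x` conjugating `a` to `b` -/
def cj (a b : G) : ℕ := (univ.filter fun x : G => x * a * x⁻¹ = b).card

end counts

/-! ### Words (tool R) -/

/-- Words: letter `(0, _)` is the involution `γ`; letter `(j+1, true)` is variable `j`,
`(j+1, false)` its inverse. -/
abbrev Wd := List (ℕ × Bool)

section words
variable {G : Type} [Group G]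

def evL (γ : G) (ρ : ℕ → G) : ℕ × Bool → G
  | (0, _) => γ
  | (j + 1, true) => ρ j
  | (j + 1, false) => (ρ j)⁻¹

def ev (γ : G) (ρ : ℕ → G) (w : Wd) : G := (w.map (evL γ ρ)).prod

/-- variables `0..f-1` are `ω`, variable `f + j` is the parameter `ρ j` -/
def join (f : ℕ) (ω : Fin f → G) (ρ : ℕ → G) (j : ℕ) : G :=
  if h : j < f then ω ⟨j, h⟩ else ρ (j - f)

end words

namespace Wd

def lc : Bool → Bool → Bool
  | true, false => true
  | false, true => true
  | _, _ => false

def canc (a b : ℕ × Bool) : Bool := Nat.beq a.1 b.1 && (Nat.beq a.1 0 || lc a.2 b.2)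

def push (a : ℕ × Bool) : Wd → Wd
  | [] => [a]
  | b :: w => bif canc a b then w else a :: b :: w

/-- free reduction (with `γ² = 1`) -/
def red (w : Wd) : Wd := w.foldr push []

def inv (w : Wd) : Wd := (w.map fun a => (a.1, !a.2)).reverse

/-- strip cancelling first/last letters (fuel) of a reduced word -/
def cycR : ℕ → Wd → Wd
  | 0, w => w
  | _ + 1, [] => []
  | n + 1, a :: w =>
    match w.reverse with
    | [] => [a]
    | b :: w' => bif canc a b then cycR n w'.reverse else a :: w

/-- cyclic reduction -/
def cyc (w : Wd) : Wd := let r := red w; cycR r.length r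

/-- occurrences of variable `v` -/
def cnt (v : ℕ) (w : Wd) : ℕ := w.foldr (fun a n => bif Nat.beq a.1 (v + 1) then n + 1 else n) 0

/-- some free variable (`< f`) occurs exactly once -/
def lin (f : ℕ) (w : Wd) : Bool := (List.range f).any fun v => Nat.beq (cnt v w) 1

/-- no free variable occurs -/
def stat (f : ℕ) (w : Wd) : Bool := (List.range f).all fun v => Nat.beq (cnt v w) 0

/-- split at the first occurrence of variable `v`: `(P, sign, rest)` -/
def splitAt (v : ℕ) : Wd → Option (Wd × Bool × Wd)
  | [] => none
  | a :: w => bif Nat.beq a.1 (v + 1) then some ([], a.2, w) else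
      match splitAt v w with
      | none => none
      | some (P, b, R) => some (a :: P, b, R)

end Wd

/-- obligations on the parameters -/
inductive Ob
  | rt (A : Wd)
  | cj (A B : Wd)
  | ne (A : Wd)
deriving DecidableEq, Repr

namespace Wd

/-- try to classify with variable `v` occurring exactly twice:
`P v Q v R = 1` has `rt (P⁻¹ R⁻¹ Q)` solutions `v`;
`P v⁻¹ Q v⁻¹ R = 1` : with `u = v⁻¹` the same;
`P v Q v⁻¹ R = 1` has `cj Q ((R P)⁻¹)` solutions; `P v⁻¹ Q v R = 1` the same with `u = v⁻¹`. -/
def quad (f v : ℕ) (w : Wd) : Option Ob :=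
  match splitAt v w with
  | none => none
  | some (P, b, R0) =>
    match splitAt v R0 with
    | none => none
    | some (Q, b', R) =>
      bif !(Nat.beq (cnt v R) 0) then none else
      bif lc b b' then
        let A := cyc Q
        let B := cyc (inv (R ++ P))
        bif stat f A && stat f B then some (Ob.cj A B) else none
      else
        let A := cyc (inv P ++ inv R ++ Q)
        bif stat f A then some (Ob.rt A) else none

/-- Obligations which guarantee that `w = 1` has few solutions; `none` = not classified. -/
def obl (f : ℕ) (w : Wd) : Option (List Ob) :=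
  let c := cyc w
  bif lin f c then some [] else
  bif stat f c then some [Ob.ne c] else
  (List.range f).foldr (fun v r => match r with
    | some l => some l
    | none => match quad f v c with
      | some o => some [o]
      | none => none) none

end Wd

section words2
variable {G : Type} [Group G] [Fintype G] [DecidableEq G]

def ObOK (K : ℕ) (γ : G) (ρ : ℕ → G) : Ob → Prop
  | Ob.rt A => K * rt (ev γ ρ A) ≤ Fintype.card G
  | Ob.cj A B => K * cj (ev γ ρ A) (ev γ ρ B) ≤ Fintype.card G
  | Ob.ne A => ev γ ρ A ≠ 1

end words2

/-- A system of words: words of vertices and words of (first elements of) pairs. -/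
structure Sys where
  vw : List Wd
  pw : List Wd

namespace Sys
open Wd

/-- `[u v⁻¹ : u before v]` -/
def diffs : List Wd → List Wd
  | [] => []
  | u :: l => (l.map fun v => u ++ inv v) ++ diffs l

/-- words whose triviality means that the pairs of `a`, `b` meet -/
def pdiffs : List Wd → List Wd
  | [] => []
  | a :: l => (a ++ a ++ [(0, true)]) ::
      ((l.map fun b => a ++ inv b) ++ (l.map fun b => b ++ a ++ [(0, true)]) ++
        (l.map fun b => a ++ b ++ [(0, true)])) ++ pdiffs l

def colls (S : Sys) : List Wd := diffs S.vw ++ pdiffs S.pw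

/-- all obligations of a list of collision words (`none` = some word is not classified) -/
def lobls (f : ℕ) (ws : List Wd) : Option (List Ob) :=
  ws.foldr (fun w r => match r, obl f w with
    | some l, some l' => some (l' ++ l)
    | _, _ => none) (some [])

def obls (f : ℕ) (S : Sys) : Option (List Ob) := lobls f S.colls

/-- every word is uniformly distributed: a free variable occurs exactly once in the reduced word -/
def unif (f : ℕ) (S : Sys) : Bool :=
  (S.vw.all fun w => lin f (red w)) && (S.pw.all fun w => lin f (red w))

end Sys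

section fam
variable {G : Type} [Group G]

/-- collision free -/
def CF (γ : G) (ps vs : List G) : Prop := (prs γ (ps : Multiset G)).Nodup ∧ vs.Nodup

/-- A family of random systems: parameters `P`, random choices `Ω`, first elements of the pairs
`pw`, vertices `vw`. `Lp`, `Lv` are fibre constants. -/
structure Fam (G : Type) where
  P : Type
  Ω : Type
  fP : Fintype P
  fΩ : Fintype Ω
  pw : P → Ω → List G
  vw : P → Ω → List G
  Lp : ℕ
  Lv : ℕ

open Classical in
/-- If at least half of the choices are collision free then a proportion `1/K` is collision free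
and lies in the reserve. -/
def Avail (γ : G) (K : ℕ) (R P : Finset G) (F : Fam G) : Prop :=
  letI := F.fΩ
  ∀ π : F.P,
    Fintype.card F.Ω ≤ 2 * (univ.filter fun ω => CF γ (F.pw π ω) (F.vw π ω)).card →
    Fintype.card F.Ω ≤ K * (univ.filter fun ω => CF γ (F.pw π ω) (F.vw π ω) ∧
      (∀ c ∈ F.pw π ω, c ∈ P) ∧ ∀ v ∈ F.vw π ω, v ∈ R).card

/-- the family of a word system: `f` random variables, `m` parameters -/
def Sys.fam (γ : G) [Fintype G] (S : Sys) (f m : ℕ) : Fam G where
  P := Fin m → G
  Ω := Fin f → G
  fP := inferInstance
  fΩ := inferInstance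
  pw π ω := S.pw.map (ev γ (join f ω fun j => if h : j < m then π ⟨j, h⟩ else 1))
  vw π ω := S.vw.map (ev γ (join f ω fun j => if h : j < m then π ⟨j, h⟩ else 1))
  Lp := S.pw.length
  Lv := S.vw.length

end fam

end Pool.OM
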