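import Pool.Agent.Work.MP_8d2cba_co_h18.Defs

/-! MP_8d2cba_co: exact statements of the blocks (stage 1). See BLUEPRINT.md for the proofs. -/

set_option autoImplicit false

namespace Pool.OM

open Finset

/-! ## R: word tool -/

/-- R1: soundness of the classification of words. -/
def Stmt_R1 : Prop := ∀ (G : Type) [Group G] [Fintype G] [DecidableEq G] (γ : G), γ * γ = 1 →
  ∀ (f : ℕ) (w : Wd) (l : List Ob), Wd.obl f w = some l →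
  ∀ (K : ℕ) (ρ : ℕ → G), K ≤ Fintype.card G → (∀ o ∈ l, ObOK K γ (join f (fun _ => 1) ρ) o) →
    K * (univ.filter fun ω : Fin f → G => ev γ (join f ω ρ) w = 1).card ≤ Fintype.card G ^ f

/-- R2: a word in which a free variable occurs exactly once (after free reduction) is uniformly
distributed. -/
def Stmt_R2 : Prop := ∀ (G : Type) [Group G] [Fintype G] [DecidableEq G] (γ : G), γ * γ = 1 →
  ∀ (f : ℕ) (w : Wd), Wd.lin f (Wd.red w) = true → ∀ (ρ : ℕ → G) (c : G),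
    Fintype.card G * (univ.filter fun ω : Fin f → G => ev γ (join f ω ρ) w = c).card =
      Fintype.card G ^ f

/-- R3: few collisions in a system. -/
def Stmt_R3 : Prop := ∀ (G : Type) [Group G] [Fintype G] [DecidableEq G] (γ : G), γ * γ = 1 →
  ∀ (f : ℕ) (S : Sys) (l : List Ob), S.obls f = some l →
  ∀ (K : ℕ) (ρ : ℕ → G), K ≤ Fintype.card G → (∀ o ∈ l, ObOK K γ (join f (fun _ => 1) ρ) o) →
    K * (univ.filter fun ω : Fin f → G => ¬ (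
      (prs γ (S.pw.map (ev γ (join f ω ρ)) : Multiset G)).Nodup ∧
      (S.vw.map (ev γ (join f ω ρ))).Nodup)).card ≤
      S.colls.length * Fintype.card G ^ f

/-- R4: greedy choice. `ds` are collision words, `av` are words with sets of forbidden values. -/
def Stmt_R4 : Prop := ∀ (G : Type) [Group G] [Fintype G] [DecidableEq G] (γ : G), γ * γ = 1 →
  ∀ (f : ℕ) (ds : List Wd) (l : List Ob), Sys.lobls f ds = some l →
  ∀ (av : List (Wd × Finset G)), (∀ a ∈ av, Wd.lin f (Wd.red a.1) = true) →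
  ∀ (K : ℕ) (ρ : ℕ → G), K ≤ Fintype.card G → 2 * ds.length ≤ K →
    (∀ o ∈ l, ObOK K γ (join f (fun _ => 1) ρ) o) →
    2 * (av.map fun a => a.2.card).sum < Fintype.card G →
    ∃ ω : Fin f → G, (∀ w ∈ ds, ev γ (join f ω ρ) w ≠ 1) ∧
      ∀ a ∈ av, ev γ (join f ω ρ) a.1 ∉ a.2

/-! ## Gadgets -/

/-- CLOSE: (k ≥ 4) choice of the targets `t` (and of `τ`) of special indices `s → · → y → t`. -/
def Stmt_CLOSE : Prop := ∃ K : ℕ, ∀ (G : Type) [Group G] [Fintype G] [DecidableEq G] (k : ℕ)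
  (FV FC : Finset G), 4 ≤ k → k ∣ Fintype.card G - 1 → ∀ (m : ℕ) (s y : Fin m → G),
  K * (FV.card + FC.card + m + 1) ≤ Fintype.card G → ∃ t τ : Fin m → G,
    ((univ : Finset (Fin m)).val.bind fun i =>
      if k = 5 then ({t i, τ i} : Multiset G) else {t i}).Nodup ∧
    (∀ i, t i ∉ FV ∧ τ i ∉ FV) ∧
    ((univ : Finset (Fin m)).val.bind fun i =>
      ((y i)⁻¹ * t i) ::ₘ tl k (s i, t i, τ i)).Nodup ∧
    ∀ i, ∀ c ∈ ((y i)⁻¹ * t i) ::ₘ tl k (s i, t i, τ i), c ∉ FC ∧ c ≠ 1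

/-- W: vertex exchange. -/
def Stmt_W : Prop := ∃ K : ℕ, ∀ (G : Type) [Group G] [Fintype G] [DecidableEq G] (k : ℕ)
  (FV FC : Finset G), 3 ≤ k → k ∣ Fintype.card G - 1 →
  K * (FV.card + FC.card + 1) ≤ Fintype.card G →
  ∀ u u' : G, ∃ D : Gad G, D.size ≤ K ∧ Fresh k FV FC D ∧
    MS D.idx (u ::ₘ D.V) D.C ∧ MS D.idx (u' ::ₘ D.V) D.C

/-- PX: exchange of `{a, b}` and `{a', b'}` when `a b = a' b'`. -/
def Stmt_PX : Prop := ∃ K : ℕ, ∀ (G : Type) [Group G] [Fintype G] [DecidableEq G] (k : ℕ)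
  (FV FC : Finset G), 3 ≤ k → k ∣ Fintype.card G - 1 →
  K * (FV.card + FC.card + 1) ≤ Fintype.card G →
  ∀ a b a' b' : G, a * b = a' * b' → a ≠ a' → a ≠ 1 → b ≠ 1 → a' ≠ 1 → b' ≠ 1 →
  K * rt a ≤ Fintype.card G → K * rt b ≤ Fintype.card G →
  K * rt a' ≤ Fintype.card G → K * rt b' ≤ Fintype.card G →
  ∃ D : Gad G, D.size ≤ K ∧ Fresh k FV FC D ∧
    MS D.idx D.V (a ::ₘ b ::ₘ D.C) ∧ MS D.idx D.V (a' ::ₘ b' ::ₘ D.C)

/-- OrV: a gadget absorbing any one vertex of `Z`. -/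
def Stmt_OrV : Prop := ∃ K : ℕ, ∀ (G : Type) [Group G] [Fintype G] [DecidableEq G] (k : ℕ)
  (FV FC Z : Finset G), 3 ≤ k → k ∣ Fintype.card G - 1 →
  K * (FV.card + FC.card + Z.card + 1) ≤ Fintype.card G →
  ∃ D : Gad G, D.size ≤ K * (Z.card + 1) ∧ Fresh k FV FC D ∧
    ∀ z ∈ Z, MS D.idx (z ::ₘ D.V) D.C

/-- OrP: a gadget absorbing any one pair `{c, c⁻¹ γ}`, `c ∈ Z`. -/
def Stmt_OrP : Prop := ∃ K : ℕ, ∀ (G : Type) [Group G] [Fintype G] [DecidableEq G] (k : ℕ)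
  (γ : G) (FV FC Z : Finset G), 3 ≤ k → k ∣ Fintype.card G - 1 → K * rt γ ≤ Fintype.card G →
  (∀ c ∈ Z, c ≠ 1 ∧ c⁻¹ * γ ≠ 1 ∧ K * rt c ≤ Fintype.card G ∧
    K * rt (c⁻¹ * γ) ≤ Fintype.card G) →
  K * (FV.card + FC.card + Z.card + 1) ≤ Fintype.card G →
  ∃ D : Gad G, D.size ≤ K * (Z.card + 1) ∧ Fresh k FV FC D ∧
    ∀ c ∈ Z, MS D.idx D.V (pr γ c + D.C)

/-- T: template (robustly matchable bipartite graph). -/
def Stmt_T : Prop := ∃ D z₀ : ℕ, ∀ z u : ℕ, z₀ ≤ z → u ≤ z →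
  ∃ E : Finset (Fin (3 * z - u) × (Fin (2 * z) ⊕ Fin z)), E.card ≤ D * z ∧
    ∀ Z : Finset (Fin z), Z.card + u = z →
      ∃ f : Fin (3 * z - u) → Fin (2 * z) ⊕ Fin z, Function.Injective f ∧
        (∀ x, (x, f x) ∈ E) ∧ ∀ x j, f x = Sum.inr j → j ∈ Z

/-- ABS: absorber for a reserve of vertices `R` and pairs (first elements `P`). -/
def Stmt_ABS : Prop := ∃ K : ℕ, ∀ (G : Type) [Group G] [Fintype G] [DecidableEq G] (k : ℕ)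
  (γ : G) (FV FC R P : Finset G) (uV uP : ℕ), 3 ≤ k → k ∣ Fintype.card G - 1 →
  γ * γ = 1 → K * rt γ ≤ Fintype.card G →
  (∀ c ∈ P, c ≠ 1 ∧ c⁻¹ * γ ≠ 1 ∧ K * rt c ≤ Fintype.card G ∧
    K * rt (c⁻¹ * γ) ≤ Fintype.card G) →
  K ≤ R.card → K ≤ P.card → uV ≤ R.card → uP ≤ P.card →
  K * (FV.card + FC.card + R.card + P.card + 1) ≤ Fintype.card G →
  ∃ D : Gad G, D.size ≤ K * (R.card + P.card) ∧ Fresh k FV FC D ∧
    ∀ R' P' : Finset G, R' ⊆ R → P' ⊆ P → R'.card + uV = R.card → P'.card + uP = P.card →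
      MS D.idx (D.V + R'.val) (D.C + prs γ P'.val)

/-- RT: an element `d ≠ 1` has at most `7n/8` square roots. -/
def Stmt_RT : Prop := ∀ (G : Type) [Group G] [Fintype G] [DecidableEq G] (d : G), d ≠ 1 →
  Fintype.card G ≤ 8 * (univ.filter fun x : G => x * x ≠ d).card

/-- PRE: the bad colours can be covered in advance. -/
def Stmt_PRE : Prop := ∀ K₀ : ℕ, ∃ K : ℕ, ∀ (G : Type) [Group G] [Fintype G] [DecidableEq G]
  (k : ℕ) (γ : G), 3 ≤ k → k ∣ Fintype.card G - 1 → K ≤ Fintype.card G →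
  ∃ D : Gad G, D.size ≤ K ∧ Fresh k ∅ ∅ D ∧ MS D.idx D.V D.C ∧
    ∀ d : G, d ≠ 1 → (Fintype.card G < K₀ * rt d ∨ Fintype.card G < K₀ * cj d γ) → d ∈ D.C

/-! ## Group theory -/

/-- GA: an involution (or 1) with few square roots. -/
def Stmt_GA : Prop := ∀ (G : Type) [Group G] [Fintype G] [DecidableEq G],
  ∃ γ : G, γ * γ = 1 ∧ rt γ * rt γ ≤ Fintype.card G

/-- HP: under the Hall-Paige condition the product of all elements is trivial in `G/G'`. -/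
def Stmt_HP : Prop := ∀ (G : Type) [Group G] [Fintype G],
  (∀ P : Sylow 2 G, (P : Subgroup G) = ⊥ ∨ ¬ IsCyclic (P : Subgroup G)) →
  ∏ g : G, Abelianization.of g = 1

/-- COMM: every element of `G'` is a product of at most `n / K` commutators. -/
def Stmt_COMM : Prop := ∀ K : ℕ, ∃ N : ℕ, ∀ (G : Type) [Group G] [Fintype G],
  N ≤ Fintype.card G → ∀ h ∈ commutator G, ∃ L : List (G × G),
    K * L.length ≤ Fintype.card G ∧ (L.map fun p => p.1 * p.2 * p.1⁻¹ * p.2⁻¹).prod = h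

/-! ## Probability -/

/-- MCD: McDiarmid's inequality for finite product spaces. -/
def Stmt_MCD : Prop := ∀ (ι α : Type) [Fintype ι] [DecidableEq ι] [Fintype α] [DecidableEq α]
  (p : ι → α → ℝ) (f : (ι → α) → ℝ) (c : ι → ℝ) (s t : ℝ),
  (∀ i a, 0 ≤ p i a) → (∀ i, ∑ a, p i a = 1) →
  (∀ i (ω ω' : ι → α), (∀ j, j ≠ i → ω j = ω' j) → |f ω - f ω'| ≤ c i) →
  ∑ i, c i ^ 2 ≤ s → 0 < s → 0 ≤ t →
  ∑ ω ∈ univ.filter (fun ω : ι → α => t ≤ |f ω - ∑ ω', (∏ i, p i (ω' i)) * f ω'|),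
    ∏ i, p i (ω i) ≤ 2 * Real.exp (- t ^ 2 / (2 * s))

/-- MCD2: simultaneous concentration of finitely many functions. -/
def Stmt_MCD2 : Prop := ∀ (ι α J : Type) [Fintype ι] [DecidableEq ι] [Fintype α] [DecidableEq α]
  [Fintype J] (p : ι → α → ℝ) (f : J → (ι → α) → ℝ) (c : J → ι → ℝ) (s t : J → ℝ),
  (∀ i a, 0 ≤ p i a) → (∀ i, ∑ a, p i a = 1) →
  (∀ j i (ω ω' : ι → α), (∀ j, j ≠ i → ω j = ω' j) → |f j ω - f j ω'| ≤ c j i) →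
  (∀ j, ∑ i, c j i ^ 2 ≤ s j) → (∀ j, 0 < s j) → (∀ j, 0 ≤ t j) →
  ∑ j, 2 * Real.exp (- t j ^ 2 / (2 * s j)) < 1 / 2 →
  ∀ g : (ι → α) → ℝ, (∀ ω, 0 ≤ g ω) →
  ∃ ω : ι → α, (∀ i, 0 < p i (ω i)) ∧
    (∀ j, |f j ω - ∑ ω', (∏ i, p i (ω' i)) * f j ω'| < t j) ∧
    g ω ≤ 2 * ∑ ω', (∏ i, p i (ω' i)) * g ω'

/-- S: random junction set. -/
def Stmt_S : Prop := ∀ ε : ℝ, 0 < ε → ∃ (δ : ℝ) (N : ℕ), 0 < δ ∧
  ∀ (G : Type) [Group G] [Fintype G] [DecidableEq G], N ≤ Fintype.card G →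
  ∀ (D : Finset G) (m : ℕ), (D.card : ℝ) ≤ δ * Fintype.card G →
  Fintype.card G ≤ 6 * m → 3 * m ≤ Fintype.card G →
  ∃ S : Finset G, Disjoint S D ∧ S.card = m ∧
    (∀ c : G, c ≠ 1 → |((S.filter fun x => x * c ∈ S).card : ℝ) -
      (m : ℝ) ^ 2 / Fintype.card G| ≤ ε * Fintype.card G) ∧
    ∀ a b c : G, a ≠ 1 → b ≠ 1 → c ≠ 1 → a ≠ b → a ≠ c → b ≠ c →
      Fintype.card G ≤ 8 * (univ.filter fun x : G =>
        x ∉ S ∧ x * a ∉ S ∧ x * b ∉ S ∧ x * c ∉ S).card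

/-- RES: reserve of vertices and pairs. -/
def Stmt_RES : Prop := ∀ m A K₀ : ℕ, ∃ K₁ : ℕ, ∀ L : ℕ, ∃ N : ℕ,
  ∀ (G : Type) [Group G] [Fintype G] [DecidableEq G] (γ : G), N ≤ Fintype.card G → γ * γ = 1 →
  K₁ * rt γ ≤ Fintype.card G →
  ∀ (XV XC : Finset G) (fs : List (Fam G)), fs.length ≤ A →
  K₁ * (XV.card + XC.card) ≤ Fintype.card G →
  (∀ F ∈ fs, letI := F.fΩ; letI := F.fP
    Fintype.card F.P ≤ Fintype.card G ^ m ∧
    (∀ π ω, (F.pw π ω).length ≤ A ∧ (F.vw π ω).length ≤ A) ∧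
    (∀ π c, Fintype.card G * (univ.filter fun ω => c ∈ F.pw π ω).card ≤
      F.Lp * Fintype.card F.Ω) ∧
    (∀ π v, Fintype.card G * (univ.filter fun ω => v ∈ F.vw π ω).card ≤
      F.Lv * Fintype.card F.Ω) ∧
    F.Lp ≤ L ∧ F.Lv ≤ L ∧ K₁ * F.Lp * XC.card ≤ Fintype.card G ∧
    K₁ * F.Lv * XV.card ≤ Fintype.card G) →
  ∃ R P : Finset G, Disjoint R XV ∧ (∀ c ∈ P, c ∉ XC ∧ c⁻¹ * γ ∉ XC) ∧
    (prs γ P.val).Nodup ∧ K₀ * R.card ≤ Fintype.card G ∧ K₀ * P.card ≤ Fintype.card G ∧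
    Fintype.card G ≤ K₁ * R.card ∧ Fintype.card G ≤ K₁ * P.card ∧
    ∀ F ∈ fs, Avail γ K₁ R P F

/-! ## Nibble -/

/-- NB: abstract nibble. Edges `e` with an index `ι e` and elements `el e`; a perfect fractional
matching with small codegrees gives an almost perfect matching. -/
def Stmt_NB : Prop := ∀ (r : ℕ) (M η : ℝ), 0 < η → ∃ N : ℕ, ∀ n : ℕ, N ≤ n →
  ∀ (I X E : Type) [Fintype I] [Fintype X] [Fintype E] [DecidableEq I] [DecidableEq X]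
    [DecidableEq E] (ι : E → I) (el : E → Finset X) (w : E → ℝ),
  (Fintype.card I : ℝ) ≤ M * n → (Fintype.card X : ℝ) ≤ M * n → (∀ e, 0 ≤ w e) →
  (∀ e, (el e).card ≤ r) →
  (∀ i, ∑ e ∈ univ.filter (fun e => ι e = i), w e = 1) →
  (∀ x, ∑ e ∈ univ.filter (fun e => x ∈ el e), w e = 1) →
  (∀ i x, ∑ e ∈ univ.filter (fun e => ι e = i ∧ x ∈ el e), w e ≤ M / n) →
  (∀ x x', x ≠ x' → ∑ e ∈ univ.filter (fun e => x ∈ el e ∧ x' ∈ el e), w e ≤ M / n) →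
  ∃ F : Finset E, (∀ e ∈ F, ∀ e' ∈ F, e ≠ e' → ι e ≠ ι e' ∧ Disjoint (el e) (el e')) ∧
    (Fintype.card I : ℝ) ≤ F.card + η * n

/-- LP: adjusting weights. -/
def Stmt_LP : Prop := ∀ (X E : Type) [Fintype X] [Fintype E] [DecidableEq X] [DecidableEq E]
  (el : E → Finset X) (w : E → ℝ), (∀ e, 0 ≤ w e) →
  (∀ y : X → ℝ, ∑ x, y x * (1 - ∑ e ∈ univ.filter (fun e => x ∈ el e), w e) ≤
    ∑ e, w e * |∑ x ∈ el e, y x|) →
  ∃ w' : E → ℝ, (∀ e, 0 ≤ w' e ∧ w' e ≤ 2 * w e) ∧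
    ∀ x, ∑ e ∈ univ.filter (fun e => x ∈ el e), w' e = 1

/-- the hypotheses of the nibble -/
structure NH {G : Type} [Group G] [Fintype G] [DecidableEq G] (ε : ℝ) (I : Finset (Idx G))
    (V C : Finset G) : Prop where
  len : ∀ i ∈ I, i.2.2 = 3 ∨ i.2.2 = 4 ∨ i.2.2 = 5
  src : Set.InjOn (fun i : Idx G => i.1) (I : Set (Idx G))
  tgt : Set.InjOn (fun i : Idx G => i.2.1) (I : Set (Idx G))
  cardV : ∑ i ∈ I, (i.2.2 - 1) = V.card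
  cardC : ∑ i ∈ I, i.2.2 = C.card
  one : (1 : G) ∉ C
  big : Fintype.card G ≤ 6 * I.card
  full : ((univ \ C).card : ℝ) ≤ ε * Fintype.card G
  q2s : ∀ c ∈ C, |((I.filter fun i => i.1 * c ∈ V).card : ℝ) -
    (I.card : ℝ) * V.card / Fintype.card G| ≤ ε * Fintype.card G
  q2t : ∀ c ∈ C, |((I.filter fun i => i.2.1 * c⁻¹ ∈ V).card : ℝ) -
    (I.card : ℝ) * V.card / Fintype.card G| ≤ ε * Fintype.card G
  q2v : ∀ c ∈ C, |((V.filter fun x => x * c ∈ V).card : ℝ) -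
    (V.card : ℝ) ^ 2 / Fintype.card G| ≤ ε * Fintype.card G
  q3 : ∀ a b c : G, a ≠ 1 → b ≠ 1 → c ≠ 1 → a ≠ b → a ≠ c → b ≠ c →
    Fintype.card G ≤ 10 * (V.filter fun x => x * a ∈ V ∧ x * b ∈ V ∧ x * c ∈ V).card
  q5 : ∀ c ∈ C, ((∑ i ∈ I, rt (i.1⁻¹ * i.2.1 * c) : ℕ) : ℝ) ≤ ε * (Fintype.card G : ℝ) ^ 2 ∧
    ((∑ i ∈ I, rt (i.1⁻¹ * i.2.1 * c⁻¹) : ℕ) : ℝ) ≤ ε * (Fintype.card G : ℝ) ^ 2

/-- allowed paths for the index `i` -/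
def pathsF {G : Type} [Group G] [Fintype G] [DecidableEq G] (V C : Finset G) (i : Idx G) :
    Finset (Fin (i.2.2 - 1) → G) :=
  univ.filter fun x => Function.Injective x ∧ (∀ j, x j ∈ V) ∧
    (pcols i.1 (List.ofFn x) i.2.1).Nodup ∧ ∀ c ∈ pcols i.1 (List.ofFn x) i.2.1, c ∈ C

/-- DEG: degrees of the uniform weights. -/
def Stmt_DEG : Prop := ∀ δ : ℝ, 0 < δ → ∃ (ε : ℝ) (N : ℕ), 0 < ε ∧
  ∀ (G : Type) [Group G] [Fintype G] [DecidableEq G] (I : Finset (Idx G)) (V C : Finset G),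
  N ≤ Fintype.card G → NH ε I V C →
  (∀ i ∈ I, (V.card : ℝ) ^ (i.2.2 - 1) ≤ 2 * (pathsF V C i).card) ∧
  (∀ v ∈ V, |(∑ i ∈ I, (((pathsF V C i).filter fun x => ∃ j, x j = v).card : ℝ) /
    (pathsF V C i).card) - 1| ≤ δ) ∧
  (∀ c ∈ C, |(∑ i ∈ I, (((pathsF V C i).filter fun x =>
    c ∈ pcols i.1 (List.ofFn x) i.2.1).card : ℝ) / (pathsF V C i).card) - 1| ≤ δ)

/-- COD: codegrees. -/
def Stmt_COD : Prop := ∃ M : ℝ,
  ∀ (G : Type) [Group G] [Fintype G] [DecidableEq G] (I : Finset (Idx G)) (V C : Finset G),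
  (∀ i ∈ I, i.2.2 = 3 ∨ i.2.2 = 4 ∨ i.2.2 = 5) →
  Set.InjOn (fun i : Idx G => i.1) (I : Set (Idx G)) →
  Set.InjOn (fun i : Idx G => i.2.1) (I : Set (Idx G)) →
  (Fintype.card G : ℝ) ≤ 6 * V.card →
  (∀ i ∈ I, (V.card : ℝ) ^ (i.2.2 - 1) ≤ 2 * (pathsF V C i).card) →
  (∀ i ∈ I, ∀ v, (((pathsF V C i).filter fun x => ∃ j, x j = v).card : ℝ) /
    (pathsF V C i).card ≤ M / Fintype.card G) ∧
  (∀ i ∈ I, ∀ c, (((pathsF V C i).filter fun x =>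
    c ∈ pcols i.1 (List.ofFn x) i.2.1).card : ℝ) / (pathsF V C i).card ≤ M / Fintype.card G) ∧
  (∀ v v', v ≠ v' → ∑ i ∈ I, (((pathsF V C i).filter fun x =>
    (∃ j, x j = v) ∧ ∃ j, x j = v').card : ℝ) / (pathsF V C i).card ≤ M / Fintype.card G) ∧
  (∀ v c, ∑ i ∈ I, (((pathsF V C i).filter fun x =>
    (∃ j, x j = v) ∧ c ∈ pcols i.1 (List.ofFn x) i.2.1).card : ℝ) /
      (pathsF V C i).card ≤ M / Fintype.card G) ∧
  (∀ c c', c ≠ c' → ∑ i ∈ I, (((pathsF V C i).filter fun x =>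
    c ∈ pcols i.1 (List.ofFn x) i.2.1 ∧ c' ∈ pcols i.1 (List.ofFn x) i.2.1).card : ℝ) /
      (pathsF V C i).card ≤ M / Fintype.card G)

/-- QC: a function with small second differences is almost constant. -/
def Stmt_QC : Prop := ∃ (K ε : ℝ) (N : ℕ), 0 < ε ∧
  ∀ (G : Type) [Group G] [Fintype G] [DecidableEq G] (C : Finset G) (Y : G → ℝ),
  N ≤ Fintype.card G → ((univ \ C).card : ℝ) ≤ ε * Fintype.card G →
  ∃ κ : ℝ, (Fintype.card G : ℝ) ^ 2 * ∑ c ∈ C, |Y c - κ| ≤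
    K * ∑ t ∈ (univ : Finset (G × G × G)).filter (fun t => t.1 ∈ C ∧ t.2.1 ∈ C ∧ t.2.2 ∈ C ∧
        t.2.1 * t.1⁻¹ * t.2.2 ∈ C ∧ t.1 ≠ t.2.1 ∧ t.1 ≠ t.2.2 ∧ t.2.1 ≠ t.2.2 ∧
        t.2.1 * t.1⁻¹ * t.2.2 ≠ t.1),
      |Y t.1 - Y t.2.1 - Y t.2.2 + Y (t.2.1 * t.1⁻¹ * t.2.2)|

/-- INEQ: the inequality behind the exact weights. -/
def Stmt_INEQ : Prop := ∃ (K ε : ℝ) (N : ℕ), 0 < ε ∧
  ∀ (G : Type) [Group G] [Fintype G] [DecidableEq G] (I : Finset (Idx G)) (V C : Finset G),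
  N ≤ Fintype.card G → NH ε I V C → ∀ (yI : Idx G → ℝ) (yV yC : G → ℝ), ∃ κV κC : ℝ,
  ∑ v ∈ V, |yV v - κV| + ∑ c ∈ C, |yC c - κC| ≤
    K * ∑ i ∈ I, (∑ x ∈ pathsF V C i, |yI i + ∑ j, yV (x j) +
      ((pcols i.1 (List.ofFn x) i.2.1).map yC).sum|) / (pathsF V C i).card

/-- NIB: almost all indices can be filled. -/
def Stmt_NIB : Prop := ∃ ε : ℝ, 0 < ε ∧ ∀ η : ℝ, 0 < η → ∃ N : ℕ,
  ∀ (G : Type) [Group G] [Fintype G] [DecidableEq G] (I : Finset (Idx G)) (V C : Finset G),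
  N ≤ Fintype.card G → NH ε I V C →
  ∃ (I' : Finset (Idx G)) (V' C' : Finset G), I' ⊆ I ∧ V' ⊆ V ∧ C' ⊆ C ∧
    MS I'.val V'.val C'.val ∧ ((I \ I').card : ℝ) ≤ η * Fintype.card G

/-! ## Global structure -/

section
variable {G : Type}

def cidxAux (s₀ : G) : List (G × ℕ) → Multiset (Idx G)
  | [] => 0
  | [(s, ℓ)] => {(s, s₀, ℓ)}
  | (s, ℓ) :: (s', ℓ') :: L => (s, s', ℓ) ::ₘ cidxAux s₀ ((s', ℓ') :: L)

/-- the indices of a cycle given by its junctions and segment lengths -/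
def cidx : List (G × ℕ) → Multiset (Idx G)
  | [] => 0
  | (s, ℓ) :: L => cidxAux s ((s, ℓ) :: L)

end

/-- PLACE: arrangement of the junctions in cycles. -/
def Stmt_PLACE : Prop := ∀ E : ℕ, ∃ K N : ℕ,
  ∀ (G : Type) [Group G] [Fintype G] [DecidableEq G] (k : ℕ), N ≤ Fintype.card G → 3 ≤ k →
  k ∣ Fintype.card G - 1 → ∀ T : Multiset (SI G), (T.bind (jl k)).Nodup →
  (k = 3 → ∀ i ∈ T, i.2.1 = i.1) → K * Multiset.card T ≤ Fintype.card G →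
  ∃ m : ℕ, Fintype.card G ≤ 6 * m ∧ 3 * m ≤ Fintype.card G ∧
    ∀ S : Finset G, S.card = m → (∀ x ∈ T.bind (jl k), x ∉ S) →
    ∃ (L : List (List (G × ℕ))) (I : Finset (Idx G)),
      (∀ c ∈ L, (c.map Prod.snd).sum = k ∧ ∀ x ∈ c, 1 ≤ x.2) ∧
      L.length * k + 1 = Fintype.card G ∧
      (L.map cidx).sum = I.val + T.map sidx + T.bind (tidx k) ∧
      (L.map fun c => ((c.map Prod.fst : List G) : Multiset G)).sum = S.val + T.bind (jl k) ∧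
      (∀ i ∈ I, i.2.2 = 3 ∨ i.2.2 = 4 ∨ i.2.2 = 5) ∧
      Set.InjOn (fun i : Idx G => i.1) (I : Set (Idx G)) ∧
      Set.InjOn (fun i : Idx G => i.2.1) (I : Set (Idx G)) ∧
      (∀ x ∈ S, ∃ i ∈ I, i.1 = x) ∧ (∀ i ∈ I, i.1 ∈ S ∨ i.1 ∈ T.bind (jl k)) ∧
      (∀ x ∈ S, ∃ i ∈ I, i.2.1 = x) ∧ (∀ i ∈ I, i.2.1 ∈ S ∨ i.2.1 ∈ T.bind (jl k)) ∧
      ((∀ i ∈ I, i.2.1 = i.1) ∨
        ∀ g : G, E * (I.filter fun i => i.1⁻¹ * i.2.1 = g).card ≤ Fintype.card G)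

/-- FIN: from the segments to the orthomorphism. -/
def Stmt_FIN : Prop := ∀ (G : Type) [Group G] [Fintype G] [DecidableEq G] (k : ℕ), 1 ≤ k →
  ∀ (L : List (List (G × ℕ))), (∀ c ∈ L, (c.map Prod.snd).sum = k ∧ ∀ x ∈ c, 1 ≤ x.2) →
  ∀ (V C : Multiset G) (v₀ : G), MS (L.map cidx).sum V C →
  (L.map fun c => ((c.map Prod.fst : List G) : Multiset G)).sum + V = (univ.erase v₀).val →
  C = (univ.erase (1 : G)).val →
  ∃ θ : Equiv.Perm G, Function.Bijective (fun x : G => x⁻¹ * θ x) ∧ θ 1 = 1 ∧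
    ∀ x : G, x ≠ 1 → Function.minimalPeriod θ x = k

end Pool.OM
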