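import Pool.Agent.Work.MP_8d2cba_co_h18.Interface

/-! MP_8d2cba_co: PREP, from the random set and the placement to the nibble hypotheses. -/

set_option autoImplicit false

namespace Pool.OM

open Finset

/-- PREP: the hypotheses of the nibble. `D` = all vertices used otherwise, `J ⊆ D` the junctions of
the special indices, `V` the rest. -/
def Stmt_PREP : Prop := ∀ ε : ℝ, 0 < ε → ∃ (δ : ℝ) (E N : ℕ), 0 < δ ∧
  ∀ (G : Type) [Group G] [Fintype G] [DecidableEq G], N ≤ Fintype.card G →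
  ∀ (D S V C : Finset G) (J : Finset G) (I : Finset (Idx G)),
  (D.card : ℝ) ≤ δ * Fintype.card G → Disjoint S D → J ⊆ D → V = univ \ (S ∪ D) →
  Fintype.card G ≤ 6 * S.card → 3 * S.card ≤ Fintype.card G →
  (∀ c : G, c ≠ 1 → |((S.filter fun x => x * c ∈ S).card : ℝ) -
      (S.card : ℝ) ^ 2 / Fintype.card G| ≤ δ * Fintype.card G) →
  (∀ a b c : G, a ≠ 1 → b ≠ 1 → c ≠ 1 → a ≠ b → a ≠ c → b ≠ c →
      Fintype.card G ≤ 8 * (univ.filter fun x : G =>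
        x ∉ S ∧ x * a ∉ S ∧ x * b ∉ S ∧ x * c ∉ S).card) →
  (∀ i ∈ I, i.2.2 = 3 ∨ i.2.2 = 4 ∨ i.2.2 = 5) →
  Set.InjOn (fun i : Idx G => i.1) (I : Set (Idx G)) →
  Set.InjOn (fun i : Idx G => i.2.1) (I : Set (Idx G)) →
  (∀ x ∈ S, ∃ i ∈ I, i.1 = x) → (∀ i ∈ I, i.1 ∈ S ∨ i.1 ∈ J) →
  (∀ x ∈ S, ∃ i ∈ I, i.2.1 = x) → (∀ i ∈ I, i.2.1 ∈ S ∨ i.2.1 ∈ J) →
  ∑ i ∈ I, (i.2.2 - 1) = V.card → ∑ i ∈ I, i.2.2 = C.card → (1 : G) ∉ C →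
  ((univ \ C).card : ℝ) ≤ δ * Fintype.card G →
  (((∀ i ∈ I, i.2.1 = i.1) ∧ ∀ c ∈ C, E * rt c ≤ Fintype.card G) ∨
    ∀ g : G, E * (I.filter fun i => i.1⁻¹ * i.2.1 = g).card ≤ Fintype.card G) →
  NH ε I V C

end Pool.OM
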