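import Pool.Agent.Work.MP_8d2cba_co_h18.Core
import Pool.Agent.Work.MP_8d2cba_co_h18.Interface3

/-! MP_8d2cba_co: the main assembly. -/

set_option autoImplicit false
set_option linter.unusedSectionVars false
set_option linter.unusedVariables false

namespace Pool.OM

open Finset

section small
variable {G : Type} [Group G] [Fintype G] [DecidableEq G]

theorem le_of_sq {K a n : ℕ} (h1 : a * a ≤ n) (h2 : K * K ≤ n) : K * a ≤ n := by
  rcases le_total K a with h | h
  · exact (Nat.mul_le_mul_right _ h).trans h1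
  · exact (Nat.mul_le_mul_left _ h).trans h2

/-- the family giving the covering of all vertices by couple sources -/
def qFam (SQ : Finset G) (Lp : ℕ) : Fam G where
  P := G
  Ω := {s // s ∈ SQ}
  fP := inferInstance
  fΩ := inferInstance
  pw v s := [(s : G)⁻¹ * v]
  vw _ _ := []
  Lp := Lp
  Lv := 0

theorem qFam_cover {γ : G} (hγ : γ * γ = 1) {K₁ Lp : ℕ} {R P SQ : Finset G}
    (h : Avail γ K₁ R P (qFam SQ Lp)) (hr : 2 * rt γ ≤ SQ.card) (v : G) :
    SQ.card ≤ K₁ * (SQ.filter fun s => s⁻¹ * v ∈ P).card := by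
  classical
  have h1 := h v
  have hc : @Fintype.card (qFam SQ Lp).Ω (qFam SQ Lp).fΩ = SQ.card := Fintype.card_coe SQ
  rw [hc] at h1
  have h2 : SQ.card ≤ 2 * (univ.filter fun ω : {s // s ∈ SQ} =>
      CF γ [(ω : G)⁻¹ * v] []).card := by
    have h3 : (univ.filter fun ω : {s // s ∈ SQ} => ¬ CF γ [(ω : G)⁻¹ * v] []).card ≤ rt γ := by
      unfold rt
      refine Finset.card_le_card_of_injOn (fun ω => (ω : G)⁻¹ * v) ?_ ?_
      · intro ω hω
        simp only [Finset.coe_filter, Finset.mem_univ, true_and, Set.mem_setOf_eq] at hω ⊢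
        by_contra hne
        apply hω
        refine ⟨?_, List.nodup_nil⟩
        simp only [prs, pr, Multiset.coe_singleton, Multiset.singleton_bind,
          Multiset.insert_eq_cons, Multiset.nodup_cons, Multiset.mem_singleton,
          Multiset.nodup_singleton, and_true]
        intro he
        apply hne
        exact eq_inv_mul_iff_mul_eq.1 he
      · intro a _ b _ hab
        have : (a : G)⁻¹ = (b : G)⁻¹ := mul_right_cancel hab
        exact Subtype.ext (inv_injective this)
    have h4 := Finset.card_filter_add_card_filter_not (s := (univ : Finset {s // s ∈ SQ}))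
      (fun ω : {s // s ∈ SQ} => CF γ [(ω : G)⁻¹ * v] [])
    rw [Finset.card_univ, Fintype.card_coe] at h4
    omega
  have h5 := h1 h2
  refine h5.trans (Nat.mul_le_mul_left _ ?_)
  refine Finset.card_le_card_of_injOn (fun ω : {s // s ∈ SQ} => (ω : G)) ?_ ?_
  · intro ω hω
    simp only [Finset.coe_filter, Finset.mem_univ, true_and, Set.mem_setOf_eq] at hω ⊢
    exact ⟨ω.2, hω.2.1 _ (by simp [qFam])⟩
  · intro a _ b _ hab
    exact Subtype.ext hab

theorem image_cover {K₁ : ℕ} {P SQ : Finset G} {Q : Finset (Cp G)} (hQ : Q.image Cp.s = SQ)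
    (hc : Q.card = SQ.card) {v : G}
    (h : SQ.card ≤ K₁ * (SQ.filter fun s => s⁻¹ * v ∈ P).card) :
    Q.card ≤ K₁ * (Q.filter fun c => c.s⁻¹ * v ∈ P).card := by
  rw [hc]
  refine h.trans (Nat.mul_le_mul_left _ ?_)
  have : (SQ.filter fun s => s⁻¹ * v ∈ P) ⊆ (Q.filter fun c => c.s⁻¹ * v ∈ P).image Cp.s := by
    intro s hs
    rw [Finset.mem_filter] at hs
    rw [← hQ, Finset.mem_image] at hs
    obtain ⟨⟨c, hc, rfl⟩, h2⟩ := hs
    exact Finset.mem_image.2 ⟨c, Finset.mem_filter.2 ⟨hc, h2⟩, rfl⟩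
  exact (Finset.card_le_card this).trans Finset.card_image_le

theorem partition_val {A B : Finset G} {T : Multiset G} {v₀ : G} (hT : T.Nodup)
    (hA : Disjoint A (insert v₀ T.toFinset)) (hv : v₀ ∉ T)
    (hB : B = univ \ (A ∪ insert v₀ T.toFinset)) :
    A.val + T + B.val + {v₀} = (univ : Finset G).val := by
  have nd : (A.val + T + B.val + {v₀}).Nodup := by
    rw [Multiset.nodup_add, Multiset.nodup_add, Multiset.nodup_add]
    refine ⟨⟨⟨A.nodup, hT, ?_⟩, B.nodup, ?_⟩, Multiset.nodup_singleton _, ?_⟩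
    · rw [Multiset.disjoint_left]
      intro a ha ha'
      exact Finset.disjoint_left.1 hA ha (by simp [ha'])
    · rw [Multiset.disjoint_left]
      intro a ha ha'
      have : a ∈ B := ha'
      rw [hB, Finset.mem_sdiff] at this
      apply this.2
      rcases Multiset.mem_add.1 ha with h | h
      · exact Finset.mem_union_left _ h
      · exact Finset.mem_union_right _ (by simp [h])
    · rw [Multiset.disjoint_left]
      intro a ha ha'
      rw [Multiset.mem_singleton] at ha'
      subst ha'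
      rcases Multiset.mem_add.1 ha with h | h
      · rcases Multiset.mem_add.1 h with h | h
        · exact Finset.disjoint_left.1 hA h (by simp)
        · exact hv h
      · have : a ∈ B := h
        rw [hB, Finset.mem_sdiff] at this
        exact this.2 (Finset.mem_union_right _ (by simp))
  rw [Multiset.Nodup.ext nd univ.nodup]
  intro a
  constructor
  · intro _; exact Finset.mem_univ a
  · intro _
    by_cases h1 : a ∈ A
    · exact Multiset.mem_add.2 (Or.inl (Multiset.mem_add.2 (Or.inl (Multiset.mem_add.2 (Or.inl h1)))))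
    · by_cases h2 : a = v₀
      · exact Multiset.mem_add.2 (Or.inr (Multiset.mem_singleton.2 h2))
      · by_cases h3 : a ∈ T
        · exact Multiset.mem_add.2 (Or.inl (Multiset.mem_add.2 (Or.inl (Multiset.mem_add.2 (Or.inr h3)))))
        · refine Multiset.mem_add.2 (Or.inl (Multiset.mem_add.2 (Or.inr ?_)))
          have : a ∈ B := by
            rw [hB, Finset.mem_sdiff]
            refine ⟨Finset.mem_univ _, ?_⟩
            simp [h1, h2, h3]
          exact this

theorem nodup4 {a b c d : Multiset G} (ha : a.Nodup) (hb : b.Nodup) (hc : c.Nodup) (hd : d.Nodup)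
    (hab : ∀ x ∈ b, x ∉ a) (hac : ∀ x ∈ c, x ∉ a) (hbc : ∀ x ∈ c, x ∉ b)
    (had : ∀ x ∈ d, x ∉ a) (hbd : ∀ x ∈ d, x ∉ b) (hcd : ∀ x ∈ d, x ∉ c) :
    (a + b + c + d).Nodup := by
  rw [Multiset.nodup_add, Multiset.nodup_add, Multiset.nodup_add]
  refine ⟨⟨⟨ha, hb, ?_⟩, hc, ?_⟩, hd, ?_⟩
  · rw [Multiset.disjoint_right]; intro x hx; exact hab x hx
  · rw [Multiset.disjoint_right]
    intro x hx hx'
    rcases Multiset.mem_add.1 hx' with h | h
    · exact hac x hx h
    · exact hbc x hx h
  · rw [Multiset.disjoint_right]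
    intro x hx hx'
    rcases Multiset.mem_add.1 hx' with h | h
    · rcases Multiset.mem_add.1 h with h | h
      · exact had x hx h
      · exact hbd x hx h
    · exact hcd x hx h

end small

/-- the conclusion of the frozen statement -/
def Concl : Prop := ∃ N : ℕ, ∀ (G : Type) [Group G] [Fintype G],
      N ≤ Fintype.card G →
      (∀ P : Sylow 2 G, (P : Subgroup G) = ⊥ ∨ ¬ IsCyclic (P : Subgroup G)) →
      ∀ k : ℕ, 3 ≤ k → k ∣ Fintype.card G - 1 →
        ∃ θ : Equiv.Perm G,
          Function.Bijective (fun x : G => x⁻¹ * θ x) ∧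
          θ 1 = 1 ∧
          ∀ x : G, x ≠ 1 → Function.minimalPeriod θ x = k

theorem main (hGA : Stmt_GA) (hHP : Stmt_HP) (hPRE : Stmt_PRE) (hRES : Stmt_RES)
    (hABS : Stmt_ABS) (hCPL : Stmt_CPL) (hPL : Stmt_PLACE) (hS : Stmt_S) (hPREP : Stmt_PREP)
    (hNIB : Stmt_NIB) (hCOV : Stmt_COV) (hFIN : Stmt_FIN) (hFAM : Stmt_FAM) : Concl := by
  obtain ⟨ε, hε, hNIB⟩ := hNIB
  obtain ⟨δ, E, N1, hδ, hPREP⟩ := hPREP ε hε
  obtain ⟨δS, N2, hδS, hS⟩ := hS δ hδ
  obtain ⟨KA, hABS⟩ := hABS
  obtain ⟨KP, N3, hPL⟩ := hPL E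
  obtain ⟨Z, hZ⟩ : ∃ Z : ℕ, ∀ a n : ℕ, Z * a ≤ n → (a : ℝ) ≤ δ * n ∧ (a : ℝ) ≤ δS * n := by
    refine ⟨⌈1 / δ⌉₊ + ⌈1 / δS⌉₊, fun a n h => ?_⟩
    have hn : (((⌈1 / δ⌉₊ + ⌈1 / δS⌉₊ : ℕ) : ℝ) * a) ≤ n := by exact_mod_cast h
    push_cast at hn
    have h1 : 1 / δ ≤ (⌈1 / δ⌉₊ : ℝ) := Nat.le_ceil _
    have h2 : 1 / δS ≤ (⌈1 / δS⌉₊ : ℝ) := Nat.le_ceil _
    have ha : (0 : ℝ) ≤ a := Nat.cast_nonneg a
    have p1 : 0 < 1 / δ := by positivity
    have p2 : 0 < 1 / δS := by positivity
    constructor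
    · have : 1 / δ * a ≤ n := by nlinarith
      calc (a : ℝ) = δ * (1 / δ * a) := by field_simp
        _ ≤ δ * n := by gcongr
    · have : 1 / δS * a ≤ n := by nlinarith
      calc (a : ℝ) = δS * (1 / δS * a) := by field_simp
        _ ≤ δS * n := by gcongr
  set W := KA + Z + KP + 100 with hW
  obtain ⟨K1, hRES⟩ := hRES 23 20 (10000 * W * W)
  obtain ⟨KC, hCOV⟩ := hCOV K1
  obtain ⟨KQ, hCPL⟩ := hCPL KC
  obtain ⟨s0, hPRE⟩ := hPRE (KC + KA + E)
  set M := 5000 * W + 100 * KC + 10 * KQ + 100 * K1 with hM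
  obtain ⟨N4, hRES⟩ := hRES (20 + 2 * M)
  obtain ⟨K3, N5, hCOV⟩ := hCOV (2 * M)
  obtain ⟨N6, hNIB⟩ := hNIB (1 / (K3 + 1)) (by positivity)
  refine ⟨N1 + N2 + N3 + N4 + N5 + N6 + (M * (K1 + 5) * (s0 + 1) * 1000) +
    (KC + KA + KQ + K1 + M + 10 + s0) * (KC + KA + KQ + K1 + M + 10 + s0) * 1000, ?_⟩
  intro G _ _ hN hsyl k hk hkd
  classical
  set n := Fintype.card G with hn
  have hn1 : 0 < n := Fintype.card_pos
  have hp := hHP G hsyl
  obtain ⟨γ, hγ, hrt⟩ := hGA G
  -- multiples of rt γ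
  set B := KC + KA + KQ + K1 + M + 10 + s0 with hB
  have hBB : 1000 * (B * B) ≤ n := by
    have : B * B * 1000 ≤ n := by omega
    omega
  have hrtK : ∀ K : ℕ, K ≤ 10 * B → K * rt γ ≤ n := by
    intro K hK
    refine le_of_sq hrt ?_
    calc K * K ≤ (10 * B) * (10 * B) := Nat.mul_le_mul hK hK
      _ = 100 * (B * B) := by ring
      _ ≤ n := by omega
  have hBn : 1000 * B ≤ n := by
    have : B ≤ B * B := Nat.le_mul_self B
    omega
  have hMs : M * (K1 + 5) * (s0 + 1) * 1000 ≤ n := by omega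
  -- PRE
  obtain ⟨Dp, hDps, hDpf, hDpm, hDpb⟩ := hPRE G k γ hk hkd (by omega)
  -- number of couples
  set r := n / M with hr
  have hM0 : 0 < M := by omega
  have hMr : M * r ≤ n := Nat.mul_div_le n M
  have hMr2 : n < M * (r + 1) := Nat.lt_mul_div_succ n hM0
  have hr1 : 1000 * ((K1 + 5) * (s0 + 1)) ≤ r := by
    rw [hr, Nat.le_div_iff_mul_le hM0]
    calc 1000 * ((K1 + 5) * (s0 + 1)) * M = M * (K1 + 5) * (s0 + 1) * 1000 := by ring
      _ ≤ n := hMs
  have hr2 : n ≤ 2 * M * r := by
    have h1 : 1 ≤ r := by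
      have : 0 < (K1 + 5) * (s0 + 1) := by positivity
      omega
    have : M * (r + 1) ≤ 2 * M * r := by
      calc M * (r + 1) ≤ M * (r + r) := by gcongr
        _ = 2 * M * r := by ring
    omega
  -- sizes of Dp
  have hv1 := Dp.card_vf_le k
  have hc1 := Dp.card_cf_le k
  have hs0r : 1000 * s0 ≤ r := by
    have : s0 ≤ (K1 + 5) * (s0 + 1) := by nlinarith
    omega
  have hrn : 5000 * (W * r) ≤ n := by
    calc 5000 * (W * r) = 5000 * W * r := by ring
      _ ≤ M * r := Nat.mul_le_mul_right _ (by omega)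
      _ ≤ n := hMr
  have hWr : 100 * r ≤ W * r := Nat.mul_le_mul_right _ (by omega)
  -- S_Q
  obtain ⟨SQ, hSQs, hSQc⟩ := Finset.exists_subset_card_eq
    (show r ≤ (univ \ Dp.vf k : Finset G).card by
      rw [Finset.card_univ_diff]; omega)
  have hSQd : Disjoint SQ (Dp.vf k) := by
    rw [Finset.disjoint_left]; intro x hx
    exact (Finset.mem_sdiff.1 (hSQs hx)).2
  -- RES
  have hK1r : 100 * (K1 * r) ≤ n := by
    calc 100 * (K1 * r) = 100 * K1 * r := by ring
      _ ≤ M * r := Nat.mul_le_mul_right _ (by omega)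
      _ ≤ n := hMr
  have hK1s : 1000 * (K1 * (s0 + 1)) ≤ r := by
    have : K1 * (s0 + 1) ≤ (K1 + 5) * (s0 + 1) := Nat.mul_le_mul_right _ (by omega)
    omega
  have hXV : (Dp.vf k ∪ SQ).card ≤ 3 * s0 + r := (card_union_le _ _).trans (by omega)
  have hXC : (insert 1 (Dp.cf k)).card ≤ 2 * s0 + 1 := (card_insert_le _ _).trans (by omega)
  have hK1XV : K1 * (Dp.vf k ∪ SQ).card ≤ K1 * (s0 + 1) * 3 + K1 * r := by
    calc K1 * (Dp.vf k ∪ SQ).card ≤ K1 * (3 * s0 + r) := Nat.mul_le_mul_left _ hXV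
      _ ≤ K1 * (3 * (s0 + 1) + r) := Nat.mul_le_mul_left _ (by omega)
      _ = _ := by ring
  have hK1XC : K1 * (insert 1 (Dp.cf k)).card ≤ K1 * (s0 + 1) * 2 := by
    calc K1 * (insert 1 (Dp.cf k)).card ≤ K1 * (2 * s0 + 1) := Nat.mul_le_mul_left _ hXC
      _ ≤ K1 * (2 * (s0 + 1)) := Nat.mul_le_mul_left _ (by omega)
      _ = _ := by ring
  obtain ⟨R, P, hRX, hPX, hPnd, hR0, hP0, hR1, hP1, hAv⟩ := hRES G γ (by omega) hγ
    (hrtK _ (by omega)) (Dp.vf k ∪ SQ) (insert 1 (Dp.cf k)) (qFam SQ (2 * M) :: covFams γ)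
    (by simp [covFams])
    (by rw [Nat.mul_add]; omega)
    (by
      intro F hF
      rcases List.mem_cons.1 hF with rfl | hF
      · refine ⟨?_, ?_, ?_, ?_, ?_, ?_, ?_, ?_⟩
        · show Fintype.card G ≤ _
          exact Nat.le_self_pow (by norm_num) _
        · intro π ω; simp [qFam]
        · intro π c
          change G at π
          have hcard : @Fintype.card (qFam SQ (2 * M)).Ω (qFam SQ (2 * M)).fΩ = SQ.card :=
            Fintype.card_coe SQ
          rw [hcard, hSQc]
          show n * _ ≤ 2 * M * r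
          have : (univ.filter fun ω : {s // s ∈ SQ} => c ∈ [(ω : G)⁻¹ * π]).card ≤ 1 := by
            rw [Finset.card_le_one]
            intro a ha b hb
            simp only [Finset.mem_filter, Finset.mem_univ, true_and, List.mem_singleton] at ha hb
            have : (a : G)⁻¹ * π = (b : G)⁻¹ * π := by rw [← ha, ← hb]
            exact Subtype.ext (inv_injective (mul_right_cancel this))
          calc n * _ ≤ n * 1 := Nat.mul_le_mul_left _ this
            _ ≤ _ := by omega
        · intro π v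
          have : (univ.filter fun ω : {s // s ∈ SQ} => v ∈ ([] : List G)).card = 0 := by simp
          show n * (univ.filter fun ω : {s // s ∈ SQ} => v ∈ ([] : List G)).card ≤ 0 * _
          rw [this]; simp
        · show 2 * M ≤ 20 + 2 * M
          omega
        · exact Nat.zero_le _
        · show K1 * (2 * M) * _ ≤ n
          calc K1 * (2 * M) * (insert 1 (Dp.cf k)).card
              = 2 * M * (K1 * (insert 1 (Dp.cf k)).card) := by ring
            _ ≤ 2 * M * (K1 * (s0 + 1) * 2) := Nat.mul_le_mul_left _ hK1XC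
            _ ≤ 2 * M * ((K1 + 5) * (s0 + 1) * 2) := by gcongr; omega
            _ ≤ M * (K1 + 5) * (s0 + 1) * 1000 := by nlinarith [Nat.zero_le (M * ((K1 + 5) * (s0 + 1)))]
            _ ≤ n := hMs
        · show K1 * 0 * _ ≤ n
          simp
      · obtain ⟨f1, f2, f3, f4, f5, f6⟩ := hFAM G γ hγ F hF
        refine ⟨f1, f2, f3, f4, by omega, by omega, ?_, ?_⟩
        · calc K1 * F.Lp * (insert 1 (Dp.cf k)).card
              = F.Lp * (K1 * (insert 1 (Dp.cf k)).card) := by ring
            _ ≤ 20 * (K1 * (s0 + 1) * 2) := Nat.mul_le_mul f5 hK1XC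
            _ ≤ n := by omega
        · calc K1 * F.Lv * (Dp.vf k ∪ SQ).card
              = F.Lv * (K1 * (Dp.vf k ∪ SQ).card) := by ring
            _ ≤ 20 * (K1 * (s0 + 1) * 3 + K1 * r) := Nat.mul_le_mul f6 hK1XV
            _ ≤ n := by omega)
  -- nonbad colours
  have hNB : ∀ c : G, c ∉ insert 1 (Dp.cf k) → NBad (KC + KA + E) γ c := by
    intro c hc
    have h1 : c ≠ 1 := fun h => hc (by simp [h])
    have h2 : c ∉ Dp.C := by
      intro h
      apply hc
      apply Finset.mem_insert_of_mem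
      rw [Gad.cf, Multiset.mem_toFinset, Gad.cols]
      exact Multiset.mem_add.2 (Or.inl h)
    refine ⟨h1, ?_, ?_⟩
    · by_contra h; exact h2 (hDpb c h1 (Or.inl (by omega)))
    · by_contra h; exact h2 (hDpb c h1 (Or.inr (by omega)))
  have hnbP : ∀ c ∈ P, NBad (KC + KA + E) γ c ∧ NBad (KC + KA + E) γ (c⁻¹ * γ) :=
    fun c hc => ⟨hNB c (hPX c hc).1, hNB _ (hPX c hc).2⟩
  -- sizes
  set x := W * (R.card + P.card) with hx
  have hWx : 5000 * (W * x) ≤ n := by
    have h1 : 10000 * W * W * R.card + 10000 * W * W * P.card ≤ 2 * n := by omega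
    have h2 : 10000 * W * W * R.card + 10000 * W * W * P.card = 10000 * (W * x) := by
      rw [hx]; ring
    have h3 : 10000 * (W * x) ≤ 2 * n := h2 ▸ h1
    clear h1 h2
    linarith
  have hWx2 : 100 * x ≤ W * x := Nat.mul_le_mul_right _ (by omega)
  have hRPx : R.card + P.card ≤ x := Nat.le_mul_of_pos_left _ (by omega)
  have hKAx : KA * (R.card + P.card) ≤ x := Nat.mul_le_mul_right _ (by omega)
  have hWr1 : W ≤ W * r := Nat.le_mul_of_pos_right _ (by
    have : 0 < (K1 + 5) * (s0 + 1) := by positivity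
    omega)
  have hr0 : 0 < r := by
    have : 0 < (K1 + 5) * (s0 + 1) := by positivity
    omega
  set PF : Finset G := (prs γ P.val).toFinset with hPF
  have hPFc : PF.card ≤ 2 * P.card :=
    (Multiset.toFinset_card_le _).trans (by rw [card_prs]; rfl)
  have hPFmem : ∀ c ∈ prs γ P.val, c ∉ insert 1 (Dp.cf k) := by
    intro c hc
    obtain ⟨a, ha, h | h⟩ := mem_prs.1 hc
    · rw [h]; exact (hPX a ha).1
    · rw [h]; exact (hPX a ha).2
  have hK1pos : 0 < K1 := by
    rcases Nat.eq_zero_or_pos K1 with h | h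
    · rw [h] at hR1; omega
    · exact h
  have hRbig : ∀ a : ℕ, K1 * a < n → a ≤ R.card := by
    intro a ha
    by_contra h
    push Not at h
    have : K1 * R.card ≤ K1 * a := Nat.mul_le_mul_left _ h.le
    omega
  have hPbig : ∀ a : ℕ, K1 * a < n → a ≤ P.card := by
    intro a ha
    by_contra h
    push Not at h
    have : K1 * P.card ≤ K1 * a := Nat.mul_le_mul_left _ h.le
    omega
  have hK1KA : K1 * KA < n := by
    have : K1 * KA ≤ B * B := Nat.mul_le_mul (by omega) (by omega)
    have : 0 < B * B := by positivity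
    omega
  have hK1r4 : K1 * (4 * r) < n := by
    have : K1 * (4 * r) = 4 * (K1 * r) := by ring
    have : 0 < K1 * r := by positivity
    omega
  have hSQR : Disjoint SQ R := by
    rw [Finset.disjoint_left]
    intro a ha ha'
    exact Finset.disjoint_left.1 hRX ha' (Finset.mem_union_right _ ha)
  -- ABS
  obtain ⟨Da, hDas, hDaf, hDam⟩ := hABS G k γ (Dp.vf k ∪ SQ ∪ R) (Dp.cf k ∪ PF) R P (4 * r)
    (3 * r) hk hkd hγ (hrtK _ (by omega))
    (fun c hc => ⟨(hnbP c hc).1.ne, (hnbP c hc).2.ne,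
      le_trans (Nat.mul_le_mul_right _ (by omega)) (hnbP c hc).1.rt,
      le_trans (Nat.mul_le_mul_right _ (by omega)) (hnbP c hc).2.rt⟩)
    (hRbig _ hK1KA) (hPbig _ hK1KA) (hRbig _ hK1r4)
    ((show 3 * r ≤ 4 * r by omega).trans (hPbig _ hK1r4))
    (by
      have h1 : (Dp.vf k ∪ SQ ∪ R).card ≤ 3 * s0 + r + R.card :=
        (card_union_le _ _).trans (by omega)
      have h2 : (Dp.cf k ∪ PF).card ≤ 2 * s0 + 2 * P.card :=
        (card_union_le _ _).trans (by omega)
      calc KA * _ ≤ W * (7 * r + 3 * x) := Nat.mul_le_mul (by omega) (by omega)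
        _ = 7 * (W * r) + 3 * (W * x) := by ring
        _ ≤ n := by omega)
  have hDax : Da.size ≤ x := hDas.trans hKAx
  have hv2 := Da.card_vf_le k
  have hc2 := Da.card_cf_le k
  -- CPL
  have hSQ2 : Disjoint SQ (Dp.vf k ∪ R ∪ Da.vf k) := by
    rw [Finset.disjoint_union_right, Finset.disjoint_union_right]
    refine ⟨⟨hSQd, hSQR⟩, ?_⟩
    rw [Finset.disjoint_left]
    intro a ha ha'
    exact hDaf.vfr a (Multiset.mem_toFinset.1 ha') (by simp [ha])
  obtain ⟨Q, hQi, hQg, hQf⟩ := hCPL G k γ (Dp.vf k ∪ R ∪ Da.vf k) (Dp.cf k ∪ PF ∪ Da.cf k) SQ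
    hk hkd hγ (hrtK _ (by omega)) hSQ2
    (by
      have h1 : (Dp.vf k ∪ R ∪ Da.vf k).card ≤ 3 * s0 + R.card + 3 * x :=
        (card_union_le _ _).trans (Nat.add_le_add ((card_union_le _ _).trans (by omega))
          (by omega))
      have h2 : (Dp.cf k ∪ PF ∪ Da.cf k).card ≤ 2 * s0 + 2 * P.card + 2 * x :=
        (card_union_le _ _).trans (Nat.add_le_add ((card_union_le _ _).trans (by omega))
          (by omega))
      omega)
    (by
      rw [hSQc]
      have h1 : 10 * (KQ * r) ≤ n := by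
        calc 10 * (KQ * r) = 10 * KQ * r := by ring
          _ ≤ M * r := Nat.mul_le_mul_right _ (by omega)
          _ ≤ n := hMr
      have h2 : KQ * (r + 1) = KQ * r + KQ := by ring
      omega)
  have hQc : Q.card = r := by
    rw [← hSQc, ← hQi, Finset.card_image_of_injOn hQg.i1]
  have hQcover : ∀ v : G, Q.card ≤ K1 * (Q.filter fun c => c.s⁻¹ * v ∈ P).card := by
    intro v
    refine image_cover hQi (by rw [hQc, hSQc]) ?_
    refine qFam_cover hγ (hAv _ (List.mem_cons_self ..)) ?_ v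
    rw [hSQc]
    -- 2 rt γ ≤ r
    by_contra h
    push Not at h
    have h1 : 4 * M * rt γ ≤ n := hrtK _ (by omega)
    have h2 : 2 * M * r < 2 * M * (2 * rt γ) := Nat.mul_lt_mul_of_pos_left h (by omega)
    have h3 : 2 * M * (2 * rt γ) = 4 * M * rt γ := by ring
    omega
  have hQs : (cgad γ Q).size = 2 * r := by
    simp only [Gad.size, cgad_card, hQc]
    simp [cgad]
  have hv3 := (cgad γ Q).card_verts_le k
  have hc3 := (cgad γ Q).card_cols_le k
  rw [hQs] at hv3 hc3
  -- total vertex and colour multisets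
  set TV : Multiset G := Dp.verts k + Da.verts k + (cgad γ Q).verts k + R.val with hTV
  set TC : Multiset G := Dp.cols k + Da.cols k + (cgad γ Q).cols k + prs γ P.val with hTC
  have hTVn : TV.Nodup := by
    refine nodup4 hDpf.vnd hDaf.vnd hQf.vnd R.nodup ?_ ?_ ?_ ?_ ?_ ?_
    · intro a ha ha'
      exact hDaf.vfr a ha (by simp [Gad.vf, ha'])
    · intro a ha ha'
      exact hQf.vfr a ha (by simp [Gad.vf, ha'])
    · intro a ha ha'
      exact hQf.vfr a ha (by simp [Gad.vf, ha'])
    · intro a ha ha'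
      exact Finset.disjoint_left.1 hRX (show a ∈ R from ha) (by simp [Gad.vf, ha'])
    · intro a ha ha'
      exact hDaf.vfr a ha' (by have : a ∈ R := ha; simp [this])
    · intro a ha ha'
      exact hQf.vfr a ha' (by have : a ∈ R := ha; simp [this])
  have hTCn : TC.Nodup := by
    refine nodup4 hDpf.cnd hDaf.cnd hQf.cnd hPnd ?_ ?_ ?_ ?_ ?_ ?_
    · intro a ha ha'
      exact hDaf.cfr a ha (by simp [Gad.cf, ha'])
    · intro a ha ha'
      exact hQf.cfr a ha (by simp [Gad.cf, ha'])
    · intro a ha ha'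
      exact hQf.cfr a ha (by simp [Gad.cf, ha'])
    · intro a ha ha'
      exact hPFmem a ha (by simp [Gad.cf, ha'])
    · intro a ha ha'
      exact hDaf.cfr a ha' (by simp [hPF, ha])
    · intro a ha ha'
      exact hQf.cfr a ha' (by simp [hPF, ha])
  have hTC1 : (1 : G) ∉ TC := by
    intro h
    rcases Multiset.mem_add.1 h with h | h
    · rcases Multiset.mem_add.1 h with h | h
      · rcases Multiset.mem_add.1 h with h | h
        · exact hDpf.cne 1 h rfl
        · exact hDaf.cne 1 h rfl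
      · exact hQf.cne 1 h rfl
    · exact hPFmem 1 h (by simp)
  have hTVc : Multiset.card TV ≤ 3 * s0 + 4 * x + 6 * r := by
    have h1 := Dp.card_verts_le k
    have h2 := Da.card_verts_le k
    have h3 : Multiset.card R.val = R.card := rfl
    rw [hTV, Multiset.card_add, Multiset.card_add, Multiset.card_add]
    omega
  have hTCc : Multiset.card TC ≤ 2 * s0 + 4 * x + 4 * r := by
    have h1 := Dp.card_cols_le k
    have h2 := Da.card_cols_le k
    have h3 : Multiset.card P.val = P.card := rfl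
    rw [hTC, Multiset.card_add, Multiset.card_add, Multiset.card_add, card_prs]
    omega
  have hTVf : TV.toFinset.card ≤ 3 * s0 + 4 * x + 6 * r :=
    (Multiset.toFinset_card_le _).trans hTVc
  have hTCf : TC.toFinset.card ≤ 2 * s0 + 4 * x + 4 * r :=
    (Multiset.toFinset_card_le _).trans hTCc
  obtain ⟨v₀, hv₀⟩ : ∃ v₀ : G, v₀ ∉ TV := by
    by_contra h
    push Not at h
    have : (univ : Finset G) ⊆ TV.toFinset := fun a _ => Multiset.mem_toFinset.2 (h a)
    have := Finset.card_le_card this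
    rw [Finset.card_univ] at this
    omega
  -- PLACE
  set T : Multiset (SI G) := Dp.I + Da.I + (cgad γ Q).I with hT
  have hTle : T.bind (jl k) ≤ TV := by
    rw [hTV, hT]
    simp only [Gad.verts, Multiset.add_bind]
    have : Dp.V + Dp.I.bind (jl k) + (Da.V + Da.I.bind (jl k)) +
        ((cgad γ Q).V + (cgad γ Q).I.bind (jl k)) + R.val =
        Dp.I.bind (jl k) + Da.I.bind (jl k) + (cgad γ Q).I.bind (jl k) +
        (Dp.V + Da.V + (cgad γ Q).V + R.val) := by abel
    rw [this]
    exact Multiset.le_add_right _ _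
  have hTc : Multiset.card T ≤ s0 + x + 2 * r := by
    rw [hT, Multiset.card_add, Multiset.card_add, cgad_card, hQc]
    have h1 : Multiset.card Dp.I ≤ Dp.size := by simp only [Gad.size]; omega
    have h2 : Multiset.card Da.I ≤ Da.size := by simp only [Gad.size]; omega
    omega
  have hT3 : k = 3 → ∀ i ∈ T, i.2.1 = i.1 := by
    intro hk3 i hi
    rcases Multiset.mem_add.1 hi with h | h
    · rcases Multiset.mem_add.1 h with h | h
      · exact hDpf.three hk3 i h
      · exact hDaf.three hk3 i h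
    · exact hQf.three hk3 i h
  obtain ⟨m, hm6, hm3, hplace⟩ := hPL G k (by omega) hk hkd T (Multiset.nodup_of_le hTle hTVn) hT3
    (by
      calc KP * Multiset.card T ≤ W * (3 * r + x) := Nat.mul_le_mul (by omega) (by omega)
        _ = 3 * (W * r) + W * x := by ring
        _ ≤ n := by omega)
  -- S
  set D : Finset G := insert v₀ TV.toFinset with hD
  have hDc : D.card ≤ 3 * s0 + 4 * x + 6 * r + 1 := (card_insert_le _ _).trans (by omega)
  have hZD : Z * D.card ≤ n := by
    calc Z * D.card ≤ W * (10 * r + 4 * x) := Nat.mul_le_mul (by omega) (by omega)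
      _ = 10 * (W * r) + 4 * (W * x) := by ring
      _ ≤ n := by omega
  obtain ⟨S, hSD, hSc, hSa, hSb⟩ := hS G (by omega) D m (hZ _ _ hZD).2 hm6 hm3
  have hSJ : ∀ a ∈ T.bind (jl k), a ∉ S := by
    intro a ha ha'
    refine Finset.disjoint_left.1 hSD ha' ?_
    rw [hD]
    exact Finset.mem_insert_of_mem (Multiset.mem_toFinset.2 (Multiset.mem_of_le hTle ha))
  obtain ⟨L, I, hL1, hL2, hL3, hL4, hI1, hI2, hI3, hI4, hI5, hI6, hI7, hI8⟩ := hplace S hSc hSJ
  set V : Finset G := univ \ (S ∪ D) with hV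
  set C : Finset G := univ \ (insert 1 TC.toFinset) with hC
  have hset : Setup k γ Dp Da Q R P v₀ S L I V C := by
    refine ⟨hγ, hp, hDpm, ?_, ?_, ?_, ?_, ?_, hL1, hL2, hL3, hL4, ?_⟩
    · intro R' P' h1 h2 h3 h4
      rw [hQc] at h3 h4
      exact hDam R' P' h1 h2 h3 h4
    · rw [hQc]; exact hRbig _ hK1r4
    · rw [hQc]; exact (show 3 * r ≤ 4 * r by omega).trans (hPbig _ hK1r4)
    · exact partition_val hTVn hSD hv₀ hV
    · have := partition_val (A := (∅ : Finset G)) (B := C) hTCn (Finset.disjoint_empty_left _)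
        hTC1 (by rw [hC, Finset.empty_union])
      rw [Finset.empty_val, zero_add] at this
      exact this
    · intro i hi
      rcases hI1 i hi with h | h | h <;> omega
  obtain ⟨hcV, hcC⟩ := hset.counts
  have hmemC : ∀ c ∈ C, c ∉ insert 1 (Dp.cf k) := by
    intro c hc hc'
    rw [hC, Finset.mem_sdiff] at hc
    apply hc.2
    rcases Finset.mem_insert.1 hc' with h | h
    · rw [h]; exact Finset.mem_insert_self _ _
    · refine Finset.mem_insert_of_mem (Multiset.mem_toFinset.2 ?_)
      rw [hTC]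
      exact Multiset.mem_add.2 (Or.inl (Multiset.mem_add.2 (Or.inl (Multiset.mem_add.2
        (Or.inl (Multiset.mem_toFinset.1 h))))))
  have hCcompl : (univ \ C).card ≤ 2 * s0 + 4 * x + 4 * r + 1 := by
    have : univ \ C ⊆ insert 1 TC.toFinset := by
      intro a ha
      rw [hC] at ha
      by_contra h
      rw [Finset.mem_sdiff] at ha
      exact ha.2 (Finset.mem_sdiff.2 ⟨Finset.mem_univ _, h⟩)
    exact (Finset.card_le_card this).trans ((card_insert_le _ _).trans (by omega))
  have hZC : Z * (univ \ C).card ≤ n := by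
    calc Z * (univ \ C).card ≤ W * (7 * r + 4 * x) := Nat.mul_le_mul (by omega) (by omega)
      _ = 7 * (W * r) + 4 * (W * x) := by ring
      _ ≤ n := by omega
  have hNH : NH ε I V C := by
    refine hPREP G (by omega) D S V C (T.bind (jl k)).toFinset I (hZ _ _ hZD).1 hSD ?_ hV
      (by rw [hSc]; exact hm6) (by rw [hSc]; exact hm3) (by rw [hSc]; exact hSa) hSb hI1 hI2 hI3
      hI4 ?_ hI6 ?_ hcV hcC ?_ (hZ _ _ hZC).1 ?_
    · intro a ha
      rw [hD]
      exact Finset.mem_insert_of_mem (Multiset.mem_toFinset.2 (Multiset.mem_of_le hTle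
        (Multiset.mem_toFinset.1 ha)))
    · intro i hi
      rcases hI5 i hi with h | h
      · exact Or.inl h
      · exact Or.inr (Multiset.mem_toFinset.2 h)
    · intro i hi
      rcases hI7 i hi with h | h
      · exact Or.inl h
      · exact Or.inr (Multiset.mem_toFinset.2 h)
    · intro h
      rw [hC, Finset.mem_sdiff] at h
      exact h.2 (Finset.mem_insert_self _ _)
    · rcases hI8 with h | h
      · refine Or.inl ⟨h, fun c hc => ?_⟩
        exact le_trans (Nat.mul_le_mul_right _ (by omega)) (hNB c (hmemC c hc)).rt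
      · exact Or.inr h
  -- nibble
  obtain ⟨I', V', C', hI', hV', hC', hms, hleft⟩ := hNIB G I V C (by omega) hNH
  have hleft' : K3 * (I \ I').card ≤ n := by
    have h1 : ((I \ I').card : ℝ) * (K3 + 1) ≤ n := by
      have h2 : (0 : ℝ) < K3 + 1 := by positivity
      calc ((I \ I').card : ℝ) * (K3 + 1) ≤ (1 / (K3 + 1) * n) * (K3 + 1) := by gcongr
        _ = n := by field_simp
    have h3 : (I \ I').card * (K3 + 1) ≤ n := by exact_mod_cast h1
    have h4 : (I \ I').card * (K3 + 1) = K3 * (I \ I').card + (I \ I').card := by ring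
    omega
  refine hset.final hFIN (by omega) hI' hV' hC' hms ?_
  have m1 := hms.card_V
  have m2 := hms.card_C
  have e1 : ((I \ I').val.map fun i : Idx G => i.2.2 - 1).sum +
      (I'.val.map fun i : Idx G => i.2.2 - 1).sum = V.card := by
    rw [← hcV]; exact Finset.sum_sdiff hI'
  have e2 : ((I \ I').val.map fun i : Idx G => i.2.2).sum +
      (I'.val.map fun i : Idx G => i.2.2).sum = C.card := by
    rw [← hcC]; exact Finset.sum_sdiff hI'
  have e3 : (V \ V').card + V'.card = V.card := Finset.card_sdiff_add_card_eq_card hV'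
  have e4 : (C \ C').card + C'.card = C.card := Finset.card_sdiff_add_card_eq_card hC'
  have f1 : Multiset.card V'.val = V'.card := rfl
  have f2 : Multiset.card C'.val = C'.card := rfl
  refine hCOV G k γ R P Q hγ (by omega) (hrtK _ (by omega)) hPnd hP1
    (fun F hF => hAv F (List.mem_cons_of_mem _ hF)) hQg
    (fun c hc => ⟨(hnbP c hc).1.mono (by omega), (hnbP c hc).2.mono (by omega)⟩) hQcover
    (by rw [hQc]; exact hr2) ?_ (I \ I').val (V \ V') (C \ C') ?_ hleft' (by omega) (by omega)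
    ?_ ?_
  · rw [hQc]
    calc KC * r ≤ M * r := Nat.mul_le_mul_right _ (by omega)
      _ ≤ n := hMr
  · intro i hi
    exact hI1 i (Finset.mem_sdiff.1 (show i ∈ I \ I' from hi)).1
  · intro d hd
    exact (hNB d (hmemC d (Finset.mem_sdiff.1 hd).1)).mono (by omega)
  · have h1 := hset.cls
    have h2 := hms.cls
    have s1 : I'.val + (I \ I').val = I.val := by
      rw [Finset.sdiff_val, add_comm]; exact tsub_add_cancel_of_le (Finset.val_le_iff.2 hI')
    have s3 : C'.val + (C \ C').val = C.val := by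
      rw [Finset.sdiff_val, add_comm]; exact tsub_add_cancel_of_le (Finset.val_le_iff.2 hC')
    rw [← s1, ← s3, Multiset.map_add, Multiset.map_add, Multiset.prod_add, Multiset.prod_add,
      h2, mul_assoc] at h1
    exact mul_left_cancel h1

end Pool.OM
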