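import Pool.Agent.Work.MP_8d2cba_co_h18.Main

set_option autoImplicit false

namespace Pool.OM

/-- From orthomorphisms whose non-identity points form one long cycle to R-sequencings. -/
theorem rseq_of_concl (h : Concl) :
    ∃ N : ℕ, ∀ (G : Type) [Group G] [Fintype G],
      N ≤ Fintype.card G →
      (∀ P : Sylow 2 G, (P : Subgroup G) = ⊥ ∨ ¬ IsCyclic ↥(P : Subgroup G)) →
      ∃ f : ℕ → G,
        (∀ i, i < Fintype.card G - 1 → f i ≠ 1) ∧
        (∀ i j, i < Fintype.card G - 1 → j < Fintype.card G - 1 → f i = f j → i = j) ∧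
        (∀ i j, i < Fintype.card G - 1 → j < Fintype.card G - 1 →
          (f i)⁻¹ * f ((i + 1) % (Fintype.card G - 1)) =
            (f j)⁻¹ * f ((j + 1) % (Fintype.card G - 1)) → i = j) := by
  obtain ⟨N, hN⟩ := h
  refine ⟨max N 4, fun G _ _ hG hP => ?_⟩
  obtain ⟨θ, hθ, hθ1, hper⟩ := hN G (le_trans (le_max_left _ _) hG) hP (Fintype.card G - 1)
    (by have := le_trans (le_max_right N 4) hG; omega) dvd_rfl
  have h4 : 4 ≤ Fintype.card G := le_trans (le_max_right N 4) hG
  set m := Fintype.card G - 1 with hm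
  have hm0 : 0 < m := by omega
  haveI : Nontrivial G := Fintype.one_lt_card_iff_nontrivial.mp (by omega)
  obtain ⟨x, hx⟩ := exists_ne (1 : G)
  have hne : ∀ i, (θ^[i]) x ≠ 1 := by
    intro i
    induction i with
    | zero => simpa using hx
    | succ i ih =>
      rw [Function.iterate_succ_apply']
      intro h
      exact ih (θ.injective (h.trans hθ1.symm))
  have hxper : Function.minimalPeriod θ x = m := hper x hx
  have hinj : ∀ i j, i < m → j < m → (θ^[i]) x = (θ^[j]) x → i = j := by
    intro i j hi hj hij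
    exact Function.iterate_injOn_Iio_minimalPeriod (f := θ) (x := x)
      (by simpa [hxper] using hi) (by simpa [hxper] using hj) hij
  refine ⟨fun i => (θ^[i]) x, fun i _ => hne i, hinj, ?_⟩
  intro i j hi hj hij
  have key : ∀ l, (θ^[(l + 1) % m]) x = θ ((θ^[l]) x) := by
    intro l
    rw [← Function.iterate_succ_apply' (f := θ), ← hxper, Function.iterate_mod_minimalPeriod_eq]
  simp only [key] at hij
  exact hinj i j hi hj (hθ.injective hij)

end Pool.OM
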