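import Pool.Agent.Work.MP_8d2cba_co_h18.Interface

/-! MP_8d2cba_co stage 2: couples and the word systems of the walker. -/

set_option autoImplicit false

namespace Pool.OM

open Finset

/-- A couple of special indices: `(s, s g)` and `(r, r g')`, `g' = γ g⁻¹ γ`. -/
structure Cp (G : Type) where
  s : G
  r : G
  g : G
  τ : G
  τ' : G
deriving DecidableEq

namespace Cp
variable {G : Type} [Group G]
def t (c : Cp G) : G := c.s * c.g
def g' (γ : G) (c : Cp G) : G := γ * c.g⁻¹ * γ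
def t' (γ : G) (c : Cp G) : G := c.r * c.g' γ
/-- the two special indices -/
def I (γ : G) (c : Cp G) : Multiset (SI G) := {(c.s, c.t, c.τ), (c.r, c.t' γ, c.τ')}
def idx (γ : G) (c : Cp G) : Multiset (Idx G) := {(c.s, c.t, 3), (c.r, c.t' γ, 3)}
end Cp

/-- gadget consisting of the couples `Q` -/
def cgad {G : Type} [Group G] (γ : G) (Q : Finset (Cp G)) : Gad G :=
  ⟨Q.val.bind (Cp.I γ), 0, 0⟩

/-- general position of the couples -/
structure GenPos {G : Type} [Group G] [Fintype G] [DecidableEq G] (K k : ℕ) (γ : G)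
    (Q : Finset (Cp G)) : Prop where
  k3 : k = 3 → ∀ c ∈ Q, c.g = 1
  w1 : ∀ c ∈ Q, c.r * γ * c.g⁻¹ ≠ c.s
  w2 : ∀ c ∈ Q, ∀ c' ∈ Q, c ≠ c' → c.r * γ * c.g⁻¹ ≠ c'.s
  w3 : ∀ c ∈ Q, ∀ c' ∈ Q, c ≠ c' → c'.s * c'.g * γ ≠ c.r
  r1 : ∀ c ∈ Q, ∀ c' ∈ Q, c ≠ c' → K * rt (c'.s⁻¹ * c.r * γ) ≤ Fintype.card G
  r2 : ∀ c ∈ Q, ∀ c' ∈ Q, c ≠ c' →
    K * rt (c'.g⁻¹ * c'.s⁻¹ * c.r * γ * c.g⁻¹) ≤ Fintype.card G
  i1 : Set.InjOn (fun c : Cp G => c.s) (Q : Set (Cp G))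
  i2 : Set.InjOn (fun c : Cp G => c.s * c.g) (Q : Set (Cp G))
  i3 : Set.InjOn (fun c : Cp G => c.g * γ * c.r⁻¹) (Q : Set (Cp G))
  i4 : Set.InjOn (fun c : Cp G => c.g * γ * c.r⁻¹ * c.s) (Q : Set (Cp G))
  i5 : k ≠ 3 → Set.InjOn (fun c : Cp G => c.g) (Q : Set (Cp G))

/-- static conditions for feeding `(d1, d2)` with the second, third and fourth couple -/
structure FeedAd {G : Type} [Group G] [Fintype G] [DecidableEq G] (K : ℕ) (γ : G)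
    (c2 c3 c4 : Cp G) (d1 d2 : G) : Prop where
  e1 : d1 ≠ 1
  e2 : d2 ≠ 1
  e3 : d1 * d2 ≠ 1
  a1 : K * rt (c3.g * γ * d1 * γ) ≤ Fintype.card G
  a2 : K * rt (d1⁻¹ * c3.g⁻¹) ≤ Fintype.card G
  a3 : K * rt (d1 * d2 * γ) ≤ Fintype.card G
  a4 : K * rt ((d1 * d2)⁻¹ * γ) ≤ Fintype.card G
  a5 : K * rt (d2 * c3.g⁻¹) ≤ Fintype.card G
  a6 : K * rt (c3.g * γ * d2⁻¹ * γ) ≤ Fintype.card G
  b1 : K * cj d1 (c3.g * γ) ≤ Fintype.card G
  b2 : K * cj d1 (c3.s⁻¹ * c2.r * γ * c2.g⁻¹) ≤ Fintype.card G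
  b3 : K * cj d1 (c3.g * γ * c3.r⁻¹ * c2.r * γ * c2.g⁻¹) ≤ Fintype.card G
  b4 : K * cj d1 (c3.g * γ * c3.r⁻¹ * c3.s) ≤ Fintype.card G
  b5 : K * cj (d1 * d2) (c3.g * γ * c3.r⁻¹ * c2.r * γ * c2.g⁻¹) ≤ Fintype.card G
  b6 : K * cj (d1 * d2) (c3.g * γ * c3.r⁻¹ * c3.s) ≤ Fintype.card G
  b7 : K * cj (d1 * d2) (c4.s⁻¹ * c2.r * γ * c2.g⁻¹) ≤ Fintype.card G
  b8 : K * cj (d1 * d2) (c4.s⁻¹ * c3.s) ≤ Fintype.card G
  b9 : K * cj d2 (γ * c3.g⁻¹) ≤ Fintype.card G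
  b10 : K * cj d2 (c3.g * γ * c3.r⁻¹ * c3.s) ≤ Fintype.card G
  b11 : K * cj d2 (c4.s⁻¹ * c3.s) ≤ Fintype.card G
  b12 : K * cj d2 (c4.s⁻¹ * c3.r * γ * c3.g⁻¹) ≤ Fintype.card G

/-- static conditions at the end (last couple `c`, final `α`) -/
structure FinAd {G : Type} [Group G] [Fintype G] [DecidableEq G] (K : ℕ) (γ : G)
    (c : Cp G) (α : G) : Prop where
  e1 : c.g ≠ α
  a1 : K * rt (α * c.g⁻¹ * γ) ≤ Fintype.card G
  b1 : K * cj (γ * c.g * α⁻¹) γ ≤ Fintype.card G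

/-- static conditions for a left vertex `v` and the couple `c` -/
structure LvAd {G : Type} [Group G] [Fintype G] [DecidableEq G] (K : ℕ) (γ : G)
    (c : Cp G) (v : G) : Prop where
  e1 : c.s * c.g ≠ v * γ
  a1 : K * rt (v⁻¹ * c.s * c.g) ≤ Fintype.card G
  b1 : K * cj (c.s * c.g * v⁻¹) γ ≤ Fintype.card G

/-- a colour which is not bad -/
structure NBad {G : Type} [Group G] [Fintype G] [DecidableEq G] (K : ℕ) (γ d : G) : Prop where
  ne : d ≠ 1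
  rt : K * Pool.OM.rt d ≤ Fintype.card G
  cj : K * Pool.OM.cj d γ ≤ Fintype.card G

/-- conditions on a pair of colours to be fed -/
structure FeedPre {G : Type} [Group G] [Fintype G] [DecidableEq G] (K : ℕ) (γ d1 d2 : G) :
    Prop where
  n1 : NBad K γ d1
  n2 : NBad K γ d2
  e3 : d1 * d2 ≠ 1
  a3 : K * rt (d1 * d2 * γ) ≤ Fintype.card G
  a4 : K * rt ((d1 * d2)⁻¹ * γ) ≤ Fintype.card G

/-! ### word systems -/
namespace Walk

def γ : Wd := [(0, true)]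
def X (j : ℕ) : Wd := [(j + 1, true)]
def i (w : Wd) : Wd := Wd.inv w

/-- source / target words of a couple with words `(s, r, g)` -/
structure CW where
  s : Wd
  r : Wd
  g : Wd
namespace CW
def t (c : CW) : Wd := c.s ++ c.g
def g' (c : CW) : Wd := γ ++ i c.g ++ γ
def t' (c : CW) : Wd := c.r ++ c.g'
end CW

/-- RR step: consumes `P, z, z'` -/
def P1R (c : CW) (P z : Wd) : Wd := γ ++ i c.g ++ P ++ z
def vR (c : CW) (P z z' : Wd) : List Wd :=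
  [c.s ++ P, c.s ++ P ++ z, c.r ++ P1R c P z, c.r ++ P1R c P z ++ z']
/-- LL step: consumes `P, y, y'` -/
def P1L (c : CW) (P y : Wd) : Wd := y ++ P ++ i c.g ++ γ
/-- the vertices of LL without the first one `t P⁻¹` -/
def vL (c : CW) (P y y' : Wd) : List Wd :=
  [c.t ++ i (y ++ P), c.t' ++ i (P1L c P y), c.t' ++ i (y' ++ P1L c P y)]

section feed
/- variables of feed: y 0, Y 1, w1 2, w2 3 | z1 4, z2 5, α 6, d1 7, d2 8, couples 1..6: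
s 9..14, r 15..20, g 21..26 -/
def cw (b j : ℕ) : CW := ⟨X (b + j - 1), X (b + 6 + j - 1), X (b + 12 + j - 1)⟩

def feedSys : Sys :=
  let y := X 0
  let Y := X 1
  let w1 := X 2
  let w2 := X 3
  let z1 := X 4
  let z2 := X 5
  let α := X 6
  let d1 := X 7
  let d2 := X 8
  let c := cw 9
  let y2 := Y ++ i α ++ i y
  let P0 := α ++ z1 ++ z2
  let PA := Y ++ z1 ++ z2
  let PC := Y ++ d1 ++ d2
  let PD := PC ++ w1 ++ w2
  let PE := α ++ d1 ++ d2 ++ w1 ++ w2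
  { vw := vL (c 1) P0 y y2 ++ vR (c 2) PA (i z2 ++ γ) (γ ++ i z1) ++ vR (c 3) Y d1 d2 ++
      vR (c 4) PC w1 w2 ++ ((c 5).t ++ i PD) :: vL (c 5) PD (γ ++ i y2) (i y ++ γ) ++
      [(c 6).t ++ i PE]
    pw := [y, γ ++ i y2, γ ++ i (P1L (c 1) P0 y), γ ++ i PA, P1R (c 2) PA (i z2 ++ γ), Y,
      P1R (c 3) Y d1, PC, γ ++ i w1, w2, P1R (c 4) PC w1, PD,
      γ ++ i (P1L (c 5) PD (γ ++ i y2)), γ ++ i PE] }

/- burn: y 0, Y 1, w1 2, w2 3 | z1 4, z2 5, α 6, couples 1..6 (3 unused):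
s 7..12, r 13..18, g 19..24 -/
def burnSys : Sys :=
  let y := X 0
  let Y := X 1
  let w1 := X 2
  let w2 := X 3
  let z1 := X 4
  let z2 := X 5
  let α := X 6
  let c := cw 7
  let y2 := Y ++ i α ++ i y
  let P0 := α ++ z1 ++ z2
  let PA := Y ++ z1 ++ z2
  let PD := Y ++ w1 ++ w2
  let PE := α ++ w1 ++ w2
  { vw := vL (c 1) P0 y y2 ++ vR (c 2) PA (i z2 ++ γ) (γ ++ i z1) ++
      vR (c 4) Y w1 w2 ++ ((c 5).t ++ i PD) :: vL (c 5) PD (γ ++ i y2) (i y ++ γ) ++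
      [(c 6).t ++ i PE]
    pw := [y, γ ++ i y2, γ ++ i (P1L (c 1) P0 y), γ ++ i PA, P1R (c 2) PA (i z2 ++ γ), Y,
      γ ++ i w1, w2, P1R (c 4) Y w1, PD,
      γ ++ i (P1L (c 5) PD (γ ++ i y2)), γ ++ i PE] }

/- final: y 0, Y 1 | z1 2, z2 3, α 4, couples 1, 2, 5: s 5..10, r 11..16, g 17..22 -/
def finSys : Sys :=
  let y := X 0
  let Y := X 1
  let z1 := X 2
  let z2 := X 3
  let α := X 4
  let c := cw 5
  let y2 := Y ++ i α ++ i y
  let P0 := α ++ z1 ++ z2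
  let PA := Y ++ z1 ++ z2
  { vw := vL (c 1) P0 y y2 ++ vR (c 2) PA (i z2 ++ γ) (γ ++ i z1) ++
      [(c 5).t ++ i Y, (c 5).t ++ i (γ ++ i y2 ++ Y),
        (c 5).t' ++ i (P1L (c 5) Y (γ ++ i y2))]
    pw := [y, γ ++ i y2, γ ++ i (P1L (c 1) P0 y), γ ++ i PA, P1R (c 2) PA (i z2 ++ γ), Y,
      γ ++ i (P1L (c 5) Y (γ ++ i y2))] }

/- init: x 0, X 1, z1 2, z2 3 | couple 0: s 4, r 5, g 6; couple 1: s 7, (r 8,) g 9; r_L: 10 -/
def initSys : Sys :=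
  let x := X 0
  let X' := X 1
  let z1 := X 2
  let z2 := X 3
  let c0 : CW := ⟨X 4, X 5, X 6⟩
  let c1 : CW := ⟨X 7, X 8, X 9⟩
  let P := x ++ z1 ++ z2
  { vw := vR c0 x z1 z2 ++ [c1.t ++ i P, X 10 ++ X']
    pw := [x, X', γ ++ i z1, z2, P1R c0 x z1, P] }

/- four letters with product X: a1 0, a2 1, a3 2 | X 3 -/
def letSys : Sys :=
  { vw := []
    pw := [γ ++ i (X 0), X 1, γ ++ i (X 2), i (X 0 ++ X 1 ++ X 2) ++ X 3] }

/- left vertex v: y 0, x 1, w 2 | v 3, s 4, r 5, g 6 -/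
def lvSys : Sys :=
  let c : CW := ⟨X 4, X 5, X 6⟩
  { vw := [X 0, X 1, X 2]
    pw := [i (X 3) ++ X 0, i (X 0) ++ c.t, i (c.r) ++ X 1, i (X 1) ++ X 2, i (X 2) ++ c.t'] }

/- left indices -/
def li3 : Sys := ⟨[X 0, X 1], [i (X 2) ++ X 0, i (X 0) ++ X 1, i (X 1) ++ X 3]⟩
def li4 : Sys := ⟨[X 0, X 1, X 2],
  [i (X 3) ++ X 0, i (X 0) ++ X 1, i (X 1) ++ X 2, i (X 2) ++ X 4]⟩
def li5 : Sys := ⟨[X 0, X 1, X 2, X 3],
  [i (X 4) ++ X 0, i (X 0) ++ X 1, i (X 1) ++ X 2, i (X 2) ++ X 3, i (X 3) ++ X 5]⟩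

end feed
end Walk

/-! ### batches and plans -/

/-- parameter vector from a list -/
def parL {G : Type} [Group G] (L : List G) (j : ℕ) : G := L.getD j 1

/-- a batch of the walker (couples numbered as in the word systems) -/
inductive Bt (G : Type)
  | feed (c1 c2 c3 c4 c5 : Cp G) (d1 d2 : G)
  | burn (c1 c2 c4 c5 : Cp G)

/-- the final batch -/
structure Fn (G : Type) where
  c1 : Cp G
  c2 : Cp G
  c5 : Cp G

section plan
variable {G : Type} [Group G]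

namespace Bt
def hd : Bt G → Cp G
  | feed c1 _ _ _ _ _ _ => c1
  | burn c1 _ _ _ => c1
def cps : Bt G → List (Cp G)
  | feed c1 c2 c3 c4 c5 _ _ => [c1, c2, c3, c4, c5]
  | burn c1 c2 c4 c5 => [c1, c2, c4, c5]
def fed : Bt G → Multiset G
  | feed _ _ _ _ _ d1 d2 => {d1, d2}
  | burn _ _ _ _ => 0
def D : Bt G → G
  | feed _ _ _ _ _ d1 d2 => d1 * d2
  | burn _ _ _ _ => 1
/-- the parameters of the word system (`nx` = head couple of the next batch) -/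
def par (nx : Cp G) (α z1 z2 : G) : Bt G → List G
  | feed c1 c2 c3 c4 c5 d1 d2 => [z1, z2, α, d1, d2, c1.s, c2.s, c3.s, c4.s, c5.s, nx.s,
      c1.r, c2.r, c3.r, c4.r, c5.r, nx.r, c1.g, c2.g, c3.g, c4.g, c5.g, nx.g]
  | burn c1 c2 c4 c5 => [z1, z2, α, c1.s, c2.s, 1, c4.s, c5.s, nx.s,
      c1.r, c2.r, 1, c4.r, c5.r, nx.r, c1.g, c2.g, 1, c4.g, c5.g, nx.g]
def sys : Bt G → Sys
  | feed _ _ _ _ _ _ _ => Walk.feedSys
  | burn _ _ _ _ => Walk.burnSys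
def pws (γ : G) (nx : Cp G) (α z1 z2 : G) (b : Bt G) (ω : Fin 4 → G) : List G :=
  b.sys.pw.map (ev γ (join 4 ω (parL (b.par nx α z1 z2))))
def vws (γ : G) (nx : Cp G) (α z1 z2 : G) (b : Bt G) (ω : Fin 4 → G) : List G :=
  b.sys.vw.map (ev γ (join 4 ω (parL (b.par nx α z1 z2))))
/-- static conditions -/
def Ad [Fintype G] [DecidableEq G] (K : ℕ) (γ : G) : Bt G → Prop
  | feed _ c2 c3 c4 _ d1 d2 => FeedAd K γ c2 c3 c4 d1 d2
  | burn _ _ _ _ => True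
open Classical in
/-- at least half of the choices are collision free -/
def Good [Fintype G] (γ : G) (nx : Cp G) (α z1 z2 : G) (b : Bt G) : Prop :=
  Fintype.card G ^ 4 ≤ 2 * (univ.filter fun ω : Fin 4 → G =>
    CF γ (b.pws γ nx α z1 z2 ω) (b.vws γ nx α z1 z2 ω)).card
end Bt

namespace Fn
def cps (f : Fn G) : List (Cp G) := [f.c1, f.c2, f.c5]
def par (α z1 z2 : G) (f : Fn G) : List G := [z1, z2, α, f.c1.s, f.c2.s, 1, 1, f.c5.s, 1,
  f.c1.r, f.c2.r, 1, 1, f.c5.r, 1, f.c1.g, f.c2.g, 1, 1, f.c5.g, 1]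
def pws (γ α z1 z2 : G) (f : Fn G) (ω : Fin 2 → G) : List G :=
  Walk.finSys.pw.map (ev γ (join 2 ω (parL (f.par α z1 z2))))
def vws (γ α z1 z2 : G) (f : Fn G) (ω : Fin 2 → G) : List G :=
  Walk.finSys.vw.map (ev γ (join 2 ω (parL (f.par α z1 z2))))
open Classical in
def Good [Fintype G] (γ α z1 z2 : G) (f : Fn G) : Prop :=
  Fintype.card G ^ 2 ≤ 2 * (univ.filter fun ω : Fin 2 → G =>
    CF γ (f.pws γ α z1 z2 ω) (f.vws γ α z1 z2 ω)).card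
end Fn

def planHd (f : Fn G) : List (Bt G) → Cp G
  | [] => f.c1
  | b :: _ => b.hd
def planCps (f : Fn G) (bs : List (Bt G)) : List (Cp G) := bs.flatMap Bt.cps ++ f.cps
def planD (bs : List (Bt G)) : G := (bs.map Bt.D).prod
def planFed (bs : List (Bt G)) : Multiset G := (bs.map Bt.fed).sum
/-- the first batch is good -/
def planGood [Fintype G] (γ : G) (f : Fn G) (α z1 z2 : G) : List (Bt G) → Prop
  | [] => f.Good γ α z1 z2
  | b :: bs => b.Good γ (planHd f bs) α z1 z2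

end plan

/-- families used in the covering of the leftovers -/
def covFams {G : Type} [Group G] [Fintype G] (γ : G) : List (Fam G) :=
  [Walk.feedSys.fam γ 4 23, Walk.burnSys.fam γ 4 21, Walk.finSys.fam γ 2 21,
    Walk.initSys.fam γ 4 7, Walk.letSys.fam γ 3 1, Walk.lvSys.fam γ 3 4,
    Walk.li3.fam γ 2 2, Walk.li4.fam γ 3 2, Walk.li5.fam γ 4 2]

end Pool.OM
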